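import Pool.Agent.H572R4.QA.Defs
import Pool.Agent.H746R2.AA.Block

set_option autoImplicit false

namespace Pool.Agent.H572R4.QA

open Finset Pool.Agent.H572R2

variable {N : ℕ}

namespace A1aux

/-- bits to units -/
def toU (b : Bool) : ℤˣ := if b then -1 else 1

/-- units to bits -/
def toB (u : ℤˣ) : Bool := decide (u = -1)

lemma toB_toU (b : Bool) : toB (toU b) = b := by cases b <;> decide

lemma toU_toB (u : ℤˣ) : toU (toB u) = u := by
  rcases Int.units_eq_one_or u with h | h <;> rw [h] <;> decide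

/-- the bijection of the two cubes -/
def eqv (N : ℕ) : (Fin N → Bool) ≃ (Fin N → ℤˣ) where
  toFun x := fun i => toU (x i)
  invFun u := fun i => toB (u i)
  left_inv x := by funext i; exact toB_toU (x i)
  right_inv u := by funext i; exact toU_toB (u i)

lemma toU_cast (b : Bool) : (((toU b : ℤˣ) : ℤ) : ℝ) = (-1 : ℝ) ^ b.toNat := by
  cases b <;> simp [toU]

end A1aux

open A1aux

theorem bk_of_degLe (d : ℕ) (f : (Fin N → Bool) → ℝ) (hf : ∀ x, |f x| ≤ 1) (hd : DegLe d f) :
    Bk f (2 * (d : ℝ) ^ 2) := by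
  intro m A hA x
  have hfc : ∀ S : Finset (Fin N), d < S.card →
      Pool.Agent.H722R2.AA.fc (fun u : Fin N → ℤˣ => f ((eqv N).symm u)) S = 0 := by
    intro S hS
    unfold Pool.Agent.H722R2.AA.fc
    have h1 : ∑ u : Fin N → ℤˣ, f ((eqv N).symm u) * ∏ i ∈ S, Pool.Agent.H722R2.AA.sg u i
        = ∑ x : Fin N → Bool, f x * ∏ i ∈ S, (-1 : ℝ) ^ (x i).toNat := by
      rw [← Equiv.sum_comp (eqv N)]
      refine Finset.sum_congr rfl fun x _ => ?_
      rw [Equiv.symm_apply_apply]
      congr 1
      refine Finset.prod_congr rfl fun i _ => ?_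
      exact toU_cast (x i)
    rw [h1, hd S hS, zero_div]
  have key := Pool.Agent.H746R2.AA.block_markov_signed
    (fun u : Fin N → ℤˣ => f ((eqv N).symm u)) d hfc 1 (fun u => hf _)
    (eqv N x) (eqv N (fun i => !(x i))) (Finset.univ : Finset (Fin m)) A
    (fun a _ b _ hab => hA a b hab) Finset.univ (Finset.subset_univ _)
  rw [mul_one] at key
  refine le_trans (le_of_eq ?_) key
  congr 1
  refine Finset.sum_congr rfl fun a _ => ?_
  rw [Equiv.symm_apply_apply]
  congr 2
  funext i
  by_cases hi : i ∈ A a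
  · simp [flS, hi, eqv, Finset.piecewise, toB_toU]
  · simp [flS, hi, eqv, Finset.piecewise, toB_toU]

end Pool.Agent.H572R4.QA
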