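import Pool.Agent.H572R4.QA.Defs

set_option autoImplicit false

namespace Pool.Agent.H572R4.QA

open Finset Pool.Agent.H572R2

variable {N : ℕ}

theorem A1b_flS_singleton (i : Fin N) (x : Fin N → Bool) : flS {i} x = flp i x := by
  funext j
  unfold flS flp
  by_cases h : j = i
  · subst h; simp
  · simp [h]

theorem A1b_block (f : (Fin N → Bool) → ℝ) (D : ℝ) (h : Bk f D) (x : Fin N → Bool)
    (P : Finset (Fin N)) : |∑ i ∈ P, (f (flp i x) - f x)| ≤ D := by
  have h1 := h P.card (fun a => {((P.equivFin.symm a : P) : Fin N)}) (by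
    intro a b hab
    rw [Finset.disjoint_singleton]
    intro h2
    exact hab (P.equivFin.symm.injective (Subtype.ext h2))) x
  have h2 : ∑ a : Fin P.card, (f (flS {((P.equivFin.symm a : P) : Fin N)} x) - f x)
      = ∑ i ∈ P, (f (flp i x) - f x) := by
    rw [← Finset.sum_coe_sort P]
    rw [← Equiv.sum_comp P.equivFin.symm (fun i : P => f (flp (i : Fin N) x) - f x)]
    exact Finset.sum_congr rfl (fun a _ => by rw [A1b_flS_singleton])
  rw [h2] at h1
  exact h1

theorem infl_of_bk (f : (Fin N → Bool) → ℝ) (D : ℝ) (h : Bk f D) (x : Fin N → Bool) :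
    ∑ i, dd f i x ≤ 2 * D := by
  classical
  have h1 := A1b_block f D h x (Finset.univ.filter (fun i => 0 ≤ f (flp i x) - f x))
  have h2 := A1b_block f D h x (Finset.univ.filter (fun i => ¬ 0 ≤ f (flp i x) - f x))
  have h3 : ∑ i, dd f i x = ∑ i ∈ Finset.univ.filter (fun i => 0 ≤ f (flp i x) - f x), dd f i x
      + ∑ i ∈ Finset.univ.filter (fun i => ¬ 0 ≤ f (flp i x) - f x), dd f i x :=
    (Finset.sum_filter_add_sum_filter_not _ _ _).symm
  have h4 : ∑ i ∈ Finset.univ.filter (fun i => 0 ≤ f (flp i x) - f x), dd f i x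
      = ∑ i ∈ Finset.univ.filter (fun i => 0 ≤ f (flp i x) - f x), (f (flp i x) - f x) := by
    refine Finset.sum_congr rfl (fun i hi => ?_)
    have := (Finset.mem_filter.1 hi).2
    unfold dd
    rw [abs_sub_comm, abs_of_nonneg this]
  have h5 : ∑ i ∈ Finset.univ.filter (fun i => ¬ 0 ≤ f (flp i x) - f x), dd f i x
      = -∑ i ∈ Finset.univ.filter (fun i => ¬ 0 ≤ f (flp i x) - f x), (f (flp i x) - f x) := by
    rw [← Finset.sum_neg_distrib]
    refine Finset.sum_congr rfl (fun i hi => ?_)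
    have := (Finset.mem_filter.1 hi).2
    unfold dd
    rw [abs_sub_comm, abs_of_neg (not_le.1 this)]
  rw [h3, h4, h5]
  have h6 := (abs_le.1 h1).2
  have h7 := (abs_le.1 h2).1
  linarith

end Pool.Agent.H572R4.QA
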