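import Pool.Agent.H572R4.QA.Defs

set_option autoImplicit false

namespace Pool.Agent.H572R4.QA

open Finset Pool.Agent.H572R2

variable {N : ℕ}

namespace A2aux

section meas

variable {Ω : Type} [Fintype Ω]

/-- product weight -/
noncomputable def W (ρ : Ω → ℝ) {m : ℕ} (w : Fin m → Ω) : ℝ := ∏ a, ρ (w a)

omit [Fintype Ω] in
theorem W_nonneg (ρ : Ω → ℝ) (h0 : ∀ ω, 0 ≤ ρ ω) {m : ℕ} (w : Fin m → Ω) : 0 ≤ W ρ w :=
  Finset.prod_nonneg fun a _ => h0 _

theorem W_sum (ρ : Ω → ℝ) (h1 : ∑ ω, ρ ω = 1) (m : ℕ) : ∑ w : Fin m → Ω, W ρ w = 1 := by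
  unfold W
  have := Finset.prod_univ_sum (fun _ : Fin m => (univ : Finset Ω)) (fun _ ω => ρ ω)
  rw [Fintype.piFinset_univ] at this
  rw [← this]
  simp [h1]

omit [Fintype Ω] in
theorem W_swap (ρ : Ω → ℝ) {m : ℕ} (a : Fin m) (w : Fin m → Ω) (c : Ω) :
    W ρ (Function.update w a c) * ρ (w a) = W ρ w * ρ c := by
  unfold W
  rw [← Finset.mul_prod_erase univ (fun b => ρ (Function.update w a c b)) (mem_univ a),
    ← Finset.mul_prod_erase univ (fun b => ρ (w b)) (mem_univ a)]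
  have : ∏ b ∈ univ.erase a, ρ (Function.update w a c b) = ∏ b ∈ univ.erase a, ρ (w b) := by
    refine prod_congr rfl fun b hb => ?_
    rw [Function.update_of_ne (ne_of_mem_erase hb)]
  rw [this, Function.update_self]
  ring

theorem fubini (ρ : Ω → ℝ) (h1 : ∑ ω, ρ ω = 1) {m : ℕ} (a : Fin m) (G : Ω → (Fin m → Ω) → ℝ)
    (hG : ∀ c w c', G c (Function.update w a c') = G c w) :
    ∑ w : Fin m → Ω, W ρ w * G (w a) w = ∑ c, ρ c * ∑ w : Fin m → Ω, W ρ w * G c w := by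
  classical
  let e : (Fin m → Ω) × Ω ≃ (Fin m → Ω) × Ω :=
    { toFun := fun p => (Function.update p.1 a p.2, p.1 a)
      invFun := fun p => (Function.update p.1 a p.2, p.1 a)
      left_inv := fun p => by simp
      right_inv := fun p => by simp }
  have h2 : ∑ p : (Fin m → Ω) × Ω, W ρ p.1 * ρ p.2 * G p.2 p.1 =
      ∑ p : (Fin m → Ω) × Ω, W ρ p.1 * ρ p.2 * G (p.1 a) p.1 := by
    rw [← Equiv.sum_comp e]
    refine sum_congr rfl fun p _ => ?_
    show W ρ (Function.update p.1 a p.2) * ρ (p.1 a) * G (p.1 a) (Function.update p.1 a p.2) = _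
    rw [W_swap, hG]
  rw [Fintype.sum_prod_type, Fintype.sum_prod_type] at h2
  calc ∑ w : Fin m → Ω, W ρ w * G (w a) w = ∑ w : Fin m → Ω, ∑ c, W ρ w * ρ c * G (w a) w := by
        refine sum_congr rfl fun w _ => ?_
        rw [← Finset.sum_mul, ← Finset.mul_sum, h1, mul_one]
    _ = ∑ w : Fin m → Ω, ∑ c, W ρ w * ρ c * G c w := h2.symm
    _ = ∑ c, ∑ w : Fin m → Ω, W ρ w * ρ c * G c w := Finset.sum_comm
    _ = _ := by
        refine sum_congr rfl fun c _ => ?_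
        rw [Finset.mul_sum]
        refine sum_congr rfl fun w _ => ?_
        ring

theorem marg1 (ρ : Ω → ℝ) (h1 : ∑ ω, ρ ω = 1) {m : ℕ} (a : Fin m) (φ : Ω → ℝ) :
    ∑ w : Fin m → Ω, W ρ w * φ (w a) = ∑ c, ρ c * φ c := by
  rw [fubini ρ h1 a (fun c _ => φ c) (fun _ _ _ => rfl)]
  refine sum_congr rfl fun c _ => ?_
  rw [← Finset.sum_mul, W_sum ρ h1, one_mul]

theorem marg2 (ρ : Ω → ℝ) (h1 : ∑ ω, ρ ω = 1) {m : ℕ} (a b : Fin m) (hab : a ≠ b) (φ : Ω → ℝ) :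
    ∑ w : Fin m → Ω, W ρ w * (φ (w a) * φ (w b)) = (∑ c, ρ c * φ c) ^ 2 := by
  rw [fubini ρ h1 a (fun c w => φ c * φ (w b)) (fun c w c' => by
    rw [Function.update_of_ne hab.symm])]
  have : ∀ c, ∑ w : Fin m → Ω, W ρ w * (φ c * φ (w b)) = φ c * ∑ c, ρ c * φ c := by
    intro c
    rw [← marg1 ρ h1 b φ, Finset.mul_sum]
    refine sum_congr rfl fun w _ => ?_
    ring
  simp only [this]
  rw [sq, Finset.sum_mul]
  refine sum_congr rfl fun c _ => ?_
  ring

open scoped Classical in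
/-- the coordinates in at least two of the sets -/
noncomputable def UU (R : Ω → Finset (Fin N)) {m : ℕ} (w : Fin m → Ω) : Finset (Fin N) :=
  univ.filter (fun i => ∃ a b, a ≠ b ∧ i ∈ R (w a) ∧ i ∈ R (w b))

open scoped Classical in
/-- the coordinates outside `R c` in at least two of the sets with an index different from `a` -/
noncomputable def VV (R : Ω → Finset (Fin N)) {m : ℕ} (a : Fin m) (c : Ω) (w : Fin m → Ω) :
    Finset (Fin N) :=
  univ.filter (fun i => i ∉ R c ∧ ∃ b b', b ≠ a ∧ b' ≠ a ∧ b ≠ b' ∧ i ∈ R (w b) ∧ i ∈ R (w b'))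

omit [Fintype Ω] in
theorem mem_UU (R : Ω → Finset (Fin N)) {m : ℕ} (w : Fin m → Ω) (i : Fin N) :
    i ∈ UU R w ↔ ∃ a b, a ≠ b ∧ i ∈ R (w a) ∧ i ∈ R (w b) := by
  simp [UU]

omit [Fintype Ω] in
theorem mem_VV (R : Ω → Finset (Fin N)) {m : ℕ} (a : Fin m) (c : Ω) (w : Fin m → Ω) (i : Fin N) :
    i ∈ VV R a c w ↔
      i ∉ R c ∧ ∃ b b', b ≠ a ∧ b' ≠ a ∧ b ≠ b' ∧ i ∈ R (w b) ∧ i ∈ R (w b') := by
  simp [VV]

omit [Fintype Ω] in
theorem VV_update (R : Ω → Finset (Fin N)) {m : ℕ} (a : Fin m) (c : Ω) (w : Fin m → Ω) (c' : Ω) :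
    VV R a c (Function.update w a c') = VV R a c w := by
  ext i
  rw [mem_VV, mem_VV]
  refine and_congr_right fun _ => ?_
  refine exists_congr fun b => exists_congr fun b' => ?_
  constructor
  · rintro ⟨h1, h2, h3, h4, h5⟩
    rw [Function.update_of_ne h1] at h4
    rw [Function.update_of_ne h2] at h5
    exact ⟨h1, h2, h3, h4, h5⟩
  · rintro ⟨h1, h2, h3, h4, h5⟩
    rw [Function.update_of_ne h1, Function.update_of_ne h2]
    exact ⟨h1, h2, h3, h4, h5⟩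

omit [Fintype Ω] in
theorem VV_sub (R : Ω → Finset (Fin N)) {m : ℕ} (a : Fin m) (c : Ω) (w : Fin m → Ω) (i : Fin N)
    (h : i ∈ VV R a c w) : i ∈ UU R w := by
  rw [mem_VV] at h
  obtain ⟨-, b, b', -, -, h3, h4, h5⟩ := h
  exact (mem_UU R w i).2 ⟨b, b', h3, h4, h5⟩

omit [Fintype Ω] in
theorem UU_sdiff (R : Ω → Finset (Fin N)) {m : ℕ} (a : Fin m) (w : Fin m → Ω) :
    UU R w \ R (w a) = VV R a (w a) w := by
  ext i
  rw [mem_sdiff, mem_UU, mem_VV]
  constructor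
  · rintro ⟨⟨b, b', h1, h2, h3⟩, h4⟩
    refine ⟨h4, b, b', ?_, ?_, h1, h2, h3⟩
    · rintro rfl; exact h4 h2
    · rintro rfl; exact h4 h3
  · rintro ⟨h4, b, b', -, -, h1, h2, h3⟩
    exact ⟨⟨b, b', h1, h2, h3⟩, h4⟩

theorem UU_marg (ρ : Ω → ℝ) (R : Ω → Finset (Fin N)) (η : ℝ)
    (h0 : ∀ ω, 0 ≤ ρ ω) (h1 : ∑ ω, ρ ω = 1)
    (hm : ∀ i, ∑ ω, (if i ∈ R ω then ρ ω else 0) ≤ η) (m : ℕ) (i : Fin N) :
    ∑ w : Fin m → Ω, (if i ∈ UU R w then W ρ w else 0) ≤ (m : ℝ) ^ 2 * η ^ 2 / 2 := by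
  classical
  set φ : Ω → ℝ := fun ω => if i ∈ R ω then 1 else 0 with hφ
  have hφ0 : ∀ ω, 0 ≤ φ ω := fun ω => by simp only [hφ]; split_ifs <;> norm_num
  have hp : ∑ c, ρ c * φ c ≤ η := by
    refine le_trans (le_of_eq ?_) (hm i)
    refine sum_congr rfl fun c _ => ?_
    simp only [hφ]; split_ifs <;> simp
  have hp0 : 0 ≤ ∑ c, ρ c * φ c := Finset.sum_nonneg fun c _ => mul_nonneg (h0 c) (hφ0 c)
  -- pointwise bound
  have hpt : ∀ w : Fin m → Ω, (if i ∈ UU R w then W ρ w else 0) ≤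
      ∑ p : Fin m × Fin m, (1 / 2 : ℝ) * (if p.1 ≠ p.2 then W ρ w * (φ (w p.1) * φ (w p.2)) else 0) := by
    intro w
    have hW := W_nonneg ρ h0 w
    have hnn : ∀ p : Fin m × Fin m,
        0 ≤ (1 / 2 : ℝ) * (if p.1 ≠ p.2 then W ρ w * (φ (w p.1) * φ (w p.2)) else 0) := by
      intro p
      by_cases hpp : p.1 ≠ p.2
      · rw [if_pos hpp]
        exact mul_nonneg (by norm_num) (mul_nonneg hW (mul_nonneg (hφ0 _) (hφ0 _)))
      · rw [if_neg hpp]
        simp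
    by_cases hi : i ∈ UU R w
    · rw [if_pos hi]
      obtain ⟨a, b, hab, ha, hb⟩ := (mem_UU R w i).1 hi
      have hne : (a, b) ≠ (b, a) := fun h => hab (Prod.mk.inj h).1
      have hs := Finset.sum_le_sum_of_subset_of_nonneg
        (Finset.subset_univ ({(a, b), (b, a)} : Finset (Fin m × Fin m)))
        (fun p _ _ => hnn p)
      rw [Finset.sum_pair hne] at hs
      refine le_trans (le_of_eq ?_) hs
      simp only [hφ, ne_eq, hab, hab.symm, not_false_eq_true, if_true, ha, hb]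
      ring
    · rw [if_neg hi]
      exact Finset.sum_nonneg fun p _ => hnn p
  calc ∑ w : Fin m → Ω, (if i ∈ UU R w then W ρ w else 0)
      ≤ ∑ w : Fin m → Ω, ∑ p : Fin m × Fin m,
          (1 / 2 : ℝ) * (if p.1 ≠ p.2 then W ρ w * (φ (w p.1) * φ (w p.2)) else 0) :=
        Finset.sum_le_sum fun w _ => hpt w
    _ = ∑ p : Fin m × Fin m, ∑ w : Fin m → Ω,
          (1 / 2 : ℝ) * (if p.1 ≠ p.2 then W ρ w * (φ (w p.1) * φ (w p.2)) else 0) :=
        Finset.sum_comm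
    _ ≤ ∑ p : Fin m × Fin m, (1 / 2 : ℝ) * η ^ 2 := by
        refine Finset.sum_le_sum fun p _ => ?_
        rw [← Finset.mul_sum]
        refine mul_le_mul_of_nonneg_left ?_ (by norm_num)
        by_cases hpp : p.1 ≠ p.2
        · simp only [if_pos hpp]
          rw [marg2 ρ h1 p.1 p.2 hpp φ]
          exact pow_le_pow_left₀ hp0 hp 2
        · simp only [if_neg hpp]
          simp only [Finset.sum_const_zero]
          positivity
    _ = (m : ℝ) ^ 2 * η ^ 2 / 2 := by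
        rw [Finset.sum_const, Finset.card_univ, Fintype.card_prod, Fintype.card_fin, nsmul_eq_mul]
        push_cast
        ring

theorem VV_marg (ρ : Ω → ℝ) (R : Ω → Finset (Fin N)) (η : ℝ)
    (h0 : ∀ ω, 0 ≤ ρ ω) (h1 : ∑ ω, ρ ω = 1)
    (hm : ∀ i, ∑ ω, (if i ∈ R ω then ρ ω else 0) ≤ η) (m : ℕ) (a : Fin m) (c : Ω) (i : Fin N) :
    ∑ w : Fin m → Ω, (if i ∈ VV R a c w then W ρ w else 0) ≤ (m : ℝ) ^ 2 * η ^ 2 / 2 := by
  refine le_trans (Finset.sum_le_sum fun w _ => ?_) (UU_marg ρ R η h0 h1 hm m i)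
  have hW := W_nonneg ρ h0 w
  by_cases hi : i ∈ VV R a c w
  · rw [if_pos hi, if_pos (VV_sub R a c w i hi)]
  · rw [if_neg hi]
    split_ifs
    · exact hW
    · exact le_refl _

end meas

theorem flS_union (S T : Finset (Fin N)) (x : Fin N → Bool) :
    flS (S ∪ T) x = flS (T \ S) (flS S x) := by
  funext i
  unfold flS
  by_cases h1 : i ∈ S <;> by_cases h2 : i ∈ T <;> simp [h1, h2]

end A2aux

open A2aux

theorem rb_step (f : (Fin N → Bool) → ℝ) (D C : ℝ) (hD : Bk f D) (hC0 : 0 ≤ C) (hC : Rb f C)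
    (Ω : Type) [Fintype Ω] (ρ : Ω → ℝ) (R : Ω → Finset (Fin N)) (x : Fin N → Bool) (η : ℝ)
    (h0 : ∀ ω, 0 ≤ ρ ω) (h1 : ∑ ω, ρ ω = 1) (hη : 0 ≤ η)
    (hm : ∀ i, ∑ ω, (if i ∈ R ω then ρ ω else 0) ≤ η) (m : ℕ) (hm1 : 1 ≤ m)
    (hmη : (m : ℝ) ^ 2 * η ^ 2 ≤ 1) :
    |∑ ω, ρ ω * (f (flS (R ω) x) - f x)| ≤ 2 * (C * Real.sqrt ((m : ℝ) ^ 2 * η ^ 2 / 2)) + D / m := by
  classical
  set η2 : ℝ := (m : ℝ) ^ 2 * η ^ 2 / 2 with hη2
  have hη20 : 0 ≤ η2 := by positivity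
  have hη21 : η2 ≤ 1 := by rw [hη2]; linarith
  have hW0 : ∀ w : Fin m → Ω, 0 ≤ W ρ w := fun w => W_nonneg ρ h0 w
  have hW1 : ∑ w : Fin m → Ω, W ρ w = 1 := W_sum ρ h1 m
  set L := ∑ ω, ρ ω * (f (flS (R ω) x) - f x) with hL
  set A : Fin m → ℝ := fun a => ∑ w : Fin m → Ω,
    W ρ w * (f (flS (R (w a)) x) - f (flS (R (w a) ∪ UU R w) x)) with hA
  set B : Fin m → ℝ := fun a => ∑ w : Fin m → Ω,
    W ρ w * (f (flS (R (w a) ∪ UU R w) x) - f (flS (UU R w) x)) with hB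
  set T := ∑ w : Fin m → Ω, W ρ w * (f (flS (UU R w) x) - f x) with hT
  have hsplit : ∀ a, L = A a + B a + T := by
    intro a
    rw [hL, ← marg1 ρ h1 a (fun ω => f (flS (R ω) x) - f x)]
    simp only [hA, hB, hT]
    rw [← Finset.sum_add_distrib, ← Finset.sum_add_distrib]
    refine sum_congr rfl fun w _ => ?_
    ring
  have hTb : |T| ≤ C * Real.sqrt η2 :=
    hC (Fin m → Ω) (W ρ) (UU R) x η2 hW0 hW1 hη20 hη21 (fun i => UU_marg ρ R η h0 h1 hm m i)
  have hAb : ∀ a, |A a| ≤ C * Real.sqrt η2 := by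
    intro a
    have e1 : A a = ∑ c, ρ c * ∑ w : Fin m → Ω,
        W ρ w * (f (flS (R c) x) - f (flS (VV R a c w) (flS (R c) x))) := by
      rw [← fubini ρ h1 a (fun c w => f (flS (R c) x) - f (flS (VV R a c w) (flS (R c) x)))
        (fun c w c' => by rw [VV_update])]
      simp only [hA]
      refine sum_congr rfl fun w _ => ?_
      rw [flS_union, UU_sdiff]
    rw [e1]
    refine (Finset.abs_sum_le_sum_abs _ _).trans ?_
    calc ∑ c, |ρ c * ∑ w : Fin m → Ω,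
          W ρ w * (f (flS (R c) x) - f (flS (VV R a c w) (flS (R c) x)))|
        ≤ ∑ c, ρ c * (C * Real.sqrt η2) := by
          refine Finset.sum_le_sum fun c _ => ?_
          rw [abs_mul, abs_of_nonneg (h0 c)]
          refine mul_le_mul_of_nonneg_left ?_ (h0 c)
          have h2 := hC (Fin m → Ω) (W ρ) (VV R a c) (flS (R c) x) η2 hW0 hW1 hη20 hη21
            (fun i => VV_marg ρ R η h0 h1 hm m a c i)
          rw [← abs_neg, ← Finset.sum_neg_distrib] at h2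
          refine le_trans (le_of_eq ?_) h2
          congr 1
          refine sum_congr rfl fun w _ => ?_
          ring
      _ = C * Real.sqrt η2 := by rw [← Finset.sum_mul, h1, one_mul]
  have hBb : |∑ a, B a| ≤ D := by
    have e1 : ∑ a, B a = ∑ w : Fin m → Ω, W ρ w *
        ∑ a, (f (flS (R (w a) \ UU R w) (flS (UU R w) x)) - f (flS (UU R w) x)) := by
      simp only [hB]
      rw [Finset.sum_comm]
      refine sum_congr rfl fun w _ => ?_
      rw [Finset.mul_sum]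
      refine sum_congr rfl fun a _ => ?_
      rw [Finset.union_comm, flS_union]
    rw [e1]
    refine (Finset.abs_sum_le_sum_abs _ _).trans ?_
    calc _ ≤ ∑ w : Fin m → Ω, W ρ w * D := by
          refine Finset.sum_le_sum fun w _ => ?_
          rw [abs_mul, abs_of_nonneg (hW0 w)]
          refine mul_le_mul_of_nonneg_left ?_ (hW0 w)
          refine hD m (fun a => R (w a) \ UU R w) (fun a b hab => ?_) (flS (UU R w) x)
          rw [Finset.disjoint_left]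
          intro i hi hi'
          rw [mem_sdiff] at hi hi'
          exact hi.2 ((mem_UU R w i).2 ⟨a, b, hab, hi.1, hi'.1⟩)
      _ = D := by rw [← Finset.sum_mul, hW1, one_mul]
  have hm0 : (0 : ℝ) < m := by exact_mod_cast hm1
  have hsum : (m : ℝ) * L = ∑ a, A a + ∑ a, B a + m * T := by
    have : ∑ _a : Fin m, L = ∑ a : Fin m, (A a + B a + T) := sum_congr rfl fun a _ => hsplit a
    rw [Finset.sum_add_distrib, Finset.sum_add_distrib, Finset.sum_const, Finset.sum_const,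
      Finset.card_univ, Fintype.card_fin, nsmul_eq_mul, nsmul_eq_mul] at this
    exact this
  have hAs : |∑ a, A a| ≤ m * (C * Real.sqrt η2) := by
    refine (Finset.abs_sum_le_sum_abs _ _).trans ?_
    calc ∑ a, |A a| ≤ ∑ _a : Fin m, C * Real.sqrt η2 := Finset.sum_le_sum fun a _ => hAb a
      _ = _ := by rw [Finset.sum_const, Finset.card_univ, Fintype.card_fin, nsmul_eq_mul]
  have hfin : (m : ℝ) * |L| ≤ m * (2 * (C * Real.sqrt η2) + D / m) := by
    have e2 : (m : ℝ) * |L| = |∑ a, A a + ∑ a, B a + m * T| := by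
      rw [← hsum, abs_mul, abs_of_pos hm0]
    have e3 : |∑ a, A a + ∑ a, B a + m * T| ≤ |∑ a, A a| + |∑ a, B a| + m * |T| := by
      refine (abs_add_le _ _).trans ?_
      rw [abs_mul, abs_of_pos hm0]
      have := abs_add_le (∑ a, A a) (∑ a, B a)
      linarith
    have e4 : (m : ℝ) * (D / m) = D := by field_simp
    have e5 : (m : ℝ) * |T| ≤ m * (C * Real.sqrt η2) := mul_le_mul_of_nonneg_left hTb hm0.le
    rw [e2, mul_add, e4]
    linarith
  exact le_of_mul_le_mul_left hfin hm0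

end Pool.Agent.H572R4.QA
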