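import Pool.Agent.H572R4.QA.Defs

set_option autoImplicit false

namespace Pool.Agent.H572R4.QA

open Finset Pool.Agent.H572R2

variable {N : ℕ}

theorem rb_main_aux (f : (Fin N → Bool) → ℝ) (f0 : ∀ x, 0 ≤ f x) (f1 : ∀ x, f x ≤ 1)
    (Ω : Type) [Fintype Ω] (ρ : Ω → ℝ)
    (R : Ω → Finset (Fin N)) (x : Fin N → Bool) (η : ℝ) (h0 : ∀ ω, 0 ≤ ρ ω)
    (hm : ∀ i, ∑ ω, (if i ∈ R ω then ρ ω else 0) ≤ η) :
    |∑ ω, ρ ω * (f (flS (R ω) x) - f x)| ≤ N * η := by
  calc |∑ ω, ρ ω * (f (flS (R ω) x) - f x)|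
      ≤ ∑ ω, |ρ ω * (f (flS (R ω) x) - f x)| := Finset.abs_sum_le_sum_abs _ _
    _ ≤ ∑ ω, ∑ i, (if i ∈ R ω then ρ ω else 0) := by
        refine Finset.sum_le_sum fun ω _ => ?_
        rw [abs_mul, abs_of_nonneg (h0 ω)]
        by_cases hR : R ω = ∅
        · have : flS (R ω) x = x := by
            funext i; simp [flS, hR]
          rw [this]; simp [hR]
        · have h1 : |f (flS (R ω) x) - f x| ≤ 1 := by
            rw [abs_le]
            constructor <;> linarith [f0 (flS (R ω) x), f1 (flS (R ω) x), f0 x, f1 x]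
          rw [← Finset.sum_filter]
          have h2 : (Finset.univ.filter (fun i => i ∈ R ω)) = R ω := by
            ext i; simp
          rw [h2, Finset.sum_const, nsmul_eq_mul]
          have h3 : (1 : ℝ) ≤ (R ω).card := by
            exact_mod_cast Finset.card_pos.mpr (Finset.nonempty_iff_ne_empty.mpr hR)
          calc ρ ω * |f (flS (R ω) x) - f x| ≤ ρ ω * 1 :=
                mul_le_mul_of_nonneg_left h1 (h0 ω)
            _ ≤ (R ω).card * ρ ω := by nlinarith [h0 ω]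
    _ = ∑ i, ∑ ω, (if i ∈ R ω then ρ ω else 0) := Finset.sum_comm
    _ ≤ ∑ _i : Fin N, η := Finset.sum_le_sum fun i _ => hm i
    _ = N * η := by simp

theorem rb_main_one (f : (Fin N → Bool) → ℝ) (f0 : ∀ x, 0 ≤ f x) (f1 : ∀ x, f x ≤ 1)
    (Ω : Type) [Fintype Ω] (ρ : Ω → ℝ)
    (R : Ω → Finset (Fin N)) (x : Fin N → Bool) (h0 : ∀ ω, 0 ≤ ρ ω) (hs : ∑ ω, ρ ω = 1) :
    |∑ ω, ρ ω * (f (flS (R ω) x) - f x)| ≤ 1 := by
  calc |∑ ω, ρ ω * (f (flS (R ω) x) - f x)|
      ≤ ∑ ω, |ρ ω * (f (flS (R ω) x) - f x)| := Finset.abs_sum_le_sum_abs _ _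
    _ ≤ ∑ ω, ρ ω := by
        refine Finset.sum_le_sum fun ω _ => ?_
        rw [abs_mul, abs_of_nonneg (h0 ω)]
        have h1 : |f (flS (R ω) x) - f x| ≤ 1 := by
          rw [abs_le]
          constructor <;> linarith [f0 (flS (R ω) x), f1 (flS (R ω) x), f0 x, f1 x]
        calc ρ ω * |f (flS (R ω) x) - f x| ≤ ρ ω * 1 :=
              mul_le_mul_of_nonneg_left h1 (h0 ω)
          _ = ρ ω := mul_one _
    _ = 1 := hs

theorem rb_main (f : (Fin N → Bool) → ℝ) (f0 : ∀ x, 0 ≤ f x) (f1 : ∀ x, f x ≤ 1) (D : ℝ)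
    (hD1 : 1 ≤ D) (hD : Bk f D)
    (hstep : ∀ C : ℝ, 0 ≤ C → Rb f C → ∀ (Ω : Type) [Fintype Ω] (ρ : Ω → ℝ)
      (R : Ω → Finset (Fin N)) (x : Fin N → Bool) (η : ℝ), (∀ ω, 0 ≤ ρ ω) → ∑ ω, ρ ω = 1 →
      0 ≤ η → (∀ i, ∑ ω, (if i ∈ R ω then ρ ω else 0) ≤ η) → ∀ m : ℕ, 1 ≤ m →
      (m : ℝ) ^ 2 * η ^ 2 ≤ 1 →
      |∑ ω, ρ ω * (f (flS (R ω) x) - f x)|
        ≤ 2 * (C * Real.sqrt ((m : ℝ) ^ 2 * η ^ 2 / 2)) + D / m) :
    Rb f (16 * D) := by
  have key : ∀ n : ℕ, Rb f (16 * D + N / 2 ^ n) := by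
    intro n
    induction n with
    | zero =>
      intro Ω _ ρ R x η h0 hs hη hη1 hm
      refine (rb_main_aux f f0 f1 Ω ρ R x η h0 hm).trans ?_
      have h1 : η ≤ Real.sqrt η := by
        have := Real.sqrt_nonneg η
        have h2 := Real.sq_sqrt hη
        have h3 : Real.sqrt η ≤ 1 := by
          rw [Real.sqrt_le_left (by norm_num)]; simpa using hη1
        nlinarith
      have h2 : (0 : ℝ) ≤ N := Nat.cast_nonneg N
      have h3 : 0 ≤ Real.sqrt η := Real.sqrt_nonneg η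
      have h4 : (N : ℝ) * η ≤ N * Real.sqrt η := mul_le_mul_of_nonneg_left h1 h2
      have h5 : 0 ≤ D * Real.sqrt η := mul_nonneg (by linarith) h3
      calc (N : ℝ) * η ≤ N * Real.sqrt η := h4
        _ ≤ (16 * D + N / 2 ^ 0) * Real.sqrt η := by
            rw [pow_zero, div_one]; nlinarith
    | succ n ih =>
      intro Ω _ ρ R x η h0 hs hη hη1 hm
      have hN : (0 : ℝ) ≤ N / 2 ^ n := by positivity
      set s := Real.sqrt η with hsdef
      have hs0 : 0 ≤ s := Real.sqrt_nonneg η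
      have hsq : s ^ 2 = η := Real.sq_sqrt hη
      have hN2 : (N : ℝ) / 2 ^ (n + 1) = (N / 2 ^ n) / 2 := by
        rw [pow_succ]; field_simp
      rw [hN2]
      set a := (N : ℝ) / 2 ^ n with ha
      rcases eq_or_lt_of_le hs0 with h | hspos
      · have hη0 : η = 0 := by rw [← hsq, ← h]; norm_num
        have := rb_main_aux f f0 f1 Ω ρ R x η h0 hm
        rw [hη0, mul_zero] at this
        rw [← h, mul_zero]
        exact this
      · by_cases hsm : 6 * s ≤ 1
        · -- the choice of m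
          set y := 1 / (6 * s) with hy
          have hy1 : 1 ≤ y := by
            rw [hy, le_div_iff₀ (by positivity)]; linarith
          set m := ⌊y⌋₊ with hmdef
          have hm1 : 1 ≤ m := by
            rw [hmdef, Nat.one_le_floor_iff]; exact hy1
          have hmy : (m : ℝ) ≤ y := Nat.floor_le (by linarith)
          have hmy2 : y < m + 1 := Nat.lt_floor_add_one y
          have hm1' : (1 : ℝ) ≤ m := by exact_mod_cast hm1
          have hym : y ≤ 2 * m := by linarith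
          have hys : y * s = 1 / 6 := by
            rw [hy]; field_simp
          have hms : (m : ℝ) * s ≤ 1 / 6 := by
            rw [← hys]; exact mul_le_mul_of_nonneg_right hmy hs0
          have hmη : (m : ℝ) * η ≤ s / 6 := by
            rw [← hsq]; nlinarith
          have hmη0 : 0 ≤ (m : ℝ) * η := by positivity
          have hmη1 : (m : ℝ) ^ 2 * η ^ 2 ≤ 1 := by
            have h1 : (m : ℝ) * η ≤ 1 := by linarith
            nlinarith
          have hC0 : 0 ≤ 16 * D + a := by linarith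
          have := hstep (16 * D + a) hC0 ih Ω ρ R x η h0 hs hη hm m hm1 hmη1
          have hsqrt : Real.sqrt ((m : ℝ) ^ 2 * η ^ 2 / 2) ≤ 3 / 4 * (m * η) := by
            apply Real.sqrt_le_iff.mpr
            constructor
            · positivity
            · nlinarith [sq_nonneg ((m : ℝ) * η)]
          have h1 : 2 * ((16 * D + a) * Real.sqrt ((m : ℝ) ^ 2 * η ^ 2 / 2))
              ≤ (16 * D + a) * s / 4 := by
            have h2 : Real.sqrt ((m : ℝ) ^ 2 * η ^ 2 / 2) ≤ s / 8 := by linarith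
            have h3 := mul_le_mul_of_nonneg_left h2 hC0
            linarith
          have h2 : D / m ≤ 12 * D * s := by
            rw [div_le_iff₀ (by linarith)]
            have h3 : (1 : ℝ) ≤ 12 * s * m := by nlinarith
            nlinarith
          calc |∑ ω, ρ ω * (f (flS (R ω) x) - f x)|
              ≤ 2 * ((16 * D + a) * Real.sqrt ((m : ℝ) ^ 2 * η ^ 2 / 2)) + D / m := this
            _ ≤ (16 * D + a) * s / 4 + 12 * D * s := add_le_add h1 h2
            _ ≤ (16 * D + a / 2) * s := by nlinarith [mul_nonneg hN hs0]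
        · push Not at hsm
          refine (rb_main_one f f0 f1 Ω ρ R x h0 hs).trans ?_
          have h1 : 0 ≤ a * s := mul_nonneg hN hs0
          nlinarith
  intro Ω _ ρ R x η h0 hs hη hη1 hm
  have h1 : ∀ n : ℕ, |∑ ω, ρ ω * (f (flS (R ω) x) - f x)| ≤ (16 * D + N / 2 ^ n) * Real.sqrt η :=
    fun n => key n Ω ρ R x η h0 hs hη hη1 hm
  have h2 : Filter.Tendsto (fun n : ℕ => (16 * D + N / (2 : ℝ) ^ n) * Real.sqrt η) Filter.atTop
      (nhds ((16 * D + 0) * Real.sqrt η)) := by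
    apply Filter.Tendsto.mul_const
    apply Filter.Tendsto.const_add
    have h3 : Filter.Tendsto (fun n : ℕ => ((1 : ℝ) / 2) ^ n) Filter.atTop (nhds 0) :=
      tendsto_pow_atTop_nhds_zero_of_lt_one (by norm_num) (by norm_num)
    have h4 := h3.const_mul (N : ℝ)
    rw [mul_zero] at h4
    refine h4.congr fun n => ?_
    rw [one_div, inv_pow]; rfl
  rw [add_zero] at h2
  exact ge_of_tendsto' h2 h1

end Pool.Agent.H572R4.QA
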