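import Pool.Agent.H572R4.QA.Defs
import Mathlib.Topology.Sion

set_option autoImplicit false

namespace Pool.Agent.H572R4.QA

open Finset Pool.Agent.H572R2

variable {N : ℕ}

theorem cert_one (f : (Fin N → Bool) → ℝ) (C : ℝ) (hC : 0 ≤ C) (h : Rb f C) (x : Fin N → Bool)
    (ε : ℝ) (hε : 0 < ε) :
    ∃ w : Fin N → ℝ, (∀ i, 0 ≤ w i) ∧ ∑ i, w i ≤ C ^ 2 / (4 * ε) ∧
      ∀ S : Finset (Fin N), f (flS S x) - f x ≤ ε + ∑ i ∈ S, w i := by
  classical
  set k : ℝ := C ^ 2 / (4 * ε) with hk
  have hk0 : 0 ≤ k := by positivity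
  set X : Set (Fin N → ℝ) := {w | (∀ i, 0 ≤ w i) ∧ ∑ i, w i ≤ k} with hX
  set Y : Set (Finset (Fin N) → ℝ) := stdSimplex ℝ (Finset (Fin N)) with hY
  let F : (Fin N → ℝ) → (Finset (Fin N) → ℝ) → ℝ :=
    fun w l => ∑ S, l S * ((f (flS S x) - f x) - ε - ∑ i ∈ S, w i)
  have neX : X.Nonempty := ⟨0, by simp [hX, hk0]⟩
  have cX : Convex ℝ X := by
    intro u hu v hv a b ha hb hab
    refine ⟨fun i => ?_, ?_⟩
    · have h1 := hu.1 i
      have h2 := hv.1 i
      simp only [Pi.add_apply, Pi.smul_apply, smul_eq_mul]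
      positivity
    · simp only [Pi.add_apply, Pi.smul_apply, smul_eq_mul, Finset.sum_add_distrib,
        ← Finset.mul_sum]
      have h1 := hu.2
      have h2 := hv.2
      calc a * ∑ i, u i + b * ∑ i, v i ≤ a * k + b * k := by gcongr
        _ = k := by rw [← add_mul, hab, one_mul]
  have closedX : IsClosed X := by
    have : X = (⋂ i, {w : Fin N → ℝ | 0 ≤ w i}) ∩ {w | ∑ i, w i ≤ k} := by
      ext w; simp [hX]
    rw [this]
    refine IsClosed.inter (isClosed_iInter fun i => ?_) ?_
    · exact isClosed_le continuous_const (continuous_apply i)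
    · exact isClosed_le (by fun_prop) continuous_const
  have kX : IsCompact X := by
    refine IsCompact.of_isClosed_subset (isCompact_Icc (a := (0 : Fin N → ℝ)) (b := fun _ => k))
      closedX ?_
    intro w hw
    refine ⟨fun i => hw.1 i, fun i => ?_⟩
    exact (Finset.single_le_sum (f := w) (fun j _ => hw.1 j) (Finset.mem_univ i)).trans hw.2
  have cY : Convex ℝ Y := convex_stdSimplex ℝ _
  have kY : IsCompact Y := isCompact_stdSimplex ℝ _
  have neY : Y.Nonempty := ⟨_, single_mem_stdSimplex ℝ (∅ : Finset (Fin N))⟩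
  have linw : ∀ l : Finset (Fin N) → ℝ, ∀ u v : Fin N → ℝ, ∀ a b : ℝ, a + b = 1 →
      F (a • u + b • v) l = a * F u l + b * F v l := by
    intro l u v a b hab
    simp only [F, Pi.add_apply, Pi.smul_apply, smul_eq_mul, Finset.sum_add_distrib,
      ← Finset.mul_sum]
    rw [Finset.mul_sum, Finset.mul_sum, ← Finset.sum_add_distrib]
    refine Finset.sum_congr rfl fun S _ => ?_
    have hb : b = 1 - a := by linarith
    subst hb
    ring
  have linl : ∀ w : Fin N → ℝ, ∀ u v : Finset (Fin N) → ℝ, ∀ a b : ℝ,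
      F w (a • u + b • v) = a * F w u + b * F w v := by
    intro w u v a b
    simp only [F, Pi.add_apply, Pi.smul_apply, smul_eq_mul]
    rw [Finset.mul_sum, Finset.mul_sum, ← Finset.sum_add_distrib]
    refine Finset.sum_congr rfl fun S _ => ?_
    ring
  obtain ⟨a, ha, b, hb, hab⟩ := Sion.exists_isSaddlePointOn (X := X) (Y := Y) (f := F)
    neX cX kX
    (fun y _ => by
      have : Continuous fun w : Fin N → ℝ => F w y := by
        simp only [F]; fun_prop
      exact this.lowerSemicontinuous.lowerSemicontinuousOn _)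
    (fun y _ => by
      refine ConvexOn.quasiconvexOn ⟨cX, ?_⟩
      intro u _ v _ s t _ _ hst
      exact le_of_eq (linw y u v s t hst))
    cY neY kY
    (fun w _ => by
      have : Continuous fun y : Finset (Fin N) → ℝ => F w y := by
        simp only [F]; fun_prop
      exact this.upperSemicontinuous.upperSemicontinuousOn _)
    (fun w _ => by
      refine ConcaveOn.quasiconcaveOn ⟨cY, ?_⟩
      intro u _ v _ s t _ _ hst
      exact le_of_eq (linl w u v s t).symm)
  -- the value is nonpositive
  obtain ⟨w, hw, hwb⟩ : ∃ w ∈ X, F w b ≤ 0 := by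
    have hb0 : ∀ S, 0 ≤ b S := hb.1
    have hb1 : ∑ S, b S = 1 := hb.2
    set mg : Fin N → ℝ := fun i => ∑ S, (if i ∈ S then b S else 0) with hmg
    have hmg0 : ∀ i, 0 ≤ mg i := fun i => Finset.sum_nonneg fun S _ => by
      split_ifs
      · exact hb0 S
      · exact le_rfl
    have hmg1 : ∀ i, mg i ≤ 1 := fun i => by
      rw [← hb1]
      refine Finset.sum_le_sum fun S _ => ?_
      split_ifs
      · exact le_rfl
      · exact hb0 S
    have key : ∀ η : ℝ, 0 ≤ η → η ≤ 1 → (∀ i, mg i ≤ η) →
        ∑ S, b S * (f (flS S x) - f x) ≤ ε + k * η := by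
      intro η h0 h1 hm
      have h2 := h (Finset (Fin N)) b id x η hb0 hb1 h0 h1 (fun i => hm i)
      have h3 := (le_abs_self _).trans h2
      refine h3.trans ?_
      have hs : Real.sqrt η ^ 2 = η := Real.sq_sqrt h0
      have h4 : 0 ≤ (2 * ε - C * Real.sqrt η) ^ 2 := sq_nonneg _
      have h5 : C ^ 2 * η = (C * Real.sqrt η) ^ 2 := by rw [mul_pow, hs]
      have h6 : k * η = (C * Real.sqrt η) ^ 2 / (4 * ε) := by
        rw [← h5, hk]; ring
      rw [h6]
      have : ε + (C * Real.sqrt η) ^ 2 / (4 * ε) - C * Real.sqrt η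
          = (2 * ε - C * Real.sqrt η) ^ 2 / (4 * ε) := by
        field_simp
        ring
      have h7 : 0 ≤ (2 * ε - C * Real.sqrt η) ^ 2 / (4 * ε) := by positivity
      linarith
    have hexp : ∀ w : Fin N → ℝ, F w b
        = ∑ S, b S * (f (flS S x) - f x) - ε - ∑ i, w i * mg i := by
      intro w
      have e1 : ∑ i, w i * mg i = ∑ S, b S * ∑ i ∈ S, w i := by
        simp only [hmg, Finset.mul_sum]
        rw [Finset.sum_comm]
        refine Finset.sum_congr rfl fun S _ => ?_
        rw [← Finset.sum_filter_add_sum_filter_not Finset.univ (fun i => i ∈ S)]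
        have z : ∑ i ∈ Finset.univ.filter (fun i => ¬ i ∈ S), w i * (if i ∈ S then b S else 0)
            = 0 := Finset.sum_eq_zero fun i hi => by
          rw [Finset.mem_filter] at hi
          simp [hi.2]
        rw [z, add_zero]
        have e : Finset.univ.filter (fun i => i ∈ S) = S := by ext; simp
        rw [e]
        refine Finset.sum_congr rfl fun i hi => ?_
        simp [hi, mul_comm]
      rw [e1]
      simp only [F]
      have e2 : (ε : ℝ) = ∑ S, b S * ε := by rw [← Finset.sum_mul, hb1, one_mul]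
      conv_rhs => rw [e2]
      rw [← Finset.sum_sub_distrib, ← Finset.sum_sub_distrib]
      refine Finset.sum_congr rfl fun S _ => ?_
      ring
    rcases isEmpty_or_nonempty (Fin N) with hN | hN
    · refine ⟨0, ⟨fun i => le_rfl, by simpa using hk0⟩, ?_⟩
      rw [hexp]
      have := key 0 le_rfl zero_le_one (fun i => (hN.false i).elim)
      simp at this ⊢
      linarith
    · obtain ⟨i, -, hi⟩ := Finset.exists_max_image (Finset.univ : Finset (Fin N)) mg
        ⟨Classical.arbitrary _, Finset.mem_univ _⟩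
      refine ⟨Pi.single i k, ⟨fun j => ?_, ?_⟩, ?_⟩
      · by_cases hj : j = i
        · subst hj; simpa using hk0
        · simp [Pi.single_apply, hj]
      · simp
      · rw [hexp]
        have := key (mg i) (hmg0 i) (hmg1 i) (fun j => hi j (Finset.mem_univ j))
        have e3 : ∑ j, (Pi.single i k : Fin N → ℝ) j * mg j = k * mg i := by
          rw [Finset.sum_eq_single i]
          · simp
          · intro j _ hj
            simp [Pi.single_apply, hj]
          · simp
        rw [e3]
        linarith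
  refine ⟨a, ha.1, ha.2, fun S => ?_⟩
  have h1 := hab w hw (Pi.single S 1) (single_mem_stdSimplex ℝ S)
  have h2 : F a (Pi.single S 1) = (f (flS S x) - f x) - ε - ∑ i ∈ S, a i := by
    simp only [F]
    rw [Finset.sum_eq_single S]
    · simp
    · intro T _ hT
      simp [Pi.single_apply, hT]
    · simp
  linarith

end Pool.Agent.H572R4.QA
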