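import Pool.Agent.H572R4.QA.Defs
import Pool.Agent.H572R4.QA.A4a

set_option autoImplicit false

namespace Pool.Agent.H572R4.QA

open Finset Pool.Agent.H572R2

variable {N : ℕ}

theorem cert_of_rb (f : (Fin N → Bool) → ℝ) (C : ℝ) (hC : 0 ≤ C) (h : Rb f C) (x : Fin N → Bool)
    (ε : ℝ) (hε : 0 < ε) :
    ∃ w : Fin N → ℝ, (∀ i, 0 ≤ w i) ∧ ∑ i, w i ≤ C ^ 2 / (2 * ε) ∧
      ∀ y, |f x - f y| ≤ ε + ∑ i, (if x i = y i then 0 else w i) := by
  obtain ⟨w1, h10, h1s, h1⟩ := cert_one f C hC h x ε hε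
  have hneg : Rb (fun z => - f z) C := by
    intro Ω _ ρ R z η h0 h1 h2 h3 h4
    have h5 := h Ω ρ R z η h0 h1 h2 h3 h4
    have e : ∑ ω, ρ ω * (-f (flS (R ω) z) - -f z)
        = - ∑ ω, ρ ω * (f (flS (R ω) z) - f z) := by
      rw [← Finset.sum_neg_distrib]
      apply Finset.sum_congr rfl
      intros
      ring
    rw [e, abs_neg]
    exact h5
  obtain ⟨w2, h20, h2s, h2⟩ := cert_one (fun z => - f z) C hC hneg x ε hε
  refine ⟨fun i => w1 i + w2 i, fun i => add_nonneg (h10 i) (h20 i), ?_, ?_⟩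
  · rw [Finset.sum_add_distrib]
    have e : C ^ 2 / (2 * ε) = C ^ 2 / (4 * ε) + C ^ 2 / (4 * ε) := by
      field_simp
      ring
    rw [e]
    exact add_le_add h1s h2s
  · intro y
    set S : Finset (Fin N) := Finset.univ.filter (fun i => x i ≠ y i) with hS
    have hy : flS S x = y := by
      funext i
      unfold flS
      by_cases hi : x i = y i
      · have : i ∉ S := by simp [hS, hi]
        rw [if_neg this, hi]
      · have : i ∈ S := by simp [hS, hi]
        rw [if_pos this]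
        cases hx : x i <;> cases hy : y i <;> simp_all
    have e : ∑ i, (if x i = y i then 0 else (w1 i + w2 i))
        = ∑ i ∈ S, w1 i + ∑ i ∈ S, w2 i := by
      rw [← Finset.sum_add_distrib, hS, Finset.sum_filter]
      apply Finset.sum_congr rfl
      intro i _
      by_cases hi : x i = y i <;> simp [hi]
    have a := h1 S
    have b := h2 S
    simp only [hy] at a b
    have n1 : 0 ≤ ∑ i ∈ S, w1 i := Finset.sum_nonneg fun i _ => h10 i
    have n2 : 0 ≤ ∑ i ∈ S, w2 i := Finset.sum_nonneg fun i _ => h20 i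
    rw [e, abs_le]
    constructor <;> linarith

end Pool.Agent.H572R4.QA
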