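import Pool.Agent.H572R4.QA.Defs
import Pool.Agent.H572R4.QA.A1
import Pool.Agent.H572R4.QA.A1b
import Pool.Agent.H572R4.QA.A2
import Pool.Agent.H572R4.QA.A3
import Pool.Agent.H572R4.QA.A4

set_option autoImplicit false

namespace Pool.Agent.H572R4.QA

open Finset Pool.Agent.H572R2

variable {N : ℕ}

theorem hyp_exists (d : ℕ) (hd1 : 1 ≤ d) (f : (Fin N → Bool) → ℝ) (f0 : ∀ x, 0 ≤ f x)
    (f1 : ∀ x, f x ≤ 1) (hd : DegLe d f) (ε : ℝ) (hε : 0 < ε) :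
    ∃ w : Fin N → (Fin N → Bool) → ℝ, Hyp f w ε (512 * d ^ 4 / ε) (4 * d ^ 2) := by
  have hd1' : (1 : ℝ) ≤ d := by exact_mod_cast hd1
  have hD1 : (1 : ℝ) ≤ 2 * (d : ℝ) ^ 2 := by nlinarith
  have hbk : Bk f (2 * (d : ℝ) ^ 2) :=
    bk_of_degLe d f (fun x => abs_le.2 ⟨by linarith [f0 x], f1 x⟩) hd
  have hrb : Rb f (16 * (2 * (d : ℝ) ^ 2)) := by
    apply rb_main f f0 f1 _ hD1 hbk
    intro C hC0 hC Ω _ ρ R x η h0 h1 hη hm m hm1 hmη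
    exact rb_step f _ C hbk hC0 hC Ω ρ R x η h0 h1 hη hm m hm1 hmη
  have hC0 : 0 ≤ 16 * (2 * (d : ℝ) ^ 2) := by positivity
  choose w hw0 hwk hwc using
    fun x => cert_of_rb f (16 * (2 * (d : ℝ) ^ 2)) hC0 hrb x ε hε
  refine ⟨fun i x => w x i, ⟨f0, f1, fun i x => hw0 x i, ?_, fun x y => hwc x y, ?_⟩⟩
  · intro x
    refine (hwk x).trans (le_of_eq ?_)
    field_simp
    norm_num
  · intro x
    refine (infl_of_bk f _ hbk x).trans (le_of_eq ?_)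
    ring

end Pool.Agent.H572R4.QA
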