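import Pool.Agent.H572R4.QA.Defs

set_option autoImplicit false

namespace Pool.Agent.H572R4.QA

open Finset Pool.Agent.H572R2

variable {N : ℕ}

theorem hybrid {f : (Fin N → Bool) → ℝ} {w : Fin N → (Fin N → Bool) → ℝ} {ε k s₀ : ℝ}
    (H : Hyp f w ε k s₀) (x y : Fin N → Bool) :
    |f x - f y| ≤ 2 * ε + ∑ i, (if x i = y i then 0 else min (w i x) (w i y)) := by
  classical
  obtain ⟨z, hz⟩ : ∃ z : Fin N → Bool, ∀ i, z i = if w i x < w i y then y i else x i :=
    ⟨fun i => if w i x < w i y then y i else x i, fun _ => rfl⟩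
  have h1 := H.cert x z
  have h2 := H.cert y z
  have h3 : |f x - f y| ≤ |f x - f z| + |f y - f z| := by
    have : f x - f y = (f x - f z) - (f y - f z) := by ring
    rw [this]
    exact abs_sub _ _
  have h4 : ∑ i, (if x i = z i then 0 else w i x) + ∑ i, (if y i = z i then 0 else w i y) ≤
      ∑ i, (if x i = y i then 0 else min (w i x) (w i y)) := by
    rw [← Finset.sum_add_distrib]
    refine Finset.sum_le_sum fun i _ => ?_
    rw [hz i]
    by_cases hxy : x i = y i
    · rw [if_pos hxy, hxy]
      split_ifs <;> simp_all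
    · rw [if_neg hxy]
      by_cases hw : w i x < w i y
      · rw [if_pos hw, if_neg hxy, if_pos rfl, add_zero, min_eq_left hw.le]
      · rw [if_neg hw, if_pos rfl, if_neg (fun h => hxy h.symm), zero_add,
          min_eq_right (not_lt.1 hw)]
  linarith

end Pool.Agent.H572R4.QA
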