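import Pool.Agent.H572R4.QA.Defs

set_option autoImplicit false

namespace Pool.Agent.H572R4.QA

open Finset Pool.Agent.H572R2

variable {N : ℕ}

theorem ker_props (b : ℝ) (hb : |b| ≤ 1) :
    (∀ s t, 0 ≤ ker b s t) ∧ (∀ s, ker b s true + ker b s false = 1) ∧
    (∀ t, ker b true t + ker b false t = 1 + b * sg t) ∧
    (∀ s t, s ≠ t → ker b s t ≤ |b|) ∧ (∀ s t, s ≠ t → ker b s t ≤ |b| * (1 + b * sg t)) := by
  have h1 : b ≤ 1 := (abs_le.1 hb).2
  have h2 : -1 ≤ b := (abs_le.1 hb).1
  rcases lt_trichotomy b 0 with h | h | h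
  · have ha : |b| = -b := abs_of_neg h
    have e1 : ¬ (0 ≤ b * 1) := by linarith
    have e2 : (0 ≤ b * (-1)) := by linarith
    refine ⟨?_, ?_, ?_, ?_, ?_⟩
    · intro s t; cases s <;> cases t <;> simp only [ker, sg, ha] <;> simp <;> split_ifs <;> linarith
    · intro s; cases s <;> simp only [ker, sg, ha] <;> simp <;> split_ifs <;> linarith
    · intro t; cases t <;> simp only [ker, sg, ha] <;> simp <;> split_ifs <;> linarith
    · intro s t hst
      cases s <;> cases t <;> simp_all only [ker, sg] <;> simp <;> first | (exfalso; exact hst rfl) | (split_ifs <;> linarith)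
    · intro s t hst
      cases s <;> cases t <;> simp only [ker, sg, ha] <;> simp <;> first | (exfalso; exact hst rfl) | (split_ifs <;> nlinarith)
  · subst h
    refine ⟨?_, ?_, ?_, ?_, ?_⟩
    · intro s t; cases s <;> cases t <;> simp [ker, sg]
    · intro s; cases s <;> simp [ker, sg]
    · intro t; cases t <;> simp [ker, sg]
    · intro s t hst; cases s <;> cases t <;> simp_all [ker, sg]
    · intro s t hst; cases s <;> cases t <;> simp_all [ker, sg]
  · have ha : |b| = b := abs_of_pos h
    refine ⟨?_, ?_, ?_, ?_, ?_⟩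
    · intro s t; cases s <;> cases t <;> simp only [ker, sg, ha] <;> simp <;> split_ifs <;> linarith
    · intro s; cases s <;> simp only [ker, sg, ha] <;> simp <;> split_ifs <;> linarith
    · intro t; cases t <;> simp only [ker, sg, ha] <;> simp <;> split_ifs <;> linarith
    · intro s t hst
      cases s <;> cases t <;> simp only [ker, sg, ha] <;> simp <;> first | (exfalso; exact hst rfl) | (split_ifs <;> linarith)
    · intro s t hst
      cases s <;> cases t <;> simp only [ker, sg, ha] <;> simp <;> first | (exfalso; exact hst rfl) | (split_ifs <;> nlinarith)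

end Pool.Agent.H572R4.QA
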