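import Pool.Agent.H572R4.QA.Defs
import Pool.Agent.H572R4.QA.B2

set_option autoImplicit false

namespace Pool.Agent.H572R4.QA

open Finset Pool.Agent.H572R2

variable {N : ℕ}

namespace B2x

theorem sum_prod (k : Fin N → Bool → ℝ) :
    ∑ y : Fin N → Bool, ∏ l, k l (y l) = ∏ l, (k l true + k l false) := by
  have h := Finset.prod_univ_sum (fun _ : Fin N => (Finset.univ : Finset Bool)) (fun l t => k l t)
  rw [Fintype.piFinset_univ] at h
  rw [← h]
  apply Finset.prod_congr rfl
  intro l _
  rw [Fintype.sum_bool]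

theorem sum_prod_mul (k : Fin N → Bool → ℝ) (j : Fin N) (r : Bool → ℝ) :
    ∑ y : Fin N → Bool, (∏ l, k l (y l)) * r (y j) =
      (∏ l ∈ Finset.univ.erase j, (k l true + k l false)) *
        (k j true * r true + k j false * r false) := by
  have h1 : ∀ y : Fin N → Bool, (∏ l, k l (y l)) * r (y j) =
      ∏ l, (k l (y l) * (if l = j then r (y l) else 1)) := by
    intro y
    rw [Finset.prod_mul_distrib]
    congr 1
    rw [Finset.prod_ite_eq' Finset.univ j]
    simp
  rw [Finset.sum_congr rfl fun y _ => h1 y,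
    sum_prod (fun l t => k l t * (if l = j then r t else 1))]
  rw [← Finset.mul_prod_erase Finset.univ _ (Finset.mem_univ j), mul_comm]
  congr 1
  · apply Finset.prod_congr rfl
    intro l hl
    have : l ≠ j := Finset.ne_of_mem_erase hl
    simp [this]
  · simp

end B2x

theorem coup_x (b : Fin N → ℝ) (hb : ∀ j, |b j| ≤ 1) (g : (Fin N → Bool) → ℝ) :
    ∑ x : Fin N → Bool, ∑ y : Fin N → Bool, (∏ l, ker (b l) (x l) (y l)) * g x
      = ∑ x, g x := by
  apply Finset.sum_congr rfl
  intro x _
  rw [← Finset.sum_mul, B2x.sum_prod (fun l t => ker (b l) (x l) t)]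
  rw [Finset.prod_congr rfl fun l _ => (ker_props (b l) (hb l)).2.1 (x l)]
  simp

theorem coup_y (b : Fin N → ℝ) (hb : ∀ j, |b j| ≤ 1) (g : (Fin N → Bool) → ℝ) :
    ∑ x : Fin N → Bool, ∑ y : Fin N → Bool, (∏ l, ker (b l) (x l) (y l)) * g y
      = ∑ y, g y * ∏ l, (1 + b l * sg (y l)) := by
  rw [Finset.sum_comm]
  apply Finset.sum_congr rfl
  intro y _
  rw [← Finset.sum_mul, B2x.sum_prod (fun l t => ker (b l) t (y l))]
  rw [Finset.prod_congr rfl fun l _ => (ker_props (b l) (hb l)).2.2.1 (y l), mul_comm]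

theorem coup_x_ne (b : Fin N → ℝ) (hb : ∀ j, |b j| ≤ 1) (g : (Fin N → Bool) → ℝ)
    (hg : ∀ x, 0 ≤ g x) (j : Fin N) :
    ∑ x : Fin N → Bool, ∑ y : Fin N → Bool,
        (∏ l, ker (b l) (x l) (y l)) * (if x j = y j then 0 else g x)
      ≤ |b j| * ∑ x, g x := by
  rw [Finset.mul_sum]
  apply Finset.sum_le_sum
  intro x _
  rw [B2x.sum_prod_mul (fun l t => ker (b l) (x l) t) j (fun t => if x j = t then 0 else g x)]
  rw [Finset.prod_congr rfl fun l _ => (ker_props (b l) (hb l)).2.1 (x l)]
  rw [Finset.prod_const_one, one_mul]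
  have h4 := (ker_props (b j) (hb j)).2.2.2.1
  cases hx : x j
  · have := mul_le_mul_of_nonneg_right (h4 false true (by simp)) (hg x)
    simpa using this
  · have := mul_le_mul_of_nonneg_right (h4 true false (by simp)) (hg x)
    simpa using this

theorem coup_y_ne (b : Fin N → ℝ) (hb : ∀ j, |b j| ≤ 1) (g : (Fin N → Bool) → ℝ)
    (hg : ∀ x, 0 ≤ g x) (j : Fin N) :
    ∑ x : Fin N → Bool, ∑ y : Fin N → Bool,
        (∏ l, ker (b l) (x l) (y l)) * (if x j = y j then 0 else g y)
      ≤ |b j| * ∑ y, g y * ∏ l, (1 + b l * sg (y l)) := by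
  rw [Finset.mul_sum, Finset.sum_comm]
  apply Finset.sum_le_sum
  intro y _
  rw [B2x.sum_prod_mul (fun l t => ker (b l) t (y l)) j (fun t => if t = y j then 0 else g y)]
  rw [Finset.prod_congr rfl fun l _ => (ker_props (b l) (hb l)).2.2.1 (y l)]
  rw [← Finset.mul_prod_erase Finset.univ (fun l => 1 + b l * sg (y l)) (Finset.mem_univ j)]
  have h5 := (ker_props (b j) (hb j)).2.2.2.2
  have hP : 0 ≤ ∏ l ∈ Finset.univ.erase j, (1 + b l * sg (y l)) := by
    apply Finset.prod_nonneg
    intro l _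
    have hl := abs_le.1 (hb l)
    unfold sg
    split_ifs <;> nlinarith [hl.1, hl.2]
  have key : ker (b j) true (y j) * (if true = y j then 0 else g y) +
      ker (b j) false (y j) * (if false = y j then 0 else g y) ≤
      |b j| * (1 + b j * sg (y j)) * g y := by
    cases hy : y j
    · have := mul_le_mul_of_nonneg_right (h5 true false (by simp)) (hg y)
      simpa using this
    · have := mul_le_mul_of_nonneg_right (h5 false true (by simp)) (hg y)
      simpa using this
  calc _ ≤ (∏ l ∈ Finset.univ.erase j, (1 + b l * sg (y l))) *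
        (|b j| * (1 + b j * sg (y j)) * g y) := mul_le_mul_of_nonneg_left key hP
    _ = _ := by ring

end Pool.Agent.H572R4.QA
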