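import Pool.Agent.H572R4.QA.Defs
import Pool.Agent.H572R4.QA.B1
import Pool.Agent.H572R4.QA.B2
import Pool.Agent.H572R4.QA.B2x

set_option autoImplicit false

namespace Pool.Agent.H572R4.QA

open Finset Pool.Agent.H572R2

variable {N : ℕ}

theorem B3_weight_nonneg (b : ℝ) (hb : |b| ≤ 1) (s : Bool) : 0 ≤ 1 + b * sg s := by
  rw [abs_le] at hb
  cases s
  · have : sg false = -1 := by simp [sg]
    rw [this]; linarith [hb.2]
  · have : sg true = 1 := by simp [sg]
    rw [this]; linarith [hb.1]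

theorem B3_dd_flp (f : (Fin N → Bool) → ℝ) (i : Fin N) (x : Fin N → Bool) :
    dd f i (flp i x) = dd f i x := by
  unfold dd
  rw [flp_flp, abs_sub_comm]

theorem B3_JJ_flp (f : (Fin N → Bool) → ℝ) (θ : ℝ) (i : Fin N) (x : Fin N → Bool) :
    JJ f θ i (flp i x) = JJ f θ i x := by
  unfold JJ
  rw [B3_dd_flp]

theorem B3_prod_flp (b : Fin N → ℝ) (i : Fin N) (hbi : b i = 0) (y : Fin N → Bool) :
    ∏ l, (1 + b l * sg (flp i y l)) = ∏ l, (1 + b l * sg (y l)) := by
  refine Finset.prod_congr rfl fun l _ => ?_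
  by_cases h : l = i
  · subst h
    rw [hbi, zero_mul, zero_mul]
  · rw [flp_ne h]

theorem B3_min {u v c : ℝ} (hu : 0 ≤ u) (hv : 0 ≤ v) (hc : 0 < c) :
    min u v ≤ c / 2 * u + 1 / (2 * c) * v := by
  have ht0 : 0 ≤ min u v := le_min hu hv
  have h1 : c / 2 * min u v ≤ c / 2 * u := mul_le_mul_of_nonneg_left (min_le_left _ _) (by positivity)
  have h2 : 1 / (2 * c) * min u v ≤ 1 / (2 * c) * v :=
    mul_le_mul_of_nonneg_left (min_le_right _ _) (by positivity)
  have h3 : 1 ≤ c / 2 + 1 / (2 * c) := by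
    have : c / 2 + 1 / (2 * c) - 1 = (c - 1) ^ 2 / (2 * c) := by
      field_simp
      ring
    have h4 : 0 ≤ (c - 1) ^ 2 / (2 * c) := by positivity
    linarith
  have h5 := mul_le_mul_of_nonneg_right h3 ht0
  linarith

theorem B3_step {f : (Fin N → Bool) → ℝ} {w : Fin N → (Fin N → Bool) → ℝ} {ε k s₀ : ℝ}
    (H : Hyp f w ε k s₀) (i : Fin N) (b : Fin N → ℝ)
    (hb : ∀ j, |b j| ≤ 1) (hbi : b i = 0) (θ β : ℝ) (hβ : 0 < β) (j : Fin N) :
    ∑ x : Fin N → Bool, ∑ y : Fin N → Bool, (∏ l, ker (b l) (x l) (y l)) *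
        (if x j = y j then 0 else JJ f θ i y *
          (min (w j x) (w j y) + min (w j (flp i x)) (w j (flp i y))))
      ≤ β * b j ^ 2 * ∑ x, w j x
        + 1 / β * ∑ y, (JJ f θ i y * w j y) * ∏ l, (1 + b l * sg (y l)) := by
  have hP : ∀ x y : Fin N → Bool, 0 ≤ ∏ l, ker (b l) (x l) (y l) := fun x y =>
    Finset.prod_nonneg fun l _ => (ker_props (b l) (hb l)).1 _ _
  have hJ0 : ∀ y, 0 ≤ JJ f θ i y := by
    intro y; unfold JJ; split_ifs <;> norm_num
  have hJ1 : ∀ y, JJ f θ i y ≤ 1 := by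
    intro y; unfold JJ; split_ifs <;> norm_num
  have hprod : ∀ y : Fin N → Bool, 0 ≤ ∏ l, (1 + b l * sg (y l)) := fun y =>
    Finset.prod_nonneg fun l _ => B3_weight_nonneg (b l) (hb l) (y l)
  by_cases hbj : b j = 0
  · have h1 : ∀ x y : Fin N → Bool, (∏ l, ker (b l) (x l) (y l)) *
        (if x j = y j then 0 else JJ f θ i y *
          (min (w j x) (w j y) + min (w j (flp i x)) (w j (flp i y)))) = 0 := by
      intro x y
      split_ifs with h
      · rw [mul_zero]
      · have h2 : ker (b j) (x j) (y j) = 0 := by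
          have h3 := (ker_props (b j) (hb j)).2.2.2.1 (x j) (y j) h
          have h4 := (ker_props (b j) (hb j)).1 (x j) (y j)
          rw [hbj, abs_zero] at h3
          rw [hbj] at h4 ⊢
          exact le_antisymm h3 h4
        rw [Finset.prod_eq_zero (Finset.mem_univ j) h2, zero_mul]
    rw [Finset.sum_eq_zero fun x _ => Finset.sum_eq_zero fun y _ => h1 x y]
    have h5 : 0 ≤ ∑ x, w j x := Finset.sum_nonneg fun x _ => H.w0 j x
    have h6 : 0 ≤ ∑ y, (JJ f θ i y * w j y) * ∏ l, (1 + b l * sg (y l)) :=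
      Finset.sum_nonneg fun y _ => mul_nonneg (mul_nonneg (hJ0 y) (H.w0 j y)) (hprod y)
    positivity
  · have hc0 : 0 < |b j| := abs_pos.2 hbj
    set c : ℝ := |b j| * β with hc
    have hcpos : 0 < c := by positivity
    set g1 : (Fin N → Bool) → ℝ := fun x => w j x + w j (flp i x) with hg1
    set g2 : (Fin N → Bool) → ℝ := fun y => JJ f θ i y * w j y + JJ f θ i y * w j (flp i y)
      with hg2
    have hg10 : ∀ x, 0 ≤ g1 x := fun x => add_nonneg (H.w0 _ _) (H.w0 _ _)
    have hg20 : ∀ x, 0 ≤ g2 x := fun x =>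
      add_nonneg (mul_nonneg (hJ0 _) (H.w0 _ _)) (mul_nonneg (hJ0 _) (H.w0 _ _))
    have h1 : ∀ x y : Fin N → Bool, (∏ l, ker (b l) (x l) (y l)) *
        (if x j = y j then 0 else JJ f θ i y *
          (min (w j x) (w j y) + min (w j (flp i x)) (w j (flp i y))))
        ≤ c / 2 * ((∏ l, ker (b l) (x l) (y l)) * (if x j = y j then 0 else g1 x))
          + 1 / (2 * c) * ((∏ l, ker (b l) (x l) (y l)) * (if x j = y j then 0 else g2 y)) := by
      intro x y
      split_ifs with h
      · simp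
      · have h2 := B3_min (H.w0 j x) (H.w0 j y) hcpos
        have h3 := B3_min (H.w0 j (flp i x)) (H.w0 j (flp i y)) hcpos
        have h4 : JJ f θ i y * (min (w j x) (w j y) + min (w j (flp i x)) (w j (flp i y)))
            ≤ c / 2 * g1 x + 1 / (2 * c) * g2 y := by
          have h5 : JJ f θ i y * (min (w j x) (w j y) + min (w j (flp i x)) (w j (flp i y)))
              ≤ JJ f θ i y * ((c / 2 * w j x + 1 / (2 * c) * w j y)
                + (c / 2 * w j (flp i x) + 1 / (2 * c) * w j (flp i y))) :=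
            mul_le_mul_of_nonneg_left (add_le_add h2 h3) (hJ0 y)
          have h6 : JJ f θ i y * (c / 2 * (w j x + w j (flp i x)))
              ≤ 1 * (c / 2 * (w j x + w j (flp i x))) :=
            mul_le_mul_of_nonneg_right (hJ1 y) (mul_nonneg (by positivity) (hg10 x))
          simp only [hg1, hg2]
          calc _ ≤ _ := h5
            _ = JJ f θ i y * (c / 2 * (w j x + w j (flp i x)))
                + 1 / (2 * c) * (JJ f θ i y * w j y + JJ f θ i y * w j (flp i y)) := by ring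
            _ ≤ _ := by linarith
        have h7 := mul_le_mul_of_nonneg_left h4 (hP x y)
        calc _ ≤ _ := h7
          _ = _ := by ring
    refine (Finset.sum_le_sum fun x _ => Finset.sum_le_sum fun y _ => h1 x y).trans ?_
    simp only [Finset.sum_add_distrib, ← Finset.mul_sum]
    have e1 := coup_x_ne b hb g1 hg10 j
    have e2 := coup_y_ne b hb g2 hg20 j
    have e3 : ∑ x, g1 x = 2 * ∑ x, w j x := by
      have h8 : ∑ x, w j (flp i x) = ∑ x, w j x := Equiv.sum_comp (flpEquiv i) (w j)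
      simp only [hg1]
      rw [Finset.sum_add_distrib, h8]
      ring
    have e4 : ∑ y, g2 y * ∏ l, (1 + b l * sg (y l))
        = 2 * ∑ y, (JJ f θ i y * w j y) * ∏ l, (1 + b l * sg (y l)) := by
      have h8 : ∑ y, (JJ f θ i y * w j (flp i y)) * ∏ l, (1 + b l * sg (y l))
          = ∑ y, (JJ f θ i y * w j y) * ∏ l, (1 + b l * sg (y l)) := by
        rw [← Equiv.sum_comp (flpEquiv i)
          (fun y => (JJ f θ i y * w j y) * ∏ l, (1 + b l * sg (y l)))]
        refine Finset.sum_congr rfl fun y _ => ?_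
        show _ = (JJ f θ i (flp i y) * w j (flp i y)) * ∏ l, (1 + b l * sg (flp i y l))
        rw [B3_JJ_flp, B3_prod_flp b i hbi]
      simp only [hg2, add_mul]
      rw [Finset.sum_add_distrib, h8]
      ring
    rw [e3] at e1
    rw [e4] at e2
    have e5 := mul_le_mul_of_nonneg_left e1 (show 0 ≤ c / 2 by positivity)
    have e6 := mul_le_mul_of_nonneg_left e2 (show 0 ≤ 1 / (2 * c) by positivity)
    refine (add_le_add e5 e6).trans (le_of_eq ?_)
    have e7 : c / 2 * (|b j| * (2 * ∑ x, w j x)) = β * b j ^ 2 * ∑ x, w j x := by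
      rw [hc, ← sq_abs (b j)]
      ring
    have e8 : ∀ Z : ℝ, 1 / (2 * c) * (|b j| * (2 * Z)) = 1 / β * Z := by
      intro Z
      rw [hc]
      field_simp
    rw [e7, e8]

theorem B3_pos {f : (Fin N → Bool) → ℝ} {w : Fin N → (Fin N → Bool) → ℝ} {ε k s₀ : ℝ}
    (H : Hyp f w ε k s₀) (hε : 0 < ε) (hk : 0 < k) (i : Fin N) (A : Finset (Fin N)) (hi : i ∉ A)
    (m : ℝ) (ha : ∀ j ∈ A, EE (w j) ≤ m) (b : Fin N → ℝ) (hb : ∀ j, |b j| ≤ 1)
    (hbA : ∀ j ∉ A, b j = 0) (θ : ℝ) :
    mu b (JJ f (θ + 8 * ε) i) ≤ 2 * pp f θ i + (∑ j, b j ^ 2) * m * k / (4 * ε ^ 2) := by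
  have hbi : b i = 0 := hbA i hi
  have hP : ∀ x y : Fin N → Bool, 0 ≤ ∏ l, ker (b l) (x l) (y l) := fun x y =>
    Finset.prod_nonneg fun l _ => (ker_props (b l) (hb l)).1 _ _
  have hJ0 : ∀ θ' y, 0 ≤ JJ f θ' i y := by
    intro θ' y; unfold JJ; split_ifs <;> norm_num
  have hJ1 : ∀ θ' y, JJ f θ' i y ≤ 1 := by
    intro θ' y; unfold JJ; split_ifs <;> norm_num
  have hprod : ∀ y : Fin N → Bool, 0 ≤ ∏ l, (1 + b l * sg (y l)) := fun y =>
    Finset.prod_nonneg fun l _ => B3_weight_nonneg (b l) (hb l) (y l)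
  set J : (Fin N → Bool) → ℝ := JJ f (θ + 8 * ε) i with hJ
  set J' : (Fin N → Bool) → ℝ := JJ f θ i with hJ'
  set F : Fin N → (Fin N → Bool) → (Fin N → Bool) → ℝ := fun j x y =>
    if x j = y j then 0 else J y * (min (w j x) (w j y) + min (w j (flp i x)) (w j (flp i y)))
    with hF
  have hF0 : ∀ j x y, 0 ≤ F j x y := by
    intro j x y
    simp only [hF]
    split_ifs
    · exact le_rfl
    · exact mul_nonneg (hJ0 _ _) (add_nonneg (le_min (H.w0 _ _) (H.w0 _ _))
        (le_min (H.w0 _ _) (H.w0 _ _)))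
  -- pointwise inequality
  have hpt : ∀ x y, 4 * ε * (J y * (1 - J' x)) ≤ ∑ j, F j x y := by
    intro x y
    by_cases hJy : J y = 0
    · rw [hJy, zero_mul, mul_zero]
      exact Finset.sum_nonneg fun j _ => hF0 j x y
    by_cases hJx : J' x = 1
    · rw [hJx, sub_self, mul_zero, mul_zero]
      exact Finset.sum_nonneg fun j _ => hF0 j x y
    have hy : θ + 8 * ε ≤ dd f i y := by
      by_contra hc
      apply hJy
      simp only [hJ, JJ, if_neg hc]
    have hx : dd f i x < θ := by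
      by_contra hc
      push Not at hc
      apply hJx
      simp only [hJ', JJ, if_pos hc]
    have hJy1 : J y = 1 := by simp only [hJ, JJ, if_pos hy]
    have hJx0 : J' x = 0 := by
      simp only [hJ', JJ]
      rw [if_neg (not_le.2 hx)]
    have h1 := hybrid H x y
    have h2 := hybrid H (flp i x) (flp i y)
    have h3 : dd f i y - dd f i x ≤ |f x - f y| + |f (flp i x) - f (flp i y)| := by
      unfold dd
      have h4 : f y - f (flp i y) = (f x - f (flp i x)) - (f x - f y)
          + (f (flp i x) - f (flp i y)) := by ring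
      have h5 : |f y - f (flp i y)| ≤ |f x - f (flp i x)| + |f x - f y|
          + |f (flp i x) - f (flp i y)| := by
        rw [h4]
        refine (abs_add_le _ _).trans ?_
        have := abs_sub (f x - f (flp i x)) (f x - f y)
        linarith
      linarith
    have h6 : ∑ j, F j x y = (∑ j, (if x j = y j then 0 else min (w j x) (w j y)))
        + ∑ j, (if flp i x j = flp i y j then 0 else min (w j (flp i x)) (w j (flp i y))) := by
      rw [← Finset.sum_add_distrib]
      refine Finset.sum_congr rfl fun j _ => ?_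
      have h7 : (flp i x j = flp i y j) ↔ (x j = y j) := by
        by_cases hji : j = i
        · subst hji
          rw [flp_same, flp_same]
          constructor
          · intro h
            have := congrArg (fun t => !t) h
            simpa using this
          · intro h; rw [h]
        · rw [flp_ne hji, flp_ne hji]
      simp only [hF, h7, hJy1, one_mul]
      split_ifs <;> simp
    rw [h6, hJy1, hJx0]
    linarith
  -- integrate against the coupling
  set B : ℝ := ∑ y, J y * ∏ l, (1 + b l * sg (y l)) with hB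
  set Q : ℝ := ∑ x, J' x with hQ
  set β : ℝ := k / (2 * ε) with hβ
  have hβ0 : 0 < β := by positivity
  have hsum : 4 * ε * (B - Q) ≤ ∑ j, (β * b j ^ 2 * ∑ x, w j x
        + 1 / β * ∑ y, (J y * w j y) * ∏ l, (1 + b l * sg (y l))) := by
    have h1 : 4 * ε * (B - Q) ≤ ∑ x : Fin N → Bool, ∑ y : Fin N → Bool,
        (∏ l, ker (b l) (x l) (y l)) * (4 * ε * (J y * (1 - J' x))) := by
      have e1 := coup_y b hb J
      have e2 := coup_x b hb J'
      have e3 : ∑ x : Fin N → Bool, ∑ y : Fin N → Bool,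
          (∏ l, ker (b l) (x l) (y l)) * (J y * J' x)
          ≤ ∑ x : Fin N → Bool, ∑ y : Fin N → Bool, (∏ l, ker (b l) (x l) (y l)) * J' x := by
        refine Finset.sum_le_sum fun x _ => Finset.sum_le_sum fun y _ => ?_
        refine mul_le_mul_of_nonneg_left ?_ (hP x y)
        have := mul_le_mul_of_nonneg_right (hJ1 (θ + 8 * ε) y) (hJ0 θ x)
        rw [one_mul] at this
        exact this
      have e4 : ∑ x : Fin N → Bool, ∑ y : Fin N → Bool,
          (∏ l, ker (b l) (x l) (y l)) * (4 * ε * (J y * (1 - J' x)))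
          = 4 * ε * ((∑ x : Fin N → Bool, ∑ y : Fin N → Bool, (∏ l, ker (b l) (x l) (y l)) * J y)
            - ∑ x : Fin N → Bool, ∑ y : Fin N → Bool,
                (∏ l, ker (b l) (x l) (y l)) * (J y * J' x)) := by
        rw [← Finset.sum_sub_distrib, Finset.mul_sum]
        refine Finset.sum_congr rfl fun x _ => ?_
        rw [← Finset.sum_sub_distrib, Finset.mul_sum]
        exact Finset.sum_congr rfl fun y _ => by ring
      rw [e4, e1]
      refine mul_le_mul_of_nonneg_left ?_ (by positivity)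
      linarith
    refine h1.trans ?_
    have h2 : ∑ x : Fin N → Bool, ∑ y : Fin N → Bool,
        (∏ l, ker (b l) (x l) (y l)) * (4 * ε * (J y * (1 - J' x)))
        ≤ ∑ x : Fin N → Bool, ∑ y : Fin N → Bool,
          ∑ j, (∏ l, ker (b l) (x l) (y l)) * F j x y := by
      refine Finset.sum_le_sum fun x _ => Finset.sum_le_sum fun y _ => ?_
      rw [← Finset.mul_sum]
      exact mul_le_mul_of_nonneg_left (hpt x y) (hP x y)
    refine h2.trans ?_
    have h3 : ∑ x : Fin N → Bool, ∑ y : Fin N → Bool,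
          ∑ j, (∏ l, ker (b l) (x l) (y l)) * F j x y
        = ∑ j, ∑ x : Fin N → Bool, ∑ y : Fin N → Bool,
          (∏ l, ker (b l) (x l) (y l)) * F j x y := by
      rw [Finset.sum_comm' (s := univ) (t := fun _ => univ) (t' := univ) (s' := fun _ => univ)
        (by simp)]
      rw [show (∑ x : Fin N → Bool, ∑ y : Fin N → Bool, ∑ j,
          (∏ l, ker (b l) (y l) (x l)) * F j y x) = ∑ x : Fin N → Bool, ∑ j,
          ∑ y : Fin N → Bool, (∏ l, ker (b l) (y l) (x l)) * F j y x from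
        Finset.sum_congr rfl fun x _ => Finset.sum_comm]
      rw [Finset.sum_comm]
      refine Finset.sum_congr rfl fun j _ => ?_
      rw [Finset.sum_comm]
    rw [h3]
    exact Finset.sum_le_sum fun j _ => B3_step H i b hb hbi (θ + 8 * ε) β hβ0 j
  have h2N : (0 : ℝ) < 2 ^ N := by positivity
  have hs1 : ∑ j, β * b j ^ 2 * ∑ x, w j x ≤ β * (∑ j, b j ^ 2) * m * 2 ^ N := by
    have h1 : ∀ j, β * b j ^ 2 * ∑ x, w j x ≤ β * b j ^ 2 * (m * 2 ^ N) := by
      intro j
      by_cases hj : j ∈ A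
      · have h2 := ha j hj
        unfold EE at h2
        rw [div_le_iff₀ h2N] at h2
        exact mul_le_mul_of_nonneg_left h2 (by positivity)
      · rw [hbA j hj]
        simp
    refine (Finset.sum_le_sum fun j _ => h1 j).trans (le_of_eq ?_)
    rw [← Finset.sum_mul, ← Finset.mul_sum]
    ring
  have hs2 : ∑ j, 1 / β * ∑ y, (J y * w j y) * ∏ l, (1 + b l * sg (y l)) ≤ 1 / β * (k * B) := by
    rw [← Finset.mul_sum]
    refine mul_le_mul_of_nonneg_left ?_ (by positivity)
    rw [Finset.sum_comm, hB, Finset.mul_sum]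
    refine Finset.sum_le_sum fun y _ => ?_
    have h1 : ∑ j, (J y * w j y) * ∏ l, (1 + b l * sg (y l))
        = (∑ j, w j y) * (J y * ∏ l, (1 + b l * sg (y l))) := by
      rw [Finset.sum_mul]
      exact Finset.sum_congr rfl fun j _ => by ring
    rw [h1]
    exact mul_le_mul_of_nonneg_right (H.wk y) (mul_nonneg (hJ0 _ _) (hprod y))
  rw [Finset.sum_add_distrib] at hsum
  have hfin : 4 * ε * (B - Q) ≤ β * (∑ j, b j ^ 2) * m * 2 ^ N + 1 / β * (k * B) :=
    hsum.trans (add_le_add hs1 hs2)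
  have hkb : 1 / β * (k * B) = 2 * ε * B := by
    rw [hβ]
    field_simp
  rw [hkb] at hfin
  have hB2 : B ≤ 2 * Q + (∑ j, b j ^ 2) * m * k / (4 * ε ^ 2) * 2 ^ N := by
    have h1 : 2 * ε * B ≤ 4 * ε * Q + β * (∑ j, b j ^ 2) * m * 2 ^ N := by linarith
    have h2 : 2 * ε * (2 * Q + (∑ j, b j ^ 2) * m * k / (4 * ε ^ 2) * 2 ^ N)
        = 4 * ε * Q + β * (∑ j, b j ^ 2) * m * 2 ^ N := by
      rw [hβ]
      field_simp
      ring
    rw [← h2] at h1
    exact le_of_mul_le_mul_left h1 (by positivity)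
  have hmu : mu b J = B / 2 ^ N := rfl
  have hpp : pp f θ i = Q / 2 ^ N := rfl
  rw [hmu, hpp, div_le_iff₀ h2N]
  have : (2 * (Q / 2 ^ N) + (∑ j, b j ^ 2) * m * k / (4 * ε ^ 2)) * 2 ^ N
      = 2 * Q + (∑ j, b j ^ 2) * m * k / (4 * ε ^ 2) * 2 ^ N := by
    field_simp
  rw [this]
  exact hB2

theorem tilt {f : (Fin N → Bool) → ℝ} {w : Fin N → (Fin N → Bool) → ℝ} {ε k s₀ : ℝ}
    (H : Hyp f w ε k s₀) (hε : 0 < ε) (i : Fin N) (A : Finset (Fin N)) (hi : i ∉ A) (m : ℝ)
    (ha : ∀ j ∈ A, EE (w j) ≤ m) (b : Fin N → ℝ) (hb : ∀ j, |b j| ≤ 1) (hbA : ∀ j ∉ A, b j = 0)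
    (θ : ℝ) :
    mu b (JJ f (θ + 8 * ε) i) ≤ 2 * pp f θ i + (∑ j, b j ^ 2) * m * k / (4 * ε ^ 2) := by
  have hk0 : 0 ≤ k := (Finset.sum_nonneg fun j _ => H.w0 j (fun _ => true)).trans (H.wk _)
  rcases hk0.eq_or_lt with hk | hk
  · set M : ℝ := (∑ j, b j ^ 2) * m / (4 * ε ^ 2) with hM
    have h1 : ∀ δ : ℝ, 0 < δ → mu b (JJ f (θ + 8 * ε) i) ≤ 2 * pp f θ i + M * δ := by
      intro δ hδ
      have H' : Hyp f w ε δ s₀ := ⟨H.f0, H.f1, H.w0, fun x => (H.wk x).trans (by linarith),
        H.cert, H.infl⟩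
      have := B3_pos H' hε hδ i A hi m ha b hb hbA θ
      rw [hM]
      calc _ ≤ _ := this
        _ = _ := by ring
    have h2 : mu b (JJ f (θ + 8 * ε) i) ≤ 2 * pp f θ i := by
      by_contra hc
      push Not at hc
      set e : ℝ := mu b (JJ f (θ + 8 * ε) i) - 2 * pp f θ i with he
      have he0 : 0 < e := by linarith
      have h3 := h1 (e / (2 * (|M| + 1))) (by positivity)
      have h4 : M * (e / (2 * (|M| + 1))) ≤ e / 2 := by
        have h5 : M * (e / (2 * (|M| + 1))) ≤ (|M| + 1) * (e / (2 * (|M| + 1))) :=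
          mul_le_mul_of_nonneg_right (by linarith [le_abs_self M]) (by positivity)
        refine h5.trans (le_of_eq ?_)
        field_simp
      linarith
    rw [← hk]
    simpa using h2
  · exact B3_pos H hε hk i A hi m ha b hb hbA θ

end Pool.Agent.H572R4.QA
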