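import Pool.Agent.H572R4.QA.Defs

set_option autoImplicit false

namespace Pool.Agent.H572R4.QA

open Finset Pool.Agent.H572R2

variable {N : ℕ}

theorem B4_factor (t : ℝ) (b : Bool) :
    Real.exp (t * sg b - t ^ 2 / 2) ≤ 1 + Real.tanh t * sg b := by
  have hc : 0 < Real.cosh t := Real.cosh_pos t
  have h1 : 1 + Real.tanh t * sg b = Real.exp (t * sg b) / Real.cosh t := by
    rw [Real.tanh_eq_sinh_div_cosh, eq_div_iff hc.ne']
    have h2 : (1 + Real.sinh t / Real.cosh t * sg b) * Real.cosh t
        = Real.cosh t + Real.sinh t * sg b := by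
      field_simp
    rw [h2]
    cases b
    · have : sg false = -1 := by simp [sg]
      rw [this, Real.cosh_eq, Real.sinh_eq]
      have h3 : t * -1 = -t := by ring
      rw [h3]
      ring
    · have : sg true = 1 := by simp [sg]
      rw [this, Real.cosh_eq, Real.sinh_eq, mul_one, mul_one]
      ring
  rw [h1, Real.exp_sub]
  gcongr
  exact Real.cosh_le_exp_half_sq t

theorem entropy (J : (Fin N → Bool) → ℝ) (hJ : ∀ x, J x = 0 ∨ J x = 1) (hp : 0 < EE J)
    (A : Finset (Fin N)) :
    EE J * Real.exp ((∑ j ∈ A, (EE (fun x => J x * sg (x j)) / EE J) ^ 2) / 2)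
      ≤ mu (fun j => if j ∈ A then Real.tanh (EE (fun x => J x * sg (x j)) / EE J) else 0) J := by
  set t : Fin N → ℝ := fun j => EE (fun x => J x * sg (x j)) / EE J with ht
  have hJ0 : ∀ x, 0 ≤ J x := by
    intro x
    rcases hJ x with h | h <;> rw [h] <;> norm_num
  set c : ℝ := (∑ j ∈ A, (t j) ^ 2) / 2 with hc
  have key : ∀ x : Fin N → Bool, Real.exp (∑ j ∈ A, (t j * sg (x j) - t j ^ 2 / 2))
      ≤ ∏ j, (1 + (if j ∈ A then Real.tanh (t j) else 0) * sg (x j)) := by
    intro x
    have h1 : ∏ j, (1 + (if j ∈ A then Real.tanh (t j) else 0) * sg (x j))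
        = ∏ j ∈ A, (1 + Real.tanh (t j) * sg (x j)) := by
      rw [← Finset.prod_subset (Finset.subset_univ A)]
      · exact Finset.prod_congr rfl fun j hj => by rw [if_pos hj]
      · intro j _ hj
        rw [if_neg hj]
        ring
    rw [h1, Real.exp_sum]
    exact Finset.prod_le_prod (fun j _ => (Real.exp_pos _).le) fun j _ => B4_factor (t j) (x j)
  have h2 : ∀ x : Fin N → Bool, J x * (Real.exp c * (1 + (∑ j ∈ A, (t j * sg (x j) - t j ^ 2 / 2))
      - c)) ≤ J x * ∏ j, (1 + (if j ∈ A then Real.tanh (t j) else 0) * sg (x j)) := by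
    intro x
    refine mul_le_mul_of_nonneg_left (le_trans ?_ (key x)) (hJ0 x)
    have h3 := Real.add_one_le_exp ((∑ j ∈ A, (t j * sg (x j) - t j ^ 2 / 2)) - c)
    have h4 : Real.exp (∑ j ∈ A, (t j * sg (x j) - t j ^ 2 / 2))
        = Real.exp c * Real.exp ((∑ j ∈ A, (t j * sg (x j) - t j ^ 2 / 2)) - c) := by
      rw [← Real.exp_add]
      congr 1
      ring
    rw [h4]
    refine mul_le_mul_of_nonneg_left ?_ (Real.exp_pos c).le
    linarith
  have h5 : EE (fun x => J x * (Real.exp c * (1 + (∑ j ∈ A, (t j * sg (x j) - t j ^ 2 / 2)) - c)))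
      = EE J * Real.exp c := by
    have h6 : ∀ x : Fin N → Bool, J x * (Real.exp c * (1 + (∑ j ∈ A, (t j * sg (x j) - t j ^ 2 / 2))
        - c)) = Real.exp c * (1 - 2 * c) * J x
          + Real.exp c * ∑ j ∈ A, t j * (J x * sg (x j)) := by
      intro x
      have h7 : ∑ j ∈ A, (t j * sg (x j) - t j ^ 2 / 2) = (∑ j ∈ A, t j * sg (x j)) - c := by
        rw [Finset.sum_sub_distrib, hc, Finset.sum_div]
      have h8 : ∑ j ∈ A, t j * (J x * sg (x j)) = J x * ∑ j ∈ A, t j * sg (x j) := by
        rw [Finset.mul_sum]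
        exact Finset.sum_congr rfl fun j _ => by ring
      rw [h7, h8]
      ring
    rw [EE_congr h6, EE_add, EE_mul, EE_mul, EE_sum]
    have h9 : ∑ j ∈ A, EE (fun x => t j * (J x * sg (x j))) = 2 * c * EE J := by
      have h10 : ∀ j ∈ A, EE (fun x : Fin N → Bool => t j * (J x * sg (x j)))
          = t j ^ 2 * EE J := by
        intro j _
        rw [EE_mul]
        have : EE (fun x => J x * sg (x j)) = t j * EE J := by
          simp only [ht]
          field_simp
        rw [this]
        ring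
      rw [Finset.sum_congr rfl h10, ← Finset.sum_mul, hc]
      ring
    rw [h9]
    ring
  unfold mu
  rw [← h5]
  exact EE_mono h2

end Pool.Agent.H572R4.QA
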