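import Pool.Agent.H572R4.QA.Defs

set_option autoImplicit false

namespace Pool.Agent.H572R4.QA

open Finset Pool.Agent.H572R2

variable {N : ℕ}

theorem num5_log_le (y : ℝ) (hy : 0 < y) : Real.log y ≤ y * (2 / 5) := by
  have h1 := Real.log_le_sub_one_of_pos (show 0 < y / Real.exp 1 by positivity)
  rw [Real.log_div hy.ne' (Real.exp_pos 1).ne', Real.log_exp] at h1
  have h2 : y / Real.exp 1 ≤ y * (2 / 5) := by
    rw [div_le_iff₀ (Real.exp_pos 1)]
    have := Real.exp_one_gt_d9
    nlinarith
  linarith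

theorem num5 (p p' v m C K : ℝ) (hp : 0 < p) (hpp' : p ≤ p') (hv : 0 ≤ v) (hm : 0 ≤ m)
    (hC : 0 ≤ C) (hK : 1 ≤ K) (h : p * Real.exp (v / 2) ≤ 2 * p' + C * m * v) :
    p ^ 2 * v ≤ (3 + 4 * Real.log K) * p ^ 2 + 2 / 5 * p' ^ 2 + 8 * C * m / K * p := by
  have hp' : 0 < p' := lt_of_lt_of_le hp hpp'
  have hlogK : 0 ≤ Real.log K := Real.log_nonneg hK
  have hK0 : 0 < K := by linarith
  have hlast : 0 ≤ 8 * C * m / K * p := by positivity
  have hp2 : 0 < p ^ 2 := by positivity
  by_cases hc : C * m * v ≤ 2 * p'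
  · have h1 : Real.exp (v / 2) ≤ 4 * (p' / p) := by
      rw [← mul_div_assoc, le_div_iff₀ hp]
      linarith
    have hs : 0 < p' / p := by positivity
    have h2 : v / 2 ≤ Real.log 4 + Real.log (p' / p) := by
      rw [← Real.log_mul (by norm_num) hs.ne', ← Real.log_exp (v / 2)]
      exact Real.log_le_log (Real.exp_pos _) h1
    have h3 : Real.log 4 ≤ 3 / 2 := by
      have : (4 : ℝ) = 2 ^ 2 := by norm_num
      rw [this, Real.log_pow]
      have := Real.log_two_lt_d9
      push_cast
      linarith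
    have h4 : 2 * Real.log (p' / p) ≤ (p' / p) ^ 2 * (2 / 5) := by
      have := num5_log_le ((p' / p) ^ 2) (by positivity)
      rw [Real.log_pow] at this
      push_cast at this
      exact this
    have h5 : p ^ 2 * ((p' / p) ^ 2 * (2 / 5)) = 2 / 5 * p' ^ 2 := by
      field_simp
    have h6 : p ^ 2 * v ≤ p ^ 2 * (3 + (p' / p) ^ 2 * (2 / 5)) := by
      apply mul_le_mul_of_nonneg_left _ hp2.le
      linarith
    have h7 : 0 ≤ 4 * Real.log K * p ^ 2 := by positivity
    calc p ^ 2 * v ≤ p ^ 2 * (3 + (p' / p) ^ 2 * (2 / 5)) := h6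
      _ = 3 * p ^ 2 + 2 / 5 * p' ^ 2 := by rw [mul_add, h5]; ring
      _ ≤ _ := by linarith
  · push Not at hc
    have h1 : p * Real.exp (v / 2) ≤ 2 * (C * m * v) := by linarith
    have h2 : v ≤ 2 * Real.exp (v / 4) := by
      have := Real.add_one_le_exp (v / 4 - 1)
      have h3 : Real.exp (v / 4 - 1) = Real.exp (v / 4) / Real.exp 1 := Real.exp_sub _ _
      rw [h3] at this
      have h4 : Real.exp (v / 4) / Real.exp 1 ≤ Real.exp (v / 4) / 2 := by
        have h5 := Real.exp_one_gt_d9
        exact div_le_div_of_nonneg_left (Real.exp_pos _).le (by norm_num) (by linarith)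
      linarith
    have h3 : Real.exp (v / 2) = Real.exp (v / 4) * Real.exp (v / 4) := by
      rw [← Real.exp_add]; ring_nf
    have hCm : 0 ≤ C * m := by positivity
    have h4 : p * Real.exp (v / 4) ≤ 4 * (C * m) := by
      have h5 : (p * Real.exp (v / 4)) * Real.exp (v / 4) ≤ (4 * (C * m)) * Real.exp (v / 4) := by
        calc (p * Real.exp (v / 4)) * Real.exp (v / 4) = p * Real.exp (v / 2) := by rw [h3]; ring
          _ ≤ 2 * (C * m * v) := h1
          _ ≤ 2 * (C * m * (2 * Real.exp (v / 4))) := by gcongr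
          _ = _ := by ring
      exact le_of_mul_le_mul_right h5 (Real.exp_pos _)
    have hCm' : 0 < C * m := by
      have := mul_pos hp (Real.exp_pos (v / 4))
      linarith
    have h5 : Real.exp (v / 4) ≤ K * (4 * (C * m) / (p * K)) := by
      have : K * (4 * (C * m) / (p * K)) = 4 * (C * m) / p := by field_simp
      rw [this, le_div_iff₀ hp]
      linarith
    have hy : 0 < 4 * (C * m) / (p * K) := by positivity
    have h6 : v / 4 ≤ Real.log K + Real.log (4 * (C * m) / (p * K)) := by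
      rw [← Real.log_mul hK0.ne' hy.ne', ← Real.log_exp (v / 4)]
      exact Real.log_le_log (Real.exp_pos _) h5
    have h7 := num5_log_le _ hy
    have h8 : v ≤ 4 * Real.log K + 2 * (4 * (C * m) / (p * K)) := by linarith
    have h9 : p ^ 2 * (2 * (4 * (C * m) / (p * K))) = 8 * C * m / K * p := by
      field_simp
      ring
    have h10 : 0 ≤ 2 / 5 * p' ^ 2 := by positivity
    calc p ^ 2 * v ≤ p ^ 2 * (4 * Real.log K + 2 * (4 * (C * m) / (p * K))) := by gcongr
      _ = 4 * Real.log K * p ^ 2 + 8 * C * m / K * p := by rw [mul_add, h9]; ring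
      _ ≤ _ := by nlinarith

end Pool.Agent.H572R4.QA
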