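import Pool.Agent.H572R4.QA.Defs

set_option autoImplicit false

namespace Pool.Agent.H572R4.QA

open Finset Pool.Agent.H572R2

variable {N : ℕ}

theorem sum_pp_le {f : (Fin N → Bool) → ℝ} {w : Fin N → (Fin N → Bool) → ℝ} {ε k s₀ : ℝ}
    (H : Hyp f w ε k s₀) (γ θ : ℝ) (hγ : 0 < γ) (hθ : γ ≤ θ) (A : Finset (Fin N)) :
    ∑ i ∈ A, pp f θ i ≤ s₀ / γ := by
  rw [le_div_iff₀ hγ]
  have h1 : (∑ i ∈ A, pp f θ i) * γ = EE (fun x => ∑ i ∈ A, γ * JJ f θ i x) := by
    rw [EE_sum, Finset.sum_mul]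
    apply Finset.sum_congr rfl
    intro i _
    unfold pp
    have := EE_mul γ (JJ f θ i)
    rw [mul_comm]
    exact this.symm
  rw [h1]
  have h2 : EE (fun x => ∑ i ∈ A, γ * JJ f θ i x) ≤ EE (fun _ : Fin N → Bool => s₀) := by
    apply EE_mono
    intro x
    refine le_trans ?_ (H.infl x)
    refine le_trans (Finset.sum_le_sum (g := fun i => dd f i x) ?_) ?_
    · intro i _
      unfold JJ
      split_ifs with h
      · linarith
      · have : 0 ≤ dd f i x := abs_nonneg _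
        linarith
    · exact Finset.sum_le_sum_of_subset_of_nonneg (Finset.subset_univ A)
        (fun i _ _ => abs_nonneg _)
  rwa [EE_const] at h2

theorem pp_facts (f : (Fin N → Bool) → ℝ) (i : Fin N) :
    (∀ θ, 0 ≤ pp f θ i) ∧ (∀ θ, pp f θ i ≤ 1) ∧ (∀ θ θ', θ ≤ θ' → pp f θ' i ≤ pp f θ i) := by
  refine ⟨fun θ => EE_nonneg fun x => ?_, fun θ => ?_, fun θ θ' h => EE_mono fun x => ?_⟩
  · unfold JJ; split_ifs <;> norm_num
  · have h := EE_mono (N := N) (f := JJ f θ i) (g := fun _ => (1 : ℝ)) (fun x => by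
      unfold JJ; split_ifs <;> norm_num)
    rwa [EE_const] at h
  · unfold JJ
    split_ifs with h1 h2 h2
    · exact le_refl _
    · exact absurd (le_trans h h1) h2
    · norm_num
    · exact le_refl _

theorem pp_le_w {f : (Fin N → Bool) → ℝ} {w : Fin N → (Fin N → Bool) → ℝ} {ε k s₀ : ℝ}
    (H : Hyp f w ε k s₀) (θ : ℝ) (hθ : 0 < θ) (hε : ε ≤ θ / 2) (i : Fin N) :
    pp f θ i ≤ 2 / θ * EE (w i) := by
  rw [← EE_mul]
  apply EE_mono
  intro x
  have hc := H.cert x (flp i x)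
  have hs : ∑ j, (if x j = flp i x j then 0 else w j x) = w i x := by
    rw [Finset.sum_eq_single i]
    · rw [flp_same]
      cases x i <;> simp
    · intro j _ hj
      rw [flp_ne hj]
      simp
    · intro h; exact absurd (Finset.mem_univ i) h
  rw [hs] at hc
  have hw := H.w0 i x
  unfold JJ
  split_ifs with h
  · have h' : θ ≤ ε + w i x := le_trans h hc
    rw [div_mul_eq_mul_div, le_div_iff₀ hθ]
    linarith
  · positivity

end Pool.Agent.H572R4.QA
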