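import Pool.Agent.H572R4.QA.Defs
import Pool.Agent.H572R4.QA.B3
import Pool.Agent.H572R4.QA.B4
import Pool.Agent.H572R4.QA.B5
import Pool.Agent.H572R4.QA.B7b

set_option autoImplicit false

namespace Pool.Agent.H572R4.QA

open Finset Pool.Agent.H572R2

variable {N : ℕ}

/-- `|tanh x| ≤ |x|`, squared. -/
theorem b45_tanh_sq (x : ℝ) : Real.tanh x ^ 2 ≤ x ^ 2 := by
  have key : ∀ y : ℝ, 0 ≤ y → Real.tanh y ≤ y := by
    intro y hy
    have hc : 0 < Real.cosh y := Real.cosh_pos y
    rw [Real.tanh_eq_sinh_div_cosh, div_le_iff₀ hc]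
    -- sinh y ≤ y cosh y
    have hmono : MonotoneOn (fun t : ℝ => t * Real.cosh t - Real.sinh t) (Set.Ici 0) := by
      apply monotoneOn_of_deriv_nonneg (convex_Ici 0)
      · fun_prop
      · fun_prop
      · intro t ht
        rw [interior_Ici] at ht
        have ht0 : (0 : ℝ) < t := ht
        have hd : HasDerivAt (fun t : ℝ => t * Real.cosh t - Real.sinh t)
            (1 * Real.cosh t + t * Real.sinh t - Real.cosh t) t :=
          ((hasDerivAt_id t).mul (Real.hasDerivAt_cosh t)).sub (Real.hasDerivAt_sinh t)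
        rw [hd.deriv]
        have : 0 ≤ Real.sinh t := Real.sinh_nonneg_iff.mpr ht0.le
        nlinarith
    have := hmono (Set.mem_Ici.mpr le_rfl) (Set.mem_Ici.mpr hy) hy
    simp only [zero_mul, Real.sinh_zero, sub_zero] at this
    linarith
  have h0 : ∀ y : ℝ, 0 ≤ y → 0 ≤ Real.tanh y := by
    intro y hy
    rw [Real.tanh_eq_sinh_div_cosh]
    exact div_nonneg (Real.sinh_nonneg_iff.mpr hy) (Real.cosh_pos y).le
  rcases le_total 0 x with hx | hx
  · exact pow_le_pow_left₀ (h0 x hx) (key x hx) 2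
  · have h1 := key (-x) (by linarith)
    have h2 := h0 (-x) (by linarith)
    have h3 := pow_le_pow_left₀ h2 h1 2
    rw [Real.tanh_neg] at h3
    simpa using h3

theorem level_one {f : (Fin N → Bool) → ℝ} {w : Fin N → (Fin N → Bool) → ℝ} {ε k s₀ : ℝ}
    (H : Hyp f w ε k s₀) (hε : 0 < ε) (i : Fin N) (A : Finset (Fin N)) (hi : i ∉ A) (m : ℝ)
    (hm : 0 ≤ m) (ha : ∀ j ∈ A, EE (w j) ≤ m) (θ K : ℝ) (hK : 1 ≤ K) :
    ∑ j ∈ A, gg f (θ + 8 * ε) i j ^ 2 ≤ (3 + 4 * Real.log K) * pp f (θ + 8 * ε) i ^ 2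
      + 2 / 5 * pp f θ i ^ 2 + 8 * (k / (4 * ε ^ 2)) * m / K * pp f (θ + 8 * ε) i := by
  have hk : 0 ≤ k := by
    have h1 := H.wk (fun _ => true)
    have h2 : (0 : ℝ) ≤ ∑ i, w i (fun _ => true) := Finset.sum_nonneg fun i _ => H.w0 i _
    linarith
  have hC : 0 ≤ k / (4 * ε ^ 2) := by positivity
  obtain ⟨hp0, _, hpm⟩ := pp_facts f i
  have hJ : ∀ x, JJ f (θ + 8 * ε) i x = 0 ∨ JJ f (θ + 8 * ε) i x = 1 := by
    intro x
    unfold JJ
    split_ifs
    · right; rfl
    · left; rfl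
  rcases (hp0 (θ + 8 * ε)).eq_or_lt with hp | hp
  · -- p = 0
    have hz : ∀ x, JJ f (θ + 8 * ε) i x = 0 := by
      have h1 : (∑ x, JJ f (θ + 8 * ε) i x) = 0 := by
        have h2 : (∑ x, JJ f (θ + 8 * ε) i x) / 2 ^ N = 0 := hp.symm
        rcases div_eq_zero_iff.mp h2 with h3 | h3
        · exact h3
        · exact absurd h3 (by positivity)
      have h4 := (Finset.sum_eq_zero_iff_of_nonneg (fun x _ => by
        rcases hJ x with h | h <;> rw [h]; exact zero_le_one)).mp h1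
      exact fun x => h4 x (Finset.mem_univ x)
    have hg : ∀ j, gg f (θ + 8 * ε) i j = 0 := by
      intro j
      unfold gg EE
      simp [hz]
    have h5 : ∑ j ∈ A, gg f (θ + 8 * ε) i j ^ 2 = 0 := by
      apply Finset.sum_eq_zero
      intro j _
      rw [hg j]; norm_num
    rw [h5, ← hp]
    nlinarith [sq_nonneg (pp f θ i)]
  · -- p > 0
    set p := pp f (θ + 8 * ε) i with hpdef
    set b : Fin N → ℝ := fun j => if j ∈ A then
      Real.tanh (EE (fun x => JJ f (θ + 8 * ε) i x * sg (x j)) / EE (JJ f (θ + 8 * ε) i)) else 0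
      with hbdef
    have hent := entropy (JJ f (θ + 8 * ε) i) hJ hp A
    have hb : ∀ j, |b j| ≤ 1 := by
      intro j
      simp only [hbdef]
      split_ifs
      · exact (Real.abs_tanh_lt_one _).le
      · simp
    have hbA : ∀ j ∉ A, b j = 0 := by
      intro j hj
      simp [hbdef, hj]
    have htilt := tilt H hε i A hi m ha b hb hbA θ
    set v : ℝ := ∑ j ∈ A, (gg f (θ + 8 * ε) i j / p) ^ 2 with hvdef
    have hv : 0 ≤ v := Finset.sum_nonneg fun j _ => sq_nonneg _
    have hbv : ∑ j, b j ^ 2 ≤ v := by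
      rw [hvdef, ← Finset.sum_subset (Finset.subset_univ A) (f := fun j => b j ^ 2)]
      · apply Finset.sum_le_sum
        intro j hj
        simp only [hbdef, hj, if_true]
        exact b45_tanh_sq _
      · intro j _ hj
        rw [hbA j hj]; norm_num
    have hmain : p * Real.exp (v / 2) ≤ 2 * pp f θ i + k / (4 * ε ^ 2) * m * v := by
      have h1 : p * Real.exp (v / 2) ≤ mu b (JJ f (θ + 8 * ε) i) := hent
      have h2 : (∑ j, b j ^ 2) * m * k / (4 * ε ^ 2) ≤ k / (4 * ε ^ 2) * m * v := by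
        have h3 : (∑ j, b j ^ 2) * m * k / (4 * ε ^ 2)
            = k / (4 * ε ^ 2) * m * (∑ j, b j ^ 2) := by ring
        rw [h3]
        exact mul_le_mul_of_nonneg_left hbv (mul_nonneg hC hm)
      linarith
    have h5 := num5 p (pp f θ i) v m (k / (4 * ε ^ 2)) K hp
      (hpm θ (θ + 8 * ε) (by linarith)) hv hm hC hK hmain
    have h6 : p ^ 2 * v = ∑ j ∈ A, gg f (θ + 8 * ε) i j ^ 2 := by
      rw [hvdef, Finset.mul_sum]
      apply Finset.sum_congr rfl
      intro j _
      have : p ≠ 0 := hp.ne'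
      field_simp
    rw [← h6]
    exact h5

end Pool.Agent.H572R4.QA
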