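import Pool.Agent.H572R4.QA.Defs

set_option autoImplicit false

namespace Pool.Agent.H572R4.QA

open Finset Pool.Agent.H572R2

variable {N : ℕ}

theorem hyp_mix {f : (Fin N → Bool) → ℝ} {w : Fin N → (Fin N → Bool) → ℝ} {ε k s₀ : ℝ}
    (H : Hyp f w ε k s₀) (S : Finset (Fin N)) (a : Fin N → Bool) :
    Hyp (fun x => f (mix S a x)) (fun i x => w i (mix S a x)) ε k s₀ where
  f0 := fun x => H.f0 _
  f1 := fun x => H.f1 _
  w0 := fun i x => H.w0 i _
  wk := fun x => H.wk _
  cert := by
    intro x y
    refine (H.cert (mix S a x) (mix S a y)).trans ?_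
    refine add_le_add le_rfl (Finset.sum_le_sum fun i _ => ?_)
    by_cases hxy : x i = y i
    · have : mix S a x i = mix S a y i := by
        unfold mix
        rw [hxy]
      rw [if_pos this, if_pos hxy]
    · rw [if_neg hxy]
      split_ifs
      · exact H.w0 i _
      · exact le_rfl
  infl := by
    intro x
    refine le_trans (Finset.sum_le_sum fun i _ => ?_) (H.infl (mix S a x))
    unfold dd
    beta_reduce
    by_cases hi : i ∈ S
    · rw [mix_flp_mem hi, sub_self, abs_zero]
      exact abs_nonneg _
    · rw [mix_flp_not_mem hi]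

theorem update_eq_mix (j : Fin N) (b : Bool) (x : Fin N → Bool) :
    Function.update x j b = mix {j} (fun _ => b) x := by
  funext i
  unfold mix
  by_cases h : i = j
  · subst h
    simp
  · simp [h]

theorem hyp_rs {f : (Fin N → Bool) → ℝ} {w : Fin N → (Fin N → Bool) → ℝ} {ε k s₀ : ℝ}
    (H : Hyp f w ε k s₀) (j : Fin N) (b : Bool) :
    Hyp (rs j b f) (fun i => rs j b (w i)) ε k s₀ := by
  have h := hyp_mix H {j} (fun _ => b)
  have e1 : rs j b f = fun x => f (mix {j} (fun _ => b) x) := by
    funext x
    unfold rs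
    rw [update_eq_mix]
  have e2 : (fun i => rs j b (w i)) = fun i x => w i (mix {j} (fun _ => b) x) := by
    funext i x
    unfold rs
    rw [update_eq_mix]
  rw [e1, e2]
  exact h

theorem pp_rs_self (f : (Fin N → Bool) → ℝ) (θ : ℝ) (hθ : 0 < θ) (j : Fin N) (b : Bool) :
    pp (rs j b f) θ j = 0 := by
  unfold pp
  have h : ∀ x, JJ (rs j b f) θ j x = 0 := by
    intro x
    unfold JJ dd rs
    have e : Function.update (flp j x) j b = Function.update x j b := by
      unfold flp
      rw [Function.update_idem]
    rw [e, sub_self, abs_zero, if_neg (not_le.mpr hθ)]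
  rw [EE_congr h, EE_const]

end Pool.Agent.H572R4.QA
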