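import Pool.Agent.H572R4.QA.Defs

set_option autoImplicit false

namespace Pool.Agent.H572R4.QA

open Finset Pool.Agent.H572R2

variable {N : ℕ}

lemma b6_pair (g : (Fin N → Bool) → ℝ) (j : Fin N) (x : Fin N → Bool) :
    g (Function.update x j true) + g (Function.update x j false) = g x + g (flp j x) := by
  rcases hx : x j with _ | _
  · have h1 : Function.update x j false = x := by
      rw [← hx]; exact Function.update_eq_self j x
    have h2 : flp j x = Function.update x j true := by
      unfold flp; rw [hx]; rfl
    rw [h1, h2]; ring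
  · have h1 : Function.update x j true = x := by
      rw [← hx]; exact Function.update_eq_self j x
    have h2 : flp j x = Function.update x j false := by
      unfold flp; rw [hx]; rfl
    rw [h1, h2]

theorem EE_rs (g : (Fin N → Bool) → ℝ) (j : Fin N) :
    EE (rs j true g) + EE (rs j false g) = 2 * EE g := by
  rw [← EE_add]
  have h : EE (fun x => rs j true g x + rs j false g x) = EE (fun x => g x + g (flp j x)) :=
    EE_congr fun x => b6_pair g j x
  rw [h, EE_add, EE_flp]
  ring

lemma b6_upd_flp {i j : Fin N} (hij : i ≠ j) (b : Bool) (x : Fin N → Bool) :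
    Function.update (flp i x) j b = flp i (Function.update x j b) := by
  funext k
  by_cases hk : k = j
  · subst hk
    rw [flp_ne (Ne.symm hij)]
    simp
  · by_cases hki : k = i
    · subst hki
      rw [flp_same]
      simp [Function.update_of_ne hk, flp_same]
    · rw [flp_ne hki]
      simp [Function.update_of_ne hk, flp_ne hki]

lemma b6_JJ_rs (f : (Fin N → Bool) → ℝ) (θ : ℝ) {i j : Fin N} (hij : i ≠ j) (b : Bool) :
    JJ (rs j b f) θ i = rs j b (JJ f θ i) := by
  funext x
  unfold JJ dd rs
  rw [b6_upd_flp hij]

theorem pp_rs_add (f : (Fin N → Bool) → ℝ) (θ : ℝ) (i j : Fin N) (hij : i ≠ j) :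
    pp (rs j true f) θ i + pp (rs j false f) θ i = 2 * pp f θ i := by
  unfold pp
  rw [b6_JJ_rs f θ hij true, b6_JJ_rs f θ hij false]
  exact EE_rs _ j

theorem pp_rs_sq (f : (Fin N → Bool) → ℝ) (θ : ℝ) (i j : Fin N) (hij : i ≠ j) :
    pp (rs j true f) θ i ^ 2 + pp (rs j false f) θ i ^ 2
      = 2 * (pp f θ i ^ 2 + gg f θ i j ^ 2) := by
  have h1 := pp_rs_add f θ i j hij
  have h2 : pp (rs j true f) θ i - pp (rs j false f) θ i = 2 * gg f θ i j := by
    unfold pp gg
    rw [b6_JJ_rs f θ hij true, b6_JJ_rs f θ hij false]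
    rw [← EE_rs (fun x => JJ f θ i x * sg (x j)) j]
    have e1 : EE (rs j true (fun x => JJ f θ i x * sg (x j))) = EE (rs j true (JJ f θ i)) := by
      apply EE_congr
      intro x
      simp [rs, sg]
    have e2 : EE (rs j false (fun x => JJ f θ i x * sg (x j)))
        = (-1) * EE (rs j false (JJ f θ i)) := by
      rw [← EE_mul]
      apply EE_congr
      intro x
      simp [rs, sg]
    rw [e1, e2]
    ring
  have e : pp f θ i = (pp (rs j true f) θ i + pp (rs j false f) θ i) / 2 := by linarith
  have e' : gg f θ i j = (pp (rs j true f) θ i - pp (rs j false f) θ i) / 2 := by linarith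
  rw [e, e']
  ring

end Pool.Agent.H572R4.QA
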