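import Pool.Agent.H572R4.QA.Defs
import Pool.Agent.H572R4.QA.B6b

set_option autoImplicit false

namespace Pool.Agent.H572R4.QA

open Finset Pool.Agent.H572R2

variable {N : ℕ}

theorem var_rs (f : (Fin N → Bool) → ℝ) (j : Fin N) :
    var f = (var (rs j true f) + var (rs j false f)) / 2
      + (EE (rs j true f) - EE (rs j false f)) ^ 2 / 4 := by
  have h1 := EE_rs f j
  have h2 := EE_rs (fun x => f x ^ 2) j
  have e1 : EE (rs j true (fun x => f x ^ 2)) = EE (fun x => rs j true f x ^ 2) := rfl
  have e2 : EE (rs j false (fun x => f x ^ 2)) = EE (fun x => rs j false f x ^ 2) := rfl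
  rw [e1, e2] at h2
  unfold var
  have h1' : EE f = (EE (rs j true f) + EE (rs j false f)) / 2 := by linarith
  have h2' : EE (fun x => f x ^ 2)
      = (EE (fun x => rs j true f x ^ 2) + EE (fun x => rs j false f x ^ 2)) / 2 := by linarith
  rw [h1', h2']
  ring

theorem mean_diff (f : (Fin N → Bool) → ℝ) (j : Fin N) :
    |EE (rs j true f) - EE (rs j false f)| ≤ EE (dd f j) := by
  have key : ∀ x, |rs j true f x - rs j false f x| = dd f j x := by
    intro x
    unfold rs dd
    rcases hx : x j with _ | _
    · have h1 : Function.update x j false = x := by
        rw [← hx]; exact Function.update_eq_self j x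
      have h2 : flp j x = Function.update x j true := by
        unfold flp; rw [hx]; rfl
      rw [h1, h2, abs_sub_comm]
    · have h1 : Function.update x j true = x := by
        rw [← hx]; exact Function.update_eq_self j x
      have h2 : flp j x = Function.update x j false := by
        unfold flp; rw [hx]; rfl
      rw [h1, h2]
  rw [← EE_sub]
  rw [abs_le]
  constructor
  · have h : EE (fun x => (-1) * dd f j x) ≤ EE (fun x => rs j true f x - rs j false f x) := by
      apply EE_mono
      intro x
      have := neg_abs_le (rs j true f x - rs j false f x)
      rw [key x] at this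
      linarith
    rw [EE_mul] at h
    linarith
  · apply EE_mono
    intro x
    rw [← key x]
    exact le_abs_self _

end Pool.Agent.H572R4.QA
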