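import Pool.Agent.H572R4.QA.Defs

set_option autoImplicit false

namespace Pool.Agent.H572R4.QA

open Finset Pool.Agent.H572R2

variable {N : ℕ}

theorem B7a_dd_nonneg (f : (Fin N → Bool) → ℝ) (i : Fin N) (x : Fin N → Bool) : 0 ≤ dd f i x :=
  abs_nonneg _

theorem B7a_dd_le_one {f : (Fin N → Bool) → ℝ} (f0 : ∀ x, 0 ≤ f x) (f1 : ∀ x, f x ≤ 1)
    (i : Fin N) (x : Fin N → Bool) : dd f i x ≤ 1 := by
  unfold dd
  rw [abs_le]
  have h1 := f0 x
  have h2 := f1 x
  have h3 := f0 (flp i x)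
  have h4 := f1 (flp i x)
  constructor <;> linarith

theorem var_le_pp {f : (Fin N → Bool) → ℝ} {w : Fin N → (Fin N → Bool) → ℝ} {ε k s₀ : ℝ}
    (H : Hyp f w ε k s₀) (θ : ℝ) (hθ : 0 < θ) :
    var f ≤ θ * s₀ / 4 + (∑ i, pp f θ i) / 4 := by
  have h0 := poincare f
  have h1 : ∀ (i : Fin N) (x : Fin N → Bool), (f x - f (flp i x)) ^ 2
      ≤ θ * dd f i x + JJ f θ i x := by
    intro i x
    have hd0 := B7a_dd_nonneg f i x
    have hd1 := B7a_dd_le_one H.f0 H.f1 i x
    have hsq : (f x - f (flp i x)) ^ 2 = dd f i x ^ 2 := by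
      unfold dd
      rw [sq_abs]
    rw [hsq]
    unfold JJ
    split_ifs with h
    · nlinarith [mul_nonneg hθ.le hd0]
    · push Not at h
      nlinarith
  have h2 : ∑ i, EE (fun x => (f x - f (flp i x)) ^ 2) ≤ θ * s₀ + ∑ i, pp f θ i := by
    have h3 : ∀ i, EE (fun x => (f x - f (flp i x)) ^ 2) ≤ θ * EE (dd f i) + pp f θ i := by
      intro i
      have h4 : EE (fun x => θ * dd f i x + JJ f θ i x) = θ * EE (dd f i) + pp f θ i := by
        rw [EE_add, EE_mul]
        rfl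
      rw [← h4]
      exact EE_mono (h1 i)
    refine (Finset.sum_le_sum fun i _ => h3 i).trans ?_
    rw [Finset.sum_add_distrib, ← Finset.mul_sum]
    have h5 : ∑ i, EE (dd f i) ≤ s₀ := by
      rw [← EE_sum]
      exact (EE_mono (H.infl)).trans (le_of_eq (EE_const s₀))
    have := mul_le_mul_of_nonneg_left h5 hθ.le
    linarith
  unfold var
  linarith

theorem dd_sq_le {f : (Fin N → Bool) → ℝ} {w : Fin N → (Fin N → Bool) → ℝ} {ε k s₀ : ℝ}
    (H : Hyp f w ε k s₀) (θ : ℝ) (hθ : 0 < θ) (j : Fin N) :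
    EE (dd f j) ^ 2 ≤ 2 * θ * EE (dd f j) + 2 * pp f θ j ^ 2 := by
  set u : ℝ := EE (fun x => dd f j x * (1 - JJ f θ j x)) with hu
  have hJ01 : ∀ x, 0 ≤ JJ f θ j x ∧ JJ f θ j x ≤ 1 := by
    intro x
    unfold JJ
    split_ifs <;> norm_num
  have hu0 : 0 ≤ u := EE_nonneg fun x =>
    mul_nonneg (B7a_dd_nonneg f j x) (by have := (hJ01 x).2; linarith)
  have huθ : u ≤ θ := by
    refine (EE_mono (g := fun _ => θ) fun x => ?_).trans (le_of_eq (EE_const θ))
    unfold JJ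
    split_ifs with h
    · simpa using hθ.le
    · push Not at h
      linarith
  have hud : u ≤ EE (dd f j) := by
    refine EE_mono fun x => ?_
    have h1 := B7a_dd_nonneg f j x
    have h2 := (hJ01 x).1
    nlinarith
  have hp0 : 0 ≤ pp f θ j := EE_nonneg fun x => (hJ01 x).1
  have hsum : EE (dd f j) ≤ u + pp f θ j := by
    have h1 : EE (dd f j) = u + EE (fun x => dd f j x * JJ f θ j x) := by
      rw [hu, ← EE_add]
      apply EE_congr
      intro x
      ring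
    have h2 : EE (fun x => dd f j x * JJ f θ j x) ≤ pp f θ j := by
      refine EE_mono fun x => ?_
      have h3 := B7a_dd_le_one H.f0 H.f1 j x
      have h4 := (hJ01 x).1
      nlinarith
    linarith
  have hd0 : 0 ≤ EE (dd f j) := EE_nonneg fun x => B7a_dd_nonneg f j x
  have h1 : EE (dd f j) ^ 2 ≤ (u + pp f θ j) ^ 2 := pow_le_pow_left₀ hd0 hsum 2
  have h2 : (u + pp f θ j) ^ 2 ≤ 2 * u ^ 2 + 2 * pp f θ j ^ 2 := by
    nlinarith [sq_nonneg (u - pp f θ j)]
  have h3 : u ^ 2 ≤ θ * EE (dd f j) := by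
    nlinarith
  linarith

end Pool.Agent.H572R4.QA
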