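import Pool.Agent.H572R4.QA.Defs

set_option autoImplicit false

namespace Pool.Agent.H572R4.QA

open Finset Pool.Agent.H572R2

variable {N : ℕ}

theorem freeze {f : (Fin N → Bool) → ℝ} {w : Fin N → (Fin N → Bool) → ℝ}
    (γ ε : ℝ) (T : ℕ) (hT : 1 ≤ T) (ca m0 K S cr base s : ℝ) (hca : 0 < ca) (hm0 : 0 < m0)
    (hw : ∀ i x, 0 ≤ w i x)
    (A : Finset (Fin N)) (i : Fin N) (hi : i ∈ A)
    (hai : m0 * Real.exp ((5 + 4 * Real.log K) * s) < EE (w i)) :
    pp f (th γ ε T) i + Phi γ ε T ca m0 K S cr base s f w (A.erase i)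
      ≤ Phi γ ε T ca m0 K S cr base s f w A := by
  set M : ℝ := m0 * Real.exp ((5 + 4 * Real.log K) * s) with hM
  have hMpos : 0 < M := by rw [hM]; positivity
  have hp0 : 0 ≤ pp f (th γ ε T) i := by
    unfold pp
    apply EE_nonneg
    intro x
    unfold JJ
    split_ifs <;> norm_num
  have hY : Yh γ ε T f (A.erase i) + pp f (th γ ε T) i ^ 2 ≤ Yh γ ε T f A := by
    unfold Yh
    have e : ∀ t, ∑ j ∈ A, pp f (th γ ε (t + 1)) j ^ 2
        = ∑ j ∈ A.erase i, pp f (th γ ε (t + 1)) j ^ 2 + pp f (th γ ε (t + 1)) i ^ 2 := by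
      intro t
      exact (Finset.sum_erase_add A _ hi).symm
    have e2 : ∑ t ∈ Finset.range T, (1 / 2 : ℝ) ^ (T - 1 - t)
          * ∑ j ∈ A, pp f (th γ ε (t + 1)) j ^ 2
        = ∑ t ∈ Finset.range T, (1 / 2 : ℝ) ^ (T - 1 - t)
          * ∑ j ∈ A.erase i, pp f (th γ ε (t + 1)) j ^ 2
          + ∑ t ∈ Finset.range T, (1 / 2 : ℝ) ^ (T - 1 - t) * pp f (th γ ε (t + 1)) i ^ 2 := by
      rw [← Finset.sum_add_distrib]
      apply Finset.sum_congr rfl
      intro t _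
      rw [e t]
      ring
    have e3 : pp f (th γ ε T) i ^ 2
        ≤ ∑ t ∈ Finset.range T, (1 / 2 : ℝ) ^ (T - 1 - t) * pp f (th γ ε (t + 1)) i ^ 2 := by
      have h1 : (1 / 2 : ℝ) ^ (T - 1 - (T - 1)) * pp f (th γ ε ((T - 1 : ℕ) + 1)) i ^ 2
          ≤ ∑ t ∈ Finset.range T, (1 / 2 : ℝ) ^ (T - 1 - t) * pp f (th γ ε (t + 1)) i ^ 2 := by
        refine Finset.single_le_sum
          (f := fun t : ℕ => (1 / 2 : ℝ) ^ (T - 1 - t) * pp f (th γ ε (t + 1)) i ^ 2)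
          (fun t _ => by positivity) (Finset.mem_range.2 (by omega))
      have h2 : T - 1 + 1 = T := by omega
      simp only [Nat.sub_self, pow_zero, one_mul, h2] at h1
      exact h1
    linarith
  have hS1 : ∑ j ∈ A, pp f (th γ ε T) j
      = ∑ j ∈ A.erase i, pp f (th γ ε T) j + pp f (th γ ε T) i :=
    (Finset.sum_erase_add A _ hi).symm
  have hS2 : ∑ j ∈ A, EE (w j) = ∑ j ∈ A.erase i, EE (w j) + EE (w i) :=
    (Finset.sum_erase_add A _ hi).symm
  unfold Phi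
  rw [← hM, hS1, hS2]
  set p := pp f (th γ ε T) i with hp
  have hc : 0 < 1 / (4 * ca * M) := by positivity
  have h1 : 1 / (4 * ca * M) * (Yh γ ε T f (A.erase i) + p ^ 2)
      ≤ 1 / (4 * ca * M) * Yh γ ε T f A := by
    apply mul_le_mul_of_nonneg_left hY hc.le
  have h2 : 0 ≤ Real.exp (s - S) * p := by positivity
  have h3 : ca * M ≤ ca * EE (w i) := mul_le_mul_of_nonneg_left hai.le hca.le
  have h4 : p ≤ 1 / (4 * ca * M) * p ^ 2 + ca * M := by
    have h5 : 1 / (4 * ca * M) * p ^ 2 + ca * M - p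
        = 1 / (4 * ca * M) * (p - 2 * (ca * M)) ^ 2 := by
      field_simp
      ring
    have h6 : 0 ≤ 1 / (4 * ca * M) * (p - 2 * (ca * M)) ^ 2 := by positivity
    linarith
  nlinarith [h1, h2, h3, h4]

end Pool.Agent.H572R4.QA
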