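import Pool.Agent.H572R4.QA.Defs
import Pool.Agent.H572R4.QA.B45
import Pool.Agent.H572R4.QA.B6b
import Pool.Agent.H572R4.QA.B7b

set_option autoImplicit false

namespace Pool.Agent.H572R4.QA

open Finset Pool.Agent.H572R2

variable {N : ℕ}

theorem yh_avg_geom (T : ℕ) : ∑ t ∈ Finset.range T, (1 / 2 : ℝ) ^ (T - 1 - t) ≤ 2 := by
  have h := Finset.sum_range_reflect (fun t => (1 / 2 : ℝ) ^ t) T
  rw [h]
  have := sum_geometric_two_le T
  simpa using this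

theorem yh_avg_shift (T : ℕ) (hT : 1 ≤ T) (Y : ℕ → ℝ) (hY : ∀ t, 0 ≤ Y t) :
    ∑ t ∈ Finset.range T, (1 / 2 : ℝ) ^ (T - 1 - t) * Y t
      ≤ 2 * (1 / 2 : ℝ) ^ T * Y 0
        + 2 * ∑ t ∈ Finset.range T, (1 / 2 : ℝ) ^ (T - 1 - t) * Y (t + 1) := by
  obtain ⟨n, rfl⟩ : ∃ n, T = n + 1 := ⟨T - 1, by omega⟩
  rw [Finset.sum_range_succ']
  rw [Finset.sum_range_succ (fun t => (1 / 2 : ℝ) ^ (n + 1 - 1 - t) * Y (t + 1)) n]
  have h1 : ∑ k ∈ Finset.range n, (1 / 2 : ℝ) ^ (n + 1 - 1 - (k + 1)) * Y (k + 1)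
      = 2 * ∑ k ∈ Finset.range n, (1 / 2 : ℝ) ^ (n + 1 - 1 - k) * Y (k + 1) := by
    rw [Finset.mul_sum]
    apply Finset.sum_congr rfl
    intro k hk
    have hk' : k < n := Finset.mem_range.1 hk
    have e : n + 1 - 1 - k = (n + 1 - 1 - (k + 1)) + 1 := by omega
    rw [e, pow_succ]
    ring
  rw [h1]
  have h2 : (1 / 2 : ℝ) ^ (n + 1 - 1 - 0) = 2 * (1 / 2 : ℝ) ^ (n + 1) := by
    have e : n + 1 - 1 - 0 = n := by omega
    rw [e, pow_succ]
    ring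
  rw [h2]
  have h3 : 0 ≤ (1 / 2 : ℝ) ^ (n + 1 - 1 - n) * Y (n + 1) := by
    have := hY (n + 1)
    positivity
  linarith

theorem yh_avg {f : (Fin N → Bool) → ℝ} {w : Fin N → (Fin N → Bool) → ℝ} {ε k s₀ : ℝ}
    (H : Hyp f w ε k s₀) (hε : 0 < ε) (hk : 0 ≤ k) (γ : ℝ) (hγ : 0 < γ) (T : ℕ) (hT : 1 ≤ T)
    (K : ℝ) (hK : 1 ≤ K) (A : Finset (Fin N)) (hA : A.Nonempty) (m : ℝ) (hm : 0 ≤ m)
    (ha : ∀ j ∈ A, EE (w j) ≤ m) :
    (∑ j ∈ A, (Yh γ ε T (rs j true f) (A.erase j) + Yh γ ε T (rs j false f) (A.erase j)) / 2)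
        / A.card
      ≤ (1 + (14 / 5 + 4 * Real.log K) / A.card) * Yh γ ε T f A
        + (4 / 5 * (1 / 2 : ℝ) ^ T * (s₀ / γ) + 16 * (k / (4 * ε ^ 2)) * m / K * (s₀ / γ))
          / A.card := by
  have hc : (0 : ℝ) < A.card := by exact_mod_cast Finset.card_pos.2 hA
  -- notation
  set c : ℕ → ℝ := fun t => (1 / 2 : ℝ) ^ (T - 1 - t) with hcdef
  have hcpos : ∀ t, 0 ≤ c t := fun t => by simp only [hcdef]; positivity
  set Y : ℕ → ℝ := fun t => ∑ i ∈ A, pp f (th γ ε t) i ^ 2 with hYdef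
  have hYpos : ∀ t, 0 ≤ Y t := fun t => Finset.sum_nonneg (fun i _ => sq_nonneg _)
  have hYh : Yh γ ε T f A = ∑ t ∈ Finset.range T, c t * Y (t + 1) := rfl
  have hth : ∀ t : ℕ, th γ ε (t + 1) = th γ ε t + 8 * ε := by
    intro t
    simp only [th]
    push_cast
    ring
  have hthγ : ∀ t : ℕ, γ ≤ th γ ε t := by
    intro t
    simp only [th]
    have : 0 ≤ 8 * ε * (t : ℝ) := by positivity
    linarith
  have hpp0 : ∀ θ i, 0 ≤ pp f θ i := fun θ i => (pp_facts f i).1 θ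
  have hpp1 : ∀ θ i, pp f θ i ≤ 1 := fun θ i => (pp_facts f i).2.1 θ
  have hsum : ∀ t : ℕ, ∑ i ∈ A, pp f (th γ ε t) i ≤ s₀ / γ := fun t =>
    sum_pp_le H γ (th γ ε t) hγ (hthγ t) A
  have hs0 : 0 ≤ s₀ / γ := le_trans (Finset.sum_nonneg (fun i _ => hpp0 _ i)) (hsum 0)
  -- step 1
  have h1 : ∀ j ∈ A, (Yh γ ε T (rs j true f) (A.erase j) + Yh γ ε T (rs j false f) (A.erase j)) / 2
      = ∑ t ∈ Finset.range T, c t * ∑ i ∈ A.erase j,
          (pp f (th γ ε (t + 1)) i ^ 2 + gg f (th γ ε (t + 1)) i j ^ 2) := by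
    intro j hj
    simp only [Yh]
    rw [← Finset.sum_add_distrib, Finset.sum_div]
    apply Finset.sum_congr rfl
    intro t _
    rw [← mul_add, ← Finset.sum_add_distrib, mul_div_assoc, Finset.sum_div]
    congr 1
    apply Finset.sum_congr rfl
    intro i hi
    have hij : i ≠ j := (Finset.mem_erase.1 hi).1
    rw [pp_rs_sq f _ i j hij]
    ring
  rw [Finset.sum_congr rfl h1]
  -- step 2
  have h2 : ∑ j ∈ A, ∑ t ∈ Finset.range T, c t * ∑ i ∈ A.erase j,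
          (pp f (th γ ε (t + 1)) i ^ 2 + gg f (th γ ε (t + 1)) i j ^ 2)
      = ∑ t ∈ Finset.range T, c t * ∑ i ∈ A, ∑ j ∈ A.erase i,
          (pp f (th γ ε (t + 1)) i ^ 2 + gg f (th γ ε (t + 1)) i j ^ 2) := by
    rw [Finset.sum_comm]
    apply Finset.sum_congr rfl
    intro t _
    rw [← Finset.mul_sum]
    congr 1
    apply Finset.sum_comm'
    intro x y
    simp only [Finset.mem_erase]
    constructor
    · rintro ⟨a, b, c⟩
      exact ⟨⟨Ne.symm b, a⟩, c⟩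
    · rintro ⟨⟨a, b⟩, c⟩
      exact ⟨b, Ne.symm a, c⟩
  rw [h2]
  -- step 3
  have h3 : ∀ t ∈ Finset.range T, c t * ∑ i ∈ A, ∑ j ∈ A.erase i,
          (pp f (th γ ε (t + 1)) i ^ 2 + gg f (th γ ε (t + 1)) i j ^ 2)
      ≤ (A.card + 2 + 4 * Real.log K) * (c t * Y (t + 1)) + 2 / 5 * (c t * Y t)
        + 8 * (k / (4 * ε ^ 2)) * m / K * (s₀ / γ) * c t := by
    intro t _
    have h4 : ∑ i ∈ A, ∑ j ∈ A.erase i,
          (pp f (th γ ε (t + 1)) i ^ 2 + gg f (th γ ε (t + 1)) i j ^ 2)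
        ≤ ∑ i ∈ A, ((A.card + 2 + 4 * Real.log K) * pp f (th γ ε (t + 1)) i ^ 2
          + 2 / 5 * pp f (th γ ε t) i ^ 2
          + 8 * (k / (4 * ε ^ 2)) * m / K * pp f (th γ ε (t + 1)) i) := by
      apply Finset.sum_le_sum
      intro i hi
      rw [Finset.sum_add_distrib, Finset.sum_const, Finset.card_erase_of_mem hi, nsmul_eq_mul]
      have hl := level_one H hε i (A.erase i) (Finset.notMem_erase i A) m hm
        (fun j hj => ha j (Finset.mem_of_mem_erase hj)) (th γ ε t) K hK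
      rw [← hth t] at hl
      have hcast : ((A.card - 1 : ℕ) : ℝ) = (A.card : ℝ) - 1 := by
        have : 1 ≤ A.card := Finset.card_pos.2 hA
        push_cast [Nat.cast_sub this]
        ring
      rw [hcast]
      nlinarith [hl]
    have h5 : ∑ i ∈ A, ((A.card + 2 + 4 * Real.log K) * pp f (th γ ε (t + 1)) i ^ 2
          + 2 / 5 * pp f (th γ ε t) i ^ 2
          + 8 * (k / (4 * ε ^ 2)) * m / K * pp f (th γ ε (t + 1)) i)
        = (A.card + 2 + 4 * Real.log K) * Y (t + 1) + 2 / 5 * Y t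
          + 8 * (k / (4 * ε ^ 2)) * m / K * ∑ i ∈ A, pp f (th γ ε (t + 1)) i := by
      rw [Finset.sum_add_distrib, Finset.sum_add_distrib, ← Finset.mul_sum, ← Finset.mul_sum,
        ← Finset.mul_sum]
    have h6 : 8 * (k / (4 * ε ^ 2)) * m / K * ∑ i ∈ A, pp f (th γ ε (t + 1)) i
        ≤ 8 * (k / (4 * ε ^ 2)) * m / K * (s₀ / γ) := by
      apply mul_le_mul_of_nonneg_left (hsum (t + 1))
      positivity
    have h7 := mul_le_mul_of_nonneg_left (le_trans h4 (le_trans (le_of_eq h5)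
      (add_le_add_right h6 _))) (hcpos t)
    calc _ ≤ _ := h7
      _ = _ := by ring
  have h8 := Finset.sum_le_sum h3
  rw [Finset.sum_add_distrib, Finset.sum_add_distrib, ← Finset.mul_sum, ← Finset.mul_sum,
    ← Finset.mul_sum] at h8
  have h9 := yh_avg_shift T hT Y hYpos
  have h10 := yh_avg_geom T
  have h11 : Y 0 ≤ s₀ / γ := by
    refine le_trans ?_ (hsum 0)
    apply Finset.sum_le_sum
    intro i _
    have a := hpp0 (th γ ε 0) i
    have b := hpp1 (th γ ε 0) i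
    nlinarith
  have h12 : 8 * (k / (4 * ε ^ 2)) * m / K * (s₀ / γ) * ∑ t ∈ Finset.range T, c t
      ≤ 8 * (k / (4 * ε ^ 2)) * m / K * (s₀ / γ) * 2 := by
    apply mul_le_mul_of_nonneg_left h10
    positivity
  have h13 : 2 * (1 / 2 : ℝ) ^ T * Y 0 ≤ 2 * (1 / 2 : ℝ) ^ T * (s₀ / γ) := by
    apply mul_le_mul_of_nonneg_left h11
    positivity
  have h14 : ∑ t ∈ Finset.range T, c t * ∑ i ∈ A, ∑ j ∈ A.erase i,
          (pp f (th γ ε (t + 1)) i ^ 2 + gg f (th γ ε (t + 1)) i j ^ 2)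
      ≤ (A.card + (14 / 5 + 4 * Real.log K)) * Yh γ ε T f A
        + (4 / 5 * (1 / 2 : ℝ) ^ T * (s₀ / γ) + 16 * (k / (4 * ε ^ 2)) * m / K * (s₀ / γ)) := by
    rw [hYh]
    have e1 : (A.card + (14 / 5 + 4 * Real.log K)) * ∑ t ∈ Finset.range T, c t * Y (t + 1)
        = (A.card + 2 + 4 * Real.log K) * ∑ t ∈ Finset.range T, c t * Y (t + 1)
          + 2 / 5 * (2 * ∑ t ∈ Finset.range T, c t * Y (t + 1)) := by ring
    have e2 : 16 * (k / (4 * ε ^ 2)) * m / K * (s₀ / γ)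
        = 8 * (k / (4 * ε ^ 2)) * m / K * (s₀ / γ) * 2 := by ring
    rw [e1, e2]
    have e3 : ∑ t ∈ Finset.range T, c t * Y t
        ≤ 2 * (1 / 2 : ℝ) ^ T * (s₀ / γ) + 2 * ∑ t ∈ Finset.range T, c t * Y (t + 1) := by
      refine le_trans h9 ?_
      linarith
    linarith
  rw [div_le_iff₀ hc]
  refine le_trans h14 (le_of_eq ?_)
  field_simp

end Pool.Agent.H572R4.QA
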