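import Pool.Agent.H572R4.QA.Defs
import Pool.Agent.H572R4.QA.B6a
import Pool.Agent.H572R4.QA.B6c
import Pool.Agent.H572R4.QA.B7a
import Pool.Agent.H572R4.QA.B7b
import Pool.Agent.H572R4.QA.B8a
import Pool.Agent.H572R4.QA.B8c

set_option autoImplicit false

namespace Pool.Agent.H572R4.QA

open Finset Pool.Agent.H572R2

variable {N : ℕ}

theorem process (γ ε k s₀ : ℝ) (hε : 0 < ε) (hk : 0 ≤ k) (hs₀ : 0 ≤ s₀) (hγ : 0 < γ) (T : ℕ)
    (hT : 1 ≤ T) (ca m0 K S cr base : ℝ) (hca : 0 < ca) (hm0 : 0 < m0) (hK : 1 ≤ K) (hS : 0 ≤ S)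
    (hsmall : 4 * ca * (m0 * Real.exp ((5 + 4 * Real.log K) * S)) ≤ 1)
    (hcr : th γ ε T * s₀ / 2 + 4 * (k / (4 * ε ^ 2)) * (s₀ / γ) / (ca * K)
      + (1 / 2 : ℝ) ^ T * (s₀ / γ) / (5 * ca * m0) ≤ cr)
    (hbase : th γ ε T * s₀ / 4 ≤ base) :
    ∀ (n : ℕ) (A : Finset (Fin N)), A.card = n → ∀ (s : ℝ), 0 ≤ s → s ≤ S + 1 →
      ∀ (f : (Fin N → Bool) → ℝ) (w : Fin N → (Fin N → Bool) → ℝ), Hyp f w ε k s₀ →
        var f ≤ ∑ i ∈ Aᶜ, pp f (th γ ε T) i + Phi γ ε T ca m0 K S cr base s f w A := by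
  have hth : 0 < th γ ε T := by
    unfold th
    have : (0 : ℝ) ≤ 8 * ε * T := by positivity
    linarith
  have hcr0 : 0 ≤ cr := by
    refine le_trans ?_ hcr
    have h1 : 0 ≤ th γ ε T * s₀ / 2 := by positivity
    have h2 : 0 ≤ 4 * (k / (4 * ε ^ 2)) * (s₀ / γ) / (ca * K) := by
      have hK0 : 0 < K := by linarith
      positivity
    have h3 : 0 ≤ (1 / 2 : ℝ) ^ T * (s₀ / γ) / (5 * ca * m0) := by positivity
    linarith
  -- the base case
  have hbc : ∀ (A : Finset (Fin N)) (s : ℝ), 0 ≤ s → s ≤ S + 1 → (S ≤ s ∨ A = ∅) →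
      ∀ (f : (Fin N → Bool) → ℝ) (w : Fin N → (Fin N → Bool) → ℝ), Hyp f w ε k s₀ →
        var f ≤ ∑ i ∈ Aᶜ, pp f (th γ ε T) i + Phi γ ε T ca m0 K S cr base s f w A := by
    intro A s hs0 hsS hor f w H
    have h1 := var_le_pp H (th γ ε T) hth
    have hp0 : ∀ i, 0 ≤ pp f (th γ ε T) i := fun i => (pp_facts f i).1 _
    have hsplit : ∑ i, pp f (th γ ε T) i
        = ∑ i ∈ Aᶜ, pp f (th γ ε T) i + ∑ i ∈ A, pp f (th γ ε T) i := by
      rw [add_comm]
      exact (Finset.sum_add_sum_compl A _).symm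
    have hA0 : 0 ≤ ∑ i ∈ A, pp f (th γ ε T) i := Finset.sum_nonneg (fun i _ => hp0 i)
    have hAc0 : 0 ≤ ∑ i ∈ Aᶜ, pp f (th γ ε T) i := Finset.sum_nonneg (fun i _ => hp0 i)
    have hY : 0 ≤ Yh γ ε T f A := by
      unfold Yh
      refine Finset.sum_nonneg (fun t _ => mul_nonneg (by positivity) ?_)
      exact Finset.sum_nonneg (fun i _ => sq_nonneg _)
    have hW : 0 ≤ ∑ i ∈ A, EE (w i) := Finset.sum_nonneg (fun i _ => EE_nonneg (H.w0 i))
    have hc : 0 ≤ cr * (S + 1 - s) := mul_nonneg hcr0 (by linarith)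
    have hcoef : 0 ≤ 1 / (4 * ca * (m0 * Real.exp ((5 + 4 * Real.log K) * s))) * Yh γ ε T f A := by
      refine mul_nonneg ?_ hY
      positivity
    have hexp : ∑ i ∈ A, pp f (th γ ε T) i
        ≤ Real.exp (s - S) * ∑ i ∈ A, pp f (th γ ε T) i := by
      rcases hor with h | h
      · have he : 1 ≤ Real.exp (s - S) := by
          rw [← Real.exp_zero]
          exact Real.exp_le_exp.mpr (by linarith)
        nlinarith
      · subst h
        simp
    have hWca : 0 ≤ ca * ∑ i ∈ A, EE (w i) := mul_nonneg hca.le hW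
    have hPhi : Phi γ ε T ca m0 K S cr base s f w A
      = 1 / (4 * ca * (m0 * Real.exp ((5 + 4 * Real.log K) * s))) * Yh γ ε T f A
    + Real.exp (s - S) * ∑ i ∈ A, pp f (th γ ε T) i
    + ca * ∑ i ∈ A, EE (w i) + (cr * (S + 1 - s) + base) := rfl
    rw [hPhi]
    linarith
  intro n
  induction n with
  | zero =>
    intro A hA s hs0 hsS f w H
    exact hbc A s hs0 hsS (Or.inr (Finset.card_eq_zero.mp hA)) f w H
  | succ n ih =>
    intro A hA s hs0 hsS f w H
    by_cases hSs : S ≤ s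
    · exact hbc A s hs0 hsS (Or.inl hSs) f w H
    push Not at hSs
    have hne : A.Nonempty := by
      rw [← Finset.card_pos, hA]
      exact Nat.succ_pos n
    by_cases hex : ∃ i ∈ A, m0 * Real.exp ((5 + 4 * Real.log K) * s) < EE (w i)
    · obtain ⟨i, hi, hai⟩ := hex
      have h1 := ih (A.erase i) (by rw [Finset.card_erase_of_mem hi, hA]; rfl) s hs0 hsS f w H
      have h2 := freeze (f := f) (w := w) γ ε T hT ca m0 K S cr base s hca hm0 H.w0 A i hi hai
      have h3 : (A.erase i)ᶜ = insert i Aᶜ := by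
        rw [Finset.compl_erase]
      rw [h3, Finset.sum_insert (by simp [hi])] at h1
      linarith
    · push Not at hex
      have hcard : (0 : ℝ) < (A.card : ℝ) := by
        exact_mod_cast Finset.card_pos.mpr hne
      have hcard1 : (1 : ℝ) ≤ (A.card : ℝ) := by
        exact_mod_cast Finset.card_pos.mpr hne
      have hinv : (1 : ℝ) / A.card ≤ 1 := by
        rw [div_le_one hcard]; exact hcard1
      have hinv0 : (0 : ℝ) ≤ (1 : ℝ) / A.card := by positivity
      have h0 := reveal H hε hk hs₀ γ hγ T hT ca m0 K S cr base s hca hm0 hK hs0 hSs.le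
        hsmall hcr A hne hex
      refine le_trans ?_ h0
      rw [le_div_iff₀ hcard]
      have hcs : var f * (A.card : ℝ) = ∑ _j ∈ A, var f := by
        rw [Finset.sum_const, nsmul_eq_mul, mul_comm]
      rw [hcs]
      refine Finset.sum_le_sum (fun j hj => ?_)
      have hc : (A.erase j).card = n := by rw [Finset.card_erase_of_mem hj, hA]; rfl
      have ht := ih (A.erase j) hc (s + 1 / A.card) (by linarith) (by linarith) (rs j true f)
        (fun i => rs j true (w i)) (hyp_rs H j true)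
      have hf := ih (A.erase j) hc (s + 1 / A.card) (by linarith) (by linarith) (rs j false f)
        (fun i => rs j false (w i)) (hyp_rs H j false)
      have hv := var_rs f j
      have hm := mean_diff f j
      have hsq : (EE (rs j true f) - EE (rs j false f)) ^ 2 ≤ EE (dd f j) ^ 2 := by
        rw [← sq_abs]
        exact pow_le_pow_left₀ (abs_nonneg _) hm 2
      linarith

end Pool.Agent.H572R4.QA
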