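import Pool.Agent.H572R4.QA.Defs
import Pool.Agent.H572R4.QA.B7b
import Pool.Agent.H572R4.QA.B8d

set_option autoImplicit false

namespace Pool.Agent.H572R4.QA

open Finset Pool.Agent.H572R2

variable {N : ℕ}

lemma B9a_geom (T : ℕ) (hT : 1 ≤ T) :
    ∑ t ∈ Finset.range T, (1 / 2 : ℝ) ^ (T - 1 - t) ≤ 2 := by
  have h := Finset.sum_range_reflect (fun t => (1 / 2 : ℝ) ^ t) T
  rw [h]
  have h2 := geom_sum_eq (show (1 / 2 : ℝ) ≠ 1 by norm_num) T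
  rw [h2]
  have h3 : (0 : ℝ) ≤ (1 / 2 : ℝ) ^ T := by positivity
  have h4 : ((1 / 2 : ℝ) ^ T - 1) / (1 / 2 - 1) = 2 - 2 * (1 / 2 : ℝ) ^ T := by ring
  rw [h4]
  linarith

lemma B9a_yh {f : (Fin N → Bool) → ℝ} {w : Fin N → (Fin N → Bool) → ℝ}
    (γ ε k s₀ : ℝ) (hε : 0 < ε) (hγ : 0 < γ) (T : ℕ)
    (hT : 1 ≤ T) (hεT : 8 * ε * T ≤ γ) (τ : ℝ) (hτ : 0 < τ)
    (H : Hyp f w ε k s₀) (A : Finset (Fin N))
    (ha : ∀ i ∈ A, EE (w i) ≤ τ) :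
    Yh γ ε T f A ≤ 4 * τ * (s₀ / γ) / γ := by
  have hT1 : (1 : ℝ) ≤ T := by exact_mod_cast hT
  have hε' : 8 * ε ≤ γ := by nlinarith
  have key : ∀ t ∈ Finset.range T,
      (1 / 2 : ℝ) ^ (T - 1 - t) * ∑ i ∈ A, pp f (th γ ε (t + 1)) i ^ 2
        ≤ (1 / 2 : ℝ) ^ (T - 1 - t) * (2 * τ / γ * (s₀ / γ)) := by
    intro t _
    apply mul_le_mul_of_nonneg_left _ (by positivity)
    have hth : γ ≤ th γ ε (t + 1) := by
      unfold th
      have : 0 ≤ 8 * ε * ((t + 1 : ℕ) : ℝ) := by positivity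
      linarith
    have hthp : 0 < th γ ε (t + 1) := lt_of_lt_of_le hγ hth
    have h1 : ∑ i ∈ A, pp f (th γ ε (t + 1)) i ^ 2
        ≤ ∑ i ∈ A, 2 * τ / γ * pp f (th γ ε (t + 1)) i := by
      apply Finset.sum_le_sum
      intro i hi
      have h0 := (pp_facts f i).1 (th γ ε (t + 1))
      have h2 := pp_le_w H (th γ ε (t + 1)) hthp (by linarith) i
      have h3 : 2 / th γ ε (t + 1) * EE (w i) ≤ 2 * τ / γ := by
        have hw0 : 0 ≤ EE (w i) := EE_nonneg (H.w0 i)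
        have h4 : 2 / th γ ε (t + 1) ≤ 2 / γ := by
          apply div_le_div_of_nonneg_left (by norm_num) hγ hth
        calc 2 / th γ ε (t + 1) * EE (w i) ≤ 2 / γ * τ :=
              mul_le_mul h4 (ha i hi) hw0 (by positivity)
          _ = 2 * τ / γ := by ring
      rw [sq]
      exact mul_le_mul_of_nonneg_right (h2.trans h3) h0
    rw [← Finset.mul_sum] at h1
    have h5 := sum_pp_le H γ (th γ ε (t + 1)) hγ hth A
    exact h1.trans (mul_le_mul_of_nonneg_left h5 (by positivity))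
  unfold Yh
  refine (Finset.sum_le_sum key).trans ?_
  rw [← Finset.sum_mul]
  have h6 := B9a_geom T hT
  have h7 : 0 ≤ 2 * τ / γ * (s₀ / γ) := by
    have hs : 0 ≤ s₀ / γ := by
      have := sum_pp_le H γ γ hγ le_rfl (∅ : Finset (Fin N))
      simpa using this
    positivity
  calc (∑ t ∈ Finset.range T, (1 / 2 : ℝ) ^ (T - 1 - t)) * (2 * τ / γ * (s₀ / γ))
      ≤ 2 * (2 * τ / γ * (s₀ / γ)) := mul_le_mul_of_nonneg_right h6 h7
    _ = 4 * τ * (s₀ / γ) / γ := by ring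

theorem cold_abs {f : (Fin N → Bool) → ℝ} {w : Fin N → (Fin N → Bool) → ℝ}
    (γ ε k s₀ : ℝ) (hε : 0 < ε) (hk : 0 < k) (hs₀ : 0 < s₀) (hγ : 0 < γ) (T : ℕ)
    (hT : 1 ≤ T) (hεT : 8 * ε * T ≤ γ) (ε₁ τ : ℝ) (hε₁ : 0 < ε₁) (hε₁' : ε₁ ≤ s₀ / γ) (hτ : 0 < τ)
    (K : ℝ) (hK : 1 ≤ K)
    (h1 : γ * s₀ * (Real.log (s₀ / γ / ε₁) + 1) ≤ ε₁)
    (h2 : k ^ 2 * (s₀ / γ) * (Real.log (s₀ / γ / ε₁) + 1) ≤ ε ^ 2 * ε₁ ^ 2 * K)
    (h3 : (1 / 2 : ℝ) ^ T * γ * (Real.log (s₀ / γ / ε₁) + 1) ≤ 5 * τ)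
    (h4 : 4 * (s₀ / γ) * τ * (s₀ / γ / ε₁) ^ 5
        * Real.exp (4 * Real.log K * Real.log (s₀ / γ / ε₁)) ≤ γ * ε₁)
    (H : Hyp f w ε k s₀) (A : Finset (Fin N)) (hA : ∀ i ∉ A, ∀ x, f (flp i x) = f x)
    (ha : ∀ i ∈ A, EE (w i) ≤ τ) :
    var f ≤ 8 * ε₁ := by
  have hκ : 0 < s₀ / γ := by positivity
  obtain ⟨κ, hκdef⟩ : ∃ κ, κ = s₀ / γ := ⟨_, rfl⟩
  have hκγ : s₀ = κ * γ := by rw [hκdef]; field_simp
  rw [← hκdef] at hε₁' h1 h2 h3 h4 hκ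
  have hR : 1 ≤ κ / ε₁ := by rw [le_div_iff₀ hε₁]; linarith
  have hS : 0 ≤ Real.log (κ / ε₁) := Real.log_nonneg hR
  obtain ⟨S, hSdef⟩ : ∃ S, S = Real.log (κ / ε₁) := ⟨_, rfl⟩
  rw [← hSdef] at h1 h2 h3 h4 hS
  have hexpS : Real.exp S = κ / ε₁ := by
    rw [hSdef]; exact Real.exp_log (by positivity)
  have hKpos : 0 < K := by linarith
  have hT1 : (1 : ℝ) ≤ T := by exact_mod_cast hT
  have hthT0 : 0 < th γ ε T := by
    unfold th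
    have : 0 ≤ 8 * ε * (T : ℝ) := by positivity
    linarith
  have hthT : th γ ε T ≤ 2 * γ := by unfold th; linarith
  have hthγ : γ ≤ th γ ε T := by
    unfold th
    have : 0 ≤ 8 * ε * (T : ℝ) := by positivity
    linarith
  -- the parameters
  have hca : 0 < ε₁ / k := by positivity
  have hm0 : 0 < κ * τ * k / (γ * ε₁ ^ 2) := by positivity
  have hcam : ε₁ / k * (κ * τ * k / (γ * ε₁ ^ 2)) = κ * τ / (γ * ε₁) := by
    field_simp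
  have hsmall : 4 * (ε₁ / k) * (κ * τ * k / (γ * ε₁ ^ 2)
      * Real.exp ((5 + 4 * Real.log K) * S)) ≤ 1 := by
    have e1 : Real.exp ((5 + 4 * Real.log K) * S)
        = (κ / ε₁) ^ 5 * Real.exp (4 * Real.log K * S) := by
      rw [← hexpS, ← Real.exp_nat_mul, ← Real.exp_add]
      congr 1
      push_cast
      ring
    rw [e1]
    have e2 : 4 * (ε₁ / k) * (κ * τ * k / (γ * ε₁ ^ 2)
        * ((κ / ε₁) ^ 5 * Real.exp (4 * Real.log K * S)))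
        = 4 * κ * τ * (κ / ε₁) ^ 5 * Real.exp (4 * Real.log K * S) / (γ * ε₁) := by
      rw [show 4 * (ε₁ / k) * (κ * τ * k / (γ * ε₁ ^ 2)
        * ((κ / ε₁) ^ 5 * Real.exp (4 * Real.log K * S)))
        = 4 * (ε₁ / k * (κ * τ * k / (γ * ε₁ ^ 2)))
          * ((κ / ε₁) ^ 5 * Real.exp (4 * Real.log K * S)) by ring, hcam]
      ring
    rw [e2, div_le_one (by positivity)]
    exact h4
  have hP := process (N := N) γ ε k s₀ hε hk.le hs₀.le hγ T hT (ε₁ / k)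
    (κ * τ * k / (γ * ε₁ ^ 2)) K S
    (th γ ε T * s₀ / 2 + 4 * (k / (4 * ε ^ 2)) * (s₀ / γ) / (ε₁ / k * K)
      + (1 / 2 : ℝ) ^ T * (s₀ / γ) / (5 * (ε₁ / k) * (κ * τ * k / (γ * ε₁ ^ 2))))
    (th γ ε T * s₀ / 4) hca hm0 hK hS hsmall le_rfl le_rfl A.card A rfl 0 le_rfl
    (by linarith) f w H
  -- the terms
  have hcompl : ∑ i ∈ Aᶜ, pp f (th γ ε T) i = 0 := by
    apply Finset.sum_eq_zero
    intro i hi
    have hi' : i ∉ A := by simpa using hi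
    unfold pp
    have : EE (JJ f (th γ ε T) i) = EE (fun _ : Fin N → Bool => (0 : ℝ)) := by
      apply EE_congr
      intro x
      unfold JJ dd
      rw [hA i hi' x]
      simp only [sub_self, abs_zero]
      rw [if_neg (not_le.mpr hthT0)]
    rw [this, EE_const]
  have hY := B9a_yh γ ε k s₀ hε hγ T hT hεT τ hτ H A ha
  have hY0 : 0 ≤ Yh γ ε T f A := by
    unfold Yh
    apply Finset.sum_nonneg
    intro t _
    apply mul_nonneg (by positivity)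
    exact Finset.sum_nonneg fun i _ => sq_nonneg _
  rw [← hκdef] at hY
  have t1 : 1 / (4 * (ε₁ / k) * (κ * τ * k / (γ * ε₁ ^ 2)
      * Real.exp ((5 + 4 * Real.log K) * 0))) * Yh γ ε T f A ≤ ε₁ := by
    rw [mul_zero, Real.exp_zero, mul_one]
    rw [show 4 * (ε₁ / k) * (κ * τ * k / (γ * ε₁ ^ 2))
      = 4 * (ε₁ / k * (κ * τ * k / (γ * ε₁ ^ 2))) by ring, hcam]
    have e3 : 1 / (4 * (κ * τ / (γ * ε₁))) = γ * ε₁ / (4 * κ * τ) := by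
      field_simp
    rw [e3]
    calc γ * ε₁ / (4 * κ * τ) * Yh γ ε T f A
        ≤ γ * ε₁ / (4 * κ * τ) * (4 * τ * κ / γ) :=
          mul_le_mul_of_nonneg_left hY (by positivity)
      _ = ε₁ := by field_simp
  have t2 : Real.exp (0 - S) * ∑ i ∈ A, pp f (th γ ε T) i ≤ ε₁ := by
    have h5 := sum_pp_le H γ (th γ ε T) hγ hthγ A
    rw [← hκdef] at h5
    have e4 : Real.exp (0 - S) = ε₁ / κ := by
      rw [zero_sub, Real.exp_neg, hexpS, inv_div]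
    rw [e4]
    calc ε₁ / κ * ∑ i ∈ A, pp f (th γ ε T) i ≤ ε₁ / κ * κ :=
          mul_le_mul_of_nonneg_left h5 (by positivity)
      _ = ε₁ := by field_simp
  have t3 : ε₁ / k * ∑ i ∈ A, EE (w i) ≤ ε₁ := by
    have h6 : ∑ i ∈ A, EE (w i) ≤ k := by
      rw [← EE_sum]
      have h7 : EE (fun x => ∑ i ∈ A, w i x) ≤ EE (fun _ : Fin N → Bool => k) := by
        apply EE_mono
        intro x
        exact (Finset.sum_le_sum_of_subset_of_nonneg (Finset.subset_univ A)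
          (fun i _ _ => H.w0 i x)).trans (H.wk x)
      rwa [EE_const] at h7
    calc ε₁ / k * ∑ i ∈ A, EE (w i) ≤ ε₁ / k * k :=
          mul_le_mul_of_nonneg_left h6 (by positivity)
      _ = ε₁ := by field_simp
  have hS1 : 0 < S + 1 := by linarith
  have c1 : th γ ε T * s₀ / 2 * (S + 1) ≤ ε₁ := by
    have : th γ ε T * s₀ / 2 ≤ γ * s₀ := by nlinarith
    exact (mul_le_mul_of_nonneg_right this hS1.le).trans h1
  have c2 : 4 * (k / (4 * ε ^ 2)) * κ / (ε₁ / k * K) * (S + 1) ≤ ε₁ := by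
    have e5 : 4 * (k / (4 * ε ^ 2)) * κ / (ε₁ / k * K) * (S + 1)
        = k ^ 2 * κ * (S + 1) / (ε ^ 2 * ε₁ * K) := by
      field_simp
    rw [e5, div_le_iff₀ (by positivity)]
    calc k ^ 2 * κ * (S + 1) ≤ ε ^ 2 * ε₁ ^ 2 * K := h2
      _ = ε₁ * (ε ^ 2 * ε₁ * K) := by ring
  have c3 : (1 / 2 : ℝ) ^ T * κ / (5 * (ε₁ / k) * (κ * τ * k / (γ * ε₁ ^ 2))) * (S + 1)
      ≤ ε₁ := by
    rw [show 5 * (ε₁ / k) * (κ * τ * k / (γ * ε₁ ^ 2))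
      = 5 * (ε₁ / k * (κ * τ * k / (γ * ε₁ ^ 2))) by ring, hcam]
    have e6 : (1 / 2 : ℝ) ^ T * κ / (5 * (κ * τ / (γ * ε₁))) * (S + 1)
        = ((1 / 2 : ℝ) ^ T * γ * (S + 1)) * ε₁ / (5 * τ) := by
      field_simp
    rw [e6, div_le_iff₀ (by positivity)]
    calc (1 / 2 : ℝ) ^ T * γ * (S + 1) * ε₁ ≤ (5 * τ) * ε₁ :=
          mul_le_mul_of_nonneg_right h3 hε₁.le
      _ = ε₁ * (5 * τ) := by ring
  have c4 : th γ ε T * s₀ / 4 ≤ ε₁ := by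
    have h8 : th γ ε T * s₀ / 4 ≤ γ * s₀ := by nlinarith
    have h9 : γ * s₀ ≤ γ * s₀ * (S + 1) := by
      have : 0 ≤ γ * s₀ * S := by positivity
      linarith
    linarith
  rw [hcompl] at hP
  unfold Phi at hP
  rw [← hκdef] at hP
  have hcr : (th γ ε T * s₀ / 2 + 4 * (k / (4 * ε ^ 2)) * κ / (ε₁ / k * K)
      + (1 / 2 : ℝ) ^ T * κ / (5 * (ε₁ / k) * (κ * τ * k / (γ * ε₁ ^ 2)))) * (S + 1 - 0)
      ≤ 3 * ε₁ := by
    have : (th γ ε T * s₀ / 2 + 4 * (k / (4 * ε ^ 2)) * κ / (ε₁ / k * K)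
      + (1 / 2 : ℝ) ^ T * κ / (5 * (ε₁ / k) * (κ * τ * k / (γ * ε₁ ^ 2)))) * (S + 1 - 0)
      = th γ ε T * s₀ / 2 * (S + 1) + 4 * (k / (4 * ε ^ 2)) * κ / (ε₁ / k * K) * (S + 1)
      + (1 / 2 : ℝ) ^ T * κ / (5 * (ε₁ / k) * (κ * τ * k / (γ * ε₁ ^ 2))) * (S + 1) := by ring
    rw [this]
    linarith
  linarith

end Pool.Agent.H572R4.QA
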