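import Pool.Agent.H572R4.QA.Defs
import Pool.Agent.H572R4.QA.B9a

set_option autoImplicit false

namespace Pool.Agent.H572R4.QA

open Finset Pool.Agent.H572R2

variable {N : ℕ}

theorem B9b_aux (d : ℕ) (V : ℝ) (hd : 1 ≤ d) (hV : 0 < V) (hV1 : V ≤ 1) :
    ∃ (R L γ ε K τ Q : ℝ) (T : ℕ), R = 4 * d / V ∧ L = Real.log R ∧ 0 < γ ∧ 0 < ε ∧ ε ≤ 1 ∧
      1 ≤ T ∧ 8 * ε * T ≤ γ ∧ V / 32 ≤ (4 * (d:ℝ) ^ 2) / γ ∧ 0 < τ ∧ 1 ≤ K ∧
      Q = (4 * (d:ℝ) ^ 2) / γ / (V / 32) ∧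
      γ * (4 * (d:ℝ) ^ 2) * (Real.log Q + 1) ≤ V / 32 ∧
      (512 * (d:ℝ) ^ 4 / ε) ^ 2 * ((4 * (d:ℝ) ^ 2) / γ) * (Real.log Q + 1)
        ≤ ε ^ 2 * (V / 32) ^ 2 * K ∧
      (1 / 2 : ℝ) ^ T * γ * (Real.log Q + 1) ≤ 5 * τ ∧
      4 * ((4 * (d:ℝ) ^ 2) / γ) * τ * Q ^ 5 * Real.exp (4 * Real.log K * Real.log Q)
        ≤ γ * (V / 32) ∧
      τ = Real.exp (-4977 * L ^ 2) ∧ Real.exp (-4977 * L ^ 2) ≤ ε := by
  have hd1 : (1:ℝ) ≤ d := by exact_mod_cast hd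
  obtain ⟨R, hR⟩ : ∃ R : ℝ, R = 4 * d / V := ⟨_, rfl⟩
  have hR4 : 4 ≤ R := by
    rw [hR, le_div_iff₀ hV]; linarith
  have hR0 : 0 < R := by linarith
  have hVR : V * R = 4 * d := by rw [hR]; field_simp
  obtain ⟨L, hL⟩ : ∃ L : ℝ, L = Real.log R := ⟨_, rfl⟩
  have hexpL : Real.exp L = R := by rw [hL]; exact Real.exp_log hR0
  have hL1 : 1 ≤ L := by
    rw [hL, Real.le_log_iff_exp_le hR0]
    have := Real.exp_one_lt_d9
    linarith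
  have hLR : L ≤ R := by
    have := Real.add_one_le_exp L
    rw [hexpL] at this; linarith
  have hpow : ∀ n : ℕ, R ^ n = Real.exp (n * L) := by
    intro n
    rw [← hexpL, ← Real.exp_nat_mul]
  have hdR : (d:ℝ) ≤ R / 4 := by
    have := mul_le_mul_of_nonneg_right hV1 hR0.le
    linarith
  have hVlo : 4 / R ≤ V := by
    rw [div_le_iff₀ hR0]; rw [hVR]; linarith
  -- T
  obtain ⟨T, hT⟩ : ∃ T : ℕ, T = ⌈2 * 4977 * L ^ 2⌉₊ := ⟨_, rfl⟩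
  have hTlo : 2 * 4977 * L ^ 2 ≤ (T:ℝ) := by rw [hT]; exact Nat.le_ceil _
  have hThi' : (T:ℝ) ≤ 2 * 4977 * L ^ 2 + 1 := by
    rw [hT]; exact (Nat.ceil_lt_add_one (by positivity)).le
  have hL2 : 1 ≤ L ^ 2 := one_le_pow₀ hL1
  have hT1r : (1:ℝ) ≤ T := by linarith
  have hT1 : 1 ≤ T := by exact_mod_cast hT1r
  have hL2R : L ^ 2 ≤ R ^ 2 := pow_le_pow_left₀ (by linarith) hLR 2
  have hThi : (T:ℝ) ≤ 9955 * R ^ 2 := by linarith
  have hT0 : (0:ℝ) < T := by linarith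
  -- γ, ε
  obtain ⟨γ, hγ⟩ : ∃ γ : ℝ, γ = 1 / R ^ 8 := ⟨_, rfl⟩
  have hγ0 : 0 < γ := by rw [hγ]; positivity
  obtain ⟨ε, hε⟩ : ∃ ε : ℝ, ε = γ / (8 * T) := ⟨_, rfl⟩
  have hε0 : 0 < ε := by rw [hε]; positivity
  have hR9 : (4:ℝ) ^ 9 ≤ R ^ 9 := pow_le_pow_left₀ (by norm_num) hR4 9
  have hR8 : (4:ℝ) ^ 8 ≤ R ^ 8 := pow_le_pow_left₀ (by norm_num) hR4 8
  have hR2 : (4:ℝ) ^ 2 ≤ R ^ 2 := pow_le_pow_left₀ (by norm_num) hR4 2
  have hR3 : (4:ℝ) ^ 3 ≤ R ^ 3 := pow_le_pow_left₀ (by norm_num) hR4 3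
  have hεlo : 1 / R ^ 19 ≤ ε := by
    rw [hε, hγ, div_div]
    apply one_div_le_one_div_of_le (by positivity)
    have h1 : R ^ 8 * (8 * (T:ℝ)) ≤ R ^ 8 * (8 * (9955 * R ^ 2)) := by gcongr
    have h2 : R ^ 8 * (8 * (9955 * R ^ 2)) = 79640 * R ^ 10 := by ring
    have h3 : 79640 * R ^ 10 ≤ R ^ 9 * R ^ 10 := by
      apply mul_le_mul_of_nonneg_right _ (by positivity)
      norm_num at hR9
      linarith
    have h4 : R ^ 9 * R ^ 10 = R ^ 19 := by ring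
    linarith
  have hε1 : ε ≤ 1 := by
    rw [hε, hγ, div_div, div_le_one (by positivity)]
    have h8 : 1 ≤ R ^ 8 := one_le_pow₀ (by linarith)
    exact one_le_mul_of_one_le_of_one_le h8 (by linarith)
  have hεT : 8 * ε * T = γ := by rw [hε]; field_simp
  -- Q
  obtain ⟨Q, hQ⟩ : ∃ Q : ℝ, Q = (4 * (d:ℝ) ^ 2) / γ / (V / 32) := ⟨_, rfl⟩
  have hs0 : (4 * (d:ℝ) ^ 2) ≤ R ^ 2 / 4 := by
    have h1 := pow_le_pow_left₀ (by linarith : (0:ℝ) ≤ d) hdR 2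
    have h2 : (R / 4) ^ 2 = R ^ 2 / 16 := by ring
    rw [h2] at h1
    linarith
  have hs1 : (1:ℝ) ≤ 4 * (d:ℝ) ^ 2 := by
    have := one_le_pow₀ hd1 (n := 2)
    linarith
  have hsγ : (4 * (d:ℝ) ^ 2) / γ = 4 * (d:ℝ) ^ 2 * R ^ 8 := by
    rw [hγ]; field_simp
  have hsγle : (4 * (d:ℝ) ^ 2) / γ ≤ R ^ 10 / 4 := by
    rw [hsγ]
    have : 4 * (d:ℝ) ^ 2 * R ^ 8 ≤ R ^ 2 / 4 * R ^ 8 := by gcongr
    calc 4 * (d:ℝ) ^ 2 * R ^ 8 ≤ R ^ 2 / 4 * R ^ 8 := this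
      _ = R ^ 10 / 4 := by ring
  have hsγ0 : 0 < (4 * (d:ℝ) ^ 2) / γ := by positivity
  have hV32 : 1 / (8 * R) ≤ V / 32 := by
    have : 1 / (8 * R) = (4 / R) / 32 := by field_simp; ring
    rw [this]
    linarith
  have hQle : Q ≤ R ^ 12 := by
    rw [hQ, div_le_iff₀ (by positivity)]
    have h1 : R ^ 12 * (1 / (8 * R)) ≤ R ^ 12 * (V / 32) := by gcongr
    have h2 : R ^ 12 * (1 / (8 * R)) = R ^ 11 / 8 := by field_simp
    have h3 : R ^ 10 / 4 ≤ R ^ 11 / 8 := by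
      have : R ^ 11 = R * R ^ 10 := by ring
      rw [this]
      have h10 : 0 < R ^ 10 := by positivity
      have h11 := mul_le_mul_of_nonneg_right (by linarith : (2:ℝ) ≤ R) h10.le
      linarith
    linarith
  have hQ1 : 1 ≤ Q := by
    rw [hQ, le_div_iff₀ (by positivity), hsγ]
    have h8 : 1 ≤ R ^ 8 := one_le_pow₀ (by linarith)
    have : 1 ≤ 4 * (d:ℝ) ^ 2 * R ^ 8 := one_le_mul_of_one_le_of_one_le hs1 h8
    linarith
  have hQ0 : 0 < Q := by linarith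
  have hlogQ : Real.log Q ≤ 12 * L := by
    have h1 := Real.log_le_log hQ0 hQle
    rw [Real.log_pow] at h1
    rw [hL]; exact_mod_cast h1
  have hlogQ0 : 0 ≤ Real.log Q := Real.log_nonneg hQ1
  have hlogQ1 : Real.log Q + 1 ≤ 13 * R := by linarith
  have hlogQ1' : Real.log Q + 1 ≤ R ^ 3 := by
    have : 13 * R ≤ R ^ 2 * R := by
      apply mul_le_mul_of_nonneg_right _ hR0.le
      norm_num at hR2
      linarith
    calc Real.log Q + 1 ≤ 13 * R := hlogQ1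
      _ ≤ R ^ 2 * R := this
      _ = R ^ 3 := by ring
  -- K
  obtain ⟨K, hK⟩ : ∃ K : ℝ, K = R ^ 102 := ⟨_, rfl⟩
  have hK1 : 1 ≤ K := by rw [hK]; exact one_le_pow₀ (by linarith)
  have hlogK : Real.log K = 102 * L := by
    rw [hK, Real.log_pow, hL]; norm_num
  obtain ⟨τ, hτ⟩ : ∃ τ : ℝ, τ = Real.exp (-4977 * L ^ 2) := ⟨_, rfl⟩
  have hτ0 : 0 < τ := by rw [hτ]; exact Real.exp_pos _
  refine ⟨R, L, γ, ε, K, τ, Q, T, hR, hL, hγ0, hε0, hε1, hT1, hεT.le, ?_, hτ0, hK1, hQ, ?_, ?_,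
    ?_, ?_, hτ, ?_⟩
  · rw [hsγ]
    have h8 : 1 ≤ R ^ 8 := one_le_pow₀ (by linarith)
    have : 1 ≤ 4 * (d:ℝ) ^ 2 * R ^ 8 := one_le_mul_of_one_le_of_one_le hs1 h8
    linarith
  · -- h1
    have h1 : γ * (4 * (d:ℝ) ^ 2) * (Real.log Q + 1) ≤ (1 / R ^ 8) * (R ^ 2 / 4) * (13 * R) := by
      rw [← hγ]; gcongr
    have h2 : (1 / R ^ 8) * (R ^ 2 / 4) * (13 * R) = 13 / (4 * R ^ 5) := by
      field_simp
    have h3 : 13 / (4 * R ^ 5) ≤ 1 / (8 * R) := by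
      rw [div_le_div_iff₀ (by positivity) (by positivity)]
      have hR4' : (4:ℝ) ^ 4 ≤ R ^ 4 := pow_le_pow_left₀ (by norm_num) hR4 4
      norm_num at hR4'
      have h5 : R ^ 5 = R ^ 4 * R := by ring
      rw [h5]
      have h6 := mul_le_mul_of_nonneg_right hR4' hR0.le
      linarith
    linarith
  · -- h2
    have hd4 : 512 * (d:ℝ) ^ 4 ≤ 2 * R ^ 4 := by
      have : (d:ℝ) ^ 4 ≤ (R / 4) ^ 4 := pow_le_pow_left₀ (by linarith) hdR 4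
      have h2 : (R / 4) ^ 4 = R ^ 4 / 256 := by ring
      rw [h2] at this
      linarith
    have hk : 512 * (d:ℝ) ^ 4 / ε ≤ 2 * R ^ 4 * R ^ 19 := by
      rw [div_le_iff₀ hε0]
      have h1 : 1 ≤ R ^ 19 * ε := by
        have := mul_le_mul_of_nonneg_left hεlo (by positivity : (0:ℝ) ≤ R ^ 19)
        rwa [mul_one_div_cancel (by positivity)] at this
      calc 512 * (d:ℝ) ^ 4 ≤ 2 * R ^ 4 * 1 := by linarith
        _ ≤ 2 * R ^ 4 * (R ^ 19 * ε) := by gcongr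
        _ = 2 * R ^ 4 * R ^ 19 * ε := by ring
    have hk0 : 0 ≤ 512 * (d:ℝ) ^ 4 / ε := by positivity
    have hLHS : (512 * (d:ℝ) ^ 4 / ε) ^ 2 * ((4 * (d:ℝ) ^ 2) / γ) * (Real.log Q + 1)
        ≤ (2 * R ^ 4 * R ^ 19) ^ 2 * (R ^ 10 / 4) * R ^ 3 := by
      gcongr
    have hRHS : (1 / R ^ 19) ^ 2 * (1 / (8 * R)) ^ 2 * R ^ 102 ≤ ε ^ 2 * (V / 32) ^ 2 * K := by
      rw [hK]; gcongr
    have hmid : (2 * R ^ 4 * R ^ 19) ^ 2 * (R ^ 10 / 4) * R ^ 3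
        ≤ (1 / R ^ 19) ^ 2 * (1 / (8 * R)) ^ 2 * R ^ 102 := by
      have e1 : (2 * R ^ 4 * R ^ 19) ^ 2 * (R ^ 10 / 4) * R ^ 3 = R ^ 59 := by ring
      have e2 : (1 / R ^ 19) ^ 2 * (1 / (8 * R)) ^ 2 * R ^ 102 = R ^ 62 / 64 := by
        field_simp
        norm_num
      rw [e1, e2, le_div_iff₀ (by norm_num)]
      have : R ^ 62 = R ^ 59 * R ^ 3 := by ring
      rw [this]
      norm_num at hR3
      gcongr
    linarith
  · -- h3
    have hl2 : (1 / 2 : ℝ) ≤ Real.log 2 := by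
      have := Real.log_two_gt_d9; linarith
    have hhalf : (1 / 2 : ℝ) ^ T ≤ τ := by
      have e : (1 / 2 : ℝ) ^ T = Real.exp (-(T * Real.log 2)) := by
        rw [Real.exp_neg, ← Real.log_pow, Real.exp_log (by positivity)]
        rw [one_div, inv_pow]
      rw [e, hτ]
      apply Real.exp_le_exp.mpr
      have h5 := mul_le_mul_of_nonneg_left hl2 hT0.le
      linarith
    have h8 : γ * (Real.log Q + 1) ≤ 1 := by
      calc γ * (Real.log Q + 1) ≤ (1 / R ^ 8) * R ^ 3 := by rw [← hγ]; gcongr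
        _ = 1 / R ^ 5 := by field_simp
        _ ≤ 1 := by
          rw [div_le_one (by positivity)]
          exact one_le_pow₀ (by linarith)
    have h9 : 0 ≤ γ * (Real.log Q + 1) := by positivity
    calc (1 / 2 : ℝ) ^ T * γ * (Real.log Q + 1) = (1 / 2 : ℝ) ^ T * (γ * (Real.log Q + 1)) := by
          ring
      _ ≤ τ * 1 := by gcongr
      _ ≤ 5 * τ := by linarith
  · -- h4
    have hexp : Real.exp (4 * Real.log K * Real.log Q) ≤ Real.exp (4896 * L ^ 2) := by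
      apply Real.exp_le_exp.mpr
      rw [hlogK]
      have : 4 * (102 * L) * Real.log Q ≤ 4 * (102 * L) * (12 * L) := by gcongr
      have h6 : 4 * (102 * L) * (12 * L) = 4896 * L ^ 2 := by ring
      linarith
    have hLHS : 4 * ((4 * (d:ℝ) ^ 2) / γ) * τ * Q ^ 5 * Real.exp (4 * Real.log K * Real.log Q)
        ≤ 4 * (R ^ 10 / 4) * τ * (R ^ 12) ^ 5 * Real.exp (4896 * L ^ 2) := by
      gcongr
    have hRHS : (1 / R ^ 8) * (1 / (8 * R)) ≤ γ * (V / 32) := by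
      rw [← hγ]; gcongr
    have e1 : 4 * (R ^ 10 / 4) * τ * (R ^ 12) ^ 5 * Real.exp (4896 * L ^ 2)
        = R ^ 70 * Real.exp (-81 * L ^ 2) := by
      rw [hτ]
      have : Real.exp (-81 * L ^ 2) = Real.exp (-4977 * L ^ 2) * Real.exp (4896 * L ^ 2) := by
        rw [← Real.exp_add]; ring_nf
      rw [this]; ring
    have e2 : R ^ 70 * Real.exp (-81 * L ^ 2) ≤ R ^ 70 * (1 / R ^ 81) := by
      apply mul_le_mul_of_nonneg_left _ (by positivity)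
      rw [hpow 81, one_div, ← Real.exp_neg]
      apply Real.exp_le_exp.mpr
      push_cast
      have h7 : L * 1 ≤ L * L := mul_le_mul_of_nonneg_left hL1 (by linarith)
      have h8 : L ^ 2 = L * L := by ring
      rw [h8]
      linarith
    have e3 : R ^ 70 * (1 / R ^ 81) = 1 / R ^ 11 := by field_simp
    have e4 : 1 / R ^ 11 ≤ (1 / R ^ 8) * (1 / (8 * R)) := by
      rw [one_div_mul_one_div]
      apply one_div_le_one_div_of_le (by positivity)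
      have : R ^ 11 = R ^ 8 * (R ^ 2 * R) := by ring
      rw [this]
      norm_num at hR2
      gcongr
      linarith
    linarith
  · calc Real.exp (-4977 * L ^ 2) ≤ Real.exp (-(19 * L)) := by
          apply Real.exp_le_exp.mpr
          have h7 : L * 1 ≤ L * L := mul_le_mul_of_nonneg_left hL1 (by linarith)
          have h8 : L ^ 2 = L * L := by ring
          rw [h8]
          linarith [mul_self_nonneg L]
      _ = 1 / R ^ 19 := by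
          rw [hpow 19, one_div, ← Real.exp_neg]; norm_num
      _ ≤ ε := hεlo

theorem cold : ∃ C : ℝ, 0 < C ∧ ∀ (d : ℕ) (V : ℝ), 1 ≤ d → 0 < V → V ≤ 1 →
    ∃ ε : ℝ, 0 < ε ∧ ε ≤ 1 ∧ Real.exp (-C * Real.log (4 * d / V) ^ 2) ≤ ε ∧
      ∀ (N : ℕ) (f : (Fin N → Bool) → ℝ) (w : Fin N → (Fin N → Bool) → ℝ) (A : Finset (Fin N)),
        Hyp f w ε (512 * d ^ 4 / ε) (4 * d ^ 2) → (∀ i ∉ A, ∀ x, f (flp i x) = f x) →
        (∀ i ∈ A, EE (w i) ≤ Real.exp (-C * Real.log (4 * d / V) ^ 2)) → var f ≤ V / 4 := by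
  refine ⟨4977, by norm_num, ?_⟩
  intro d V hd hV hV1
  obtain ⟨R, L, γ, ε, K, τ, Q, T, hR, hL, hγ0, hε0, hε1, hT1, hεT, hε₁', hτ0, hK1, hQ, h1, h2,
    h3, h4, hτ, hτε⟩ := B9b_aux d V hd hV hV1
  have hd1 : (1:ℝ) ≤ d := by exact_mod_cast hd
  subst hQ
  have hτ' : τ = Real.exp (-4977 * Real.log (4 * d / V) ^ 2) := by
    rw [hτ, hL, hR]
  refine ⟨ε, hε0, hε1, ?_, ?_⟩
  · rw [← hτ', hτ]; exact hτε
  · intro N f w A H hA ha
    have := cold_abs γ ε (512 * (d:ℝ) ^ 4 / ε) (4 * (d:ℝ) ^ 2) hε0 (by positivity)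
      (by positivity) hγ0 T hT1 hεT (V / 32) τ (by positivity) hε₁' hτ0 K hK1 h1 h2 h3 h4 H A hA
      (by intro i hi; rw [hτ']; exact ha i hi)
    linarith

end Pool.Agent.H572R4.QA
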