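import Pool.Agent.H572R4.QA.Defs
import Pool.Agent.H572R2.ReadsMain

set_option autoImplicit false

namespace Pool.Agent.H572R4.QA

open Finset Pool.Agent.H572R2

variable {N : ℕ}

theorem inf_abs {f : (Fin N → Bool) → ℝ} {w : Fin N → (Fin N → Bool) → ℝ} {ε k s₀ : ℝ}
    (H : Hyp f w ε k s₀) (hk : 0 < k) (τ : ℝ) (hτ : 0 < τ) (V : ℝ) (hV : V = var f) (hV0 : 0 < V)
    (hcold : ∀ (S : Finset (Fin N)) (a : Fin N → Bool),
      (∀ i ∈ Sᶜ, Ex S a (w i) ≤ τ) → var (fun x => f (mix S a x)) ≤ V / 4) :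
    ∃ i : Fin N, (3 * V * τ / (8 * k)) ^ 2 ≤ EE (fun x => ((f x - f (flp i x)) / 2) ^ 2) := by
  set m : ℕ → Fin N → (Fin N → Bool) → ℝ := fun _ i x => w i x with hmdef
  have hm : ∀ t k x, 0 ≤ m t k x := fun _ i x => H.w0 i x
  have hms : ∀ t x, ∑ i, m t i x ≤ k := fun _ x => H.wk x
  have hlight : ∀ (S : Finset (Fin N)) (a : Fin N → Bool),
      (∀ t < 1, ∀ i ∈ Sᶜ, Ex S a (m t i) ≤ τ) →
      Ex S a (fun x => (f x) ^ 2) - (Ex S a f) ^ 2 ≤ V / 4 := by
    intro S a h
    exact hcold S a (fun i hi => h 0 (by norm_num) i hi)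
  have hVe : V = EE (fun x => (f x - EE f) ^ 2) := by
    have h1 : EE (fun x => (f x - EE f) ^ 2)
        = EE (fun x => (f x ^ 2 - 2 * EE f * f x) + EE f ^ 2) := by
      apply EE_congr; intro x; ring
    rw [hV, h1, EE_add, EE_sub, EE_mul, EE_const]
    unfold var
    ring
  set lam0 : ℝ := 3 * V * τ / (8 * k) with hlam0
  have hlam0pos : 0 < lam0 := by positivity
  by_contra hcon
  push Not at hcon
  -- a uniform bound for the average effects
  have hL1 : ∀ i, EE (fun x => |f x - f (flp i x)|) < 2 * lam0 := by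
    intro i
    have h1 := EE_cs (fun x => |(f x - f (flp i x)) / 2|) (fun _ => (1 : ℝ))
    have h2 : EE (fun x => |(f x - f (flp i x)) / 2| ^ 2)
        = EE (fun x => ((f x - f (flp i x)) / 2) ^ 2) := by
      apply EE_congr; intro x; rw [sq_abs]
    have h3 : EE (fun _ : Fin N → Bool => (1 : ℝ) ^ 2) = 1 := by
      rw [EE_const]; norm_num
    have h4 : EE (fun x => |(f x - f (flp i x)) / 2| * 1)
        = (1 / 2) * EE (fun x => |f x - f (flp i x)|) := by
      rw [← EE_mul]; apply EE_congr; intro x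
      rw [abs_div]
      have : |(2 : ℝ)| = 2 := by norm_num
      rw [this]; ring
    rw [h2, h3, h4, mul_one] at h1
    have h5 := h1.trans_lt (hcon i)
    have h6 : 1 / 2 * EE (fun x => |f x - f (flp i x)|) < lam0 := by
      by_contra hc
      push Not at hc
      have : lam0 ^ 2 ≤ (1 / 2 * EE (fun x => |f x - f (flp i x)|)) ^ 2 :=
        pow_le_pow_left₀ hlam0pos.le hc 2
      linarith
    linarith
  obtain ⟨lam, hlam, hlamlt, hlamb⟩ : ∃ lam : ℝ, 0 ≤ lam ∧ lam < lam0 ∧
      ∀ i, EE (fun x => |f x - f (flp i x)|) ≤ 2 * lam := by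
    rcases isEmpty_or_nonempty (Fin N) with he | hne
    · exact ⟨0, le_rfl, hlam0pos, fun i => (he.false i).elim⟩
    · obtain ⟨i0, hi0⟩ := Finite.exists_max (fun i => EE (fun x => |f x - f (flp i x)|))
      refine ⟨EE (fun x => |f x - f (flp i0 x)|) / 2, ?_, ?_, fun i => ?_⟩
      · exact div_nonneg (EE_nonneg fun x => abs_nonneg _) (by norm_num)
      · have := hL1 i0
        linarith
      · have := hi0 i
        linarith
  obtain ⟨g, _, _, _, hgβ, hgc⟩ := tree hm 1 f H.f0 H.f1 (V / 4) τ lam hτ hlam hlamb hlight _ ∅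
    (fun _ => true) rfl
  have hA := AA_root hm hms 1 (fun _ : Fin N => true)
  have hEA : ∀ x, EA ∅ f x = f x := by
    intro x
    unfold EA
    simp only [mix_empty]
    exact EE_const _
  simp only [hEA, mix_empty] at hgc hgβ
  have hcov : EE (fun x => f x * g x) - EE f * EE g ≤ lam / τ * k := by
    refine (le_abs_self _).trans (hgc.trans ?_)
    have : ((1 : ℕ) : ℝ) * k = k := by norm_num
    rw [this] at hA
    gcongr
  have hid : V = EE (fun x => (f x - EE f) * (f x - g x))
      + (EE (fun x => f x * g x) - EE f * EE g) := by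
    have h1 : EE (fun x => (f x - EE f) ^ 2)
        = EE (fun x => ((f x - EE f) * (f x - g x) + (f x * g x - EE f * g x))
          - (EE f * f x - EE f * EE f)) := by
      apply EE_congr; intro x; ring
    rw [hVe, h1, EE_sub, EE_add, EE_sub, EE_sub, EE_mul, EE_mul, EE_const]
    ring
  have hyoung : EE (fun x => (f x - EE f) * (f x - g x)) ≤ 1 / 2 * V + 1 / 2 * (V / 4) := by
    have h1 : EE (fun x => (f x - EE f) * (f x - g x))
        ≤ EE (fun x => 1 / 2 * (f x - EE f) ^ 2 + 1 / 2 * (f x - g x) ^ 2) := by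
      apply EE_mono; intro x
      nlinarith [sq_nonneg ((f x - EE f) - (f x - g x))]
    rw [EE_add, EE_mul, EE_mul, ← hVe] at h1
    linarith
  have h1 : 3 * V / 8 ≤ lam / τ * k := by linarith
  have h2 : lam / τ * k < 3 * V / 8 := by
    calc lam / τ * k < lam0 / τ * k := by gcongr
      _ = 3 * V / 8 := by rw [hlam0]; field_simp
  linarith

end Pool.Agent.H572R4.QA
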