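import Pool.Agent.H572R4.QA.Defs
import Pool.Agent.H572R4.QA.AS
import Pool.Agent.H572R4.QA.B6a
import Pool.Agent.H572R4.QA.B9b
import Pool.Agent.H572R4.QA.C2

set_option autoImplicit false

namespace Pool.Agent.H572R4.QA

open Finset Pool.Agent.H572R2

variable {N : ℕ}

theorem D1_num (C d V ε τ L : ℝ) (_hC : 0 < C) (hd : 1 ≤ d) (hV : 0 < V) (hV1 : V ≤ 1)
    (hε : 0 < ε) (hL : L = Real.log (4 * d / V)) (hτ : τ = Real.exp (-C * L ^ 2)) (hτε : τ ≤ ε) :
    Real.exp (-(4 * C + 12) * L ^ 2) ≤ (3 * V * τ / (8 * (512 * d ^ 4 / ε))) ^ 2 := by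
  have hd0 : 0 < d := by linarith
  have h4 : 0 < 4 * d / V := by positivity
  have hL1 : 1 ≤ L := by
    rw [hL, Real.le_log_iff_exp_le h4]
    have h1 : Real.exp 1 < 2.7182818286 := Real.exp_one_lt_d9
    have h2 : (4:ℝ) ≤ 4 * d / V := by
      rw [le_div_iff₀ hV]
      nlinarith
    linarith
  have hexpL : Real.exp (-L) = V / (4 * d) := by
    rw [Real.exp_neg, hL, Real.exp_log h4]
    field_simp
  have hτ0 : 0 < τ := by rw [hτ]; exact Real.exp_pos _
  have he2 : Real.exp (-2) ≤ 3 / 16 := by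
    have h1 : Real.exp (-2) = Real.exp (-1) * Real.exp (-1) := by
      rw [← Real.exp_add]; norm_num
    have h2 : Real.exp (-1) < 0.3678794412 := Real.exp_neg_one_lt_d9
    have h3 := Real.exp_pos (-1)
    rw [h1]
    nlinarith
  have key : Real.exp (-(2 * C * L ^ 2 + 4 * L + 2)) ≤ 3 * V * τ / (8 * (512 * d ^ 4 / ε)) := by
    have e1 : Real.exp (-(2 * C * L ^ 2 + 4 * L + 2)) =
        τ * τ * (V / (4 * d)) ^ 4 * Real.exp (-2) := by
      rw [hτ, ← hexpL, ← Real.exp_nat_mul, ← Real.exp_add, ← Real.exp_add, ← Real.exp_add]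
      congr 1
      push_cast
      ring
    have e2 : 3 * V * τ / (8 * (512 * d ^ 4 / ε)) = 3 * V * τ * ε / (4096 * d ^ 4) := by
      field_simp
      ring
    rw [e1, e2]
    calc τ * τ * (V / (4 * d)) ^ 4 * Real.exp (-2) ≤ τ * τ * (V / (4 * d)) ^ 4 * (3 / 16) := by
          gcongr
      _ = 3 * V ^ 4 * τ * τ / (4096 * d ^ 4) := by
          field_simp
          ring
      _ ≤ 3 * V * τ * ε / (4096 * d ^ 4) := by
          have hV4 : V ^ 4 ≤ V := by
            have h3 : V ^ 3 ≤ 1 := pow_le_one₀ hV.le hV1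
            nlinarith
          gcongr
  calc Real.exp (-(4 * C + 12) * L ^ 2) ≤ Real.exp (-(2 * C * L ^ 2 + 4 * L + 2)) ^ 2 := by
        rw [← Real.exp_nat_mul]
        apply Real.exp_le_exp.mpr
        push_cast
        nlinarith
    _ ≤ _ := by
        have := Real.exp_pos (-(2 * C * L ^ 2 + 4 * L + 2))
        gcongr

theorem main01 : ∃ C : ℝ, 0 < C ∧ ∀ (N : ℕ) (d : ℕ) (f : (Fin N → Bool) → ℝ), 1 ≤ d →
    (∀ x, 0 ≤ f x) → (∀ x, f x ≤ 1) → DegLe d f → 0 < var f →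
    ∃ i : Fin N, Real.exp (-C * Real.log (4 * d / var f) ^ 2)
      ≤ EE (fun x => ((f x - f (flp i x)) / 2) ^ 2) := by
  obtain ⟨C, hC, hcold⟩ := cold
  refine ⟨4 * C + 12, by positivity, ?_⟩
  intro N d f hd f0 f1 hdeg hV
  have hV1 : var f ≤ 1 := by
    unfold var
    have h1 : EE (fun x => f x ^ 2) ≤ 1 := by
      rw [← EE_const (N := N) 1]
      exact EE_mono fun x => by nlinarith [f0 x, f1 x]
    nlinarith [sq_nonneg (EE f)]
  obtain ⟨ε, hε, hε1, hεC, hcold'⟩ := hcold d (var f) hd hV hV1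
  obtain ⟨w, H⟩ := hyp_exists d hd f f0 f1 hdeg ε hε
  have hd0 : (0:ℝ) < d := by exact_mod_cast (show 0 < d by omega)
  have hk : (0:ℝ) < 512 * (d:ℝ) ^ 4 / ε := by positivity
  obtain ⟨i, hi⟩ := inf_abs H hk (Real.exp (-C * Real.log (4 * d / var f) ^ 2))
    (Real.exp_pos _) (var f) rfl hV (by
      intro S a hS
      refine hcold' N (fun x => f (mix S a x)) (fun i x => w i (mix S a x)) Sᶜ
        (hyp_mix H S a) ?_ hS
      intro i hi x
      have : i ∈ S := by simpa using hi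
      rw [mix_flp_mem this])
  refine ⟨i, le_trans ?_ hi⟩
  exact D1_num C d (var f) ε _ _ hC (by exact_mod_cast hd) hV hV1 hε rfl rfl hεC

end Pool.Agent.H572R4.QA
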