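import Pool.Agent.H572R2.ReadsLeaf

/-!
# Definitions for the quasi-polynomial Aaronson-Ambainis theorem
(cube `Fin N → Bool`, `EE` = uniform expectation, `flp i x` = flip of coordinate `i`,
see `Pool.Agent.H572R2.Cube`).
-/

set_option autoImplicit false

namespace Pool.Agent.H572R4.QA

open Finset Pool.Agent.H572R2

variable {N : ℕ}

/-- Sensitivity of `f` at `x` in direction `i`. -/
noncomputable def dd (f : (Fin N → Bool) → ℝ) (i : Fin N) (x : Fin N → Bool) : ℝ :=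
  |f x - f (flp i x)|

/-- Indicator of `θ ≤ dd f i x`. -/
noncomputable def JJ (f : (Fin N → Bool) → ℝ) (θ : ℝ) (i : Fin N) (x : Fin N → Bool) : ℝ :=
  if θ ≤ dd f i x then 1 else 0

/-- Probability that `θ ≤ dd f i x`. -/
noncomputable def pp (f : (Fin N → Bool) → ℝ) (θ : ℝ) (i : Fin N) : ℝ := EE (JJ f θ i)

/-- Sign of a bit. -/
noncomputable def sg (b : Bool) : ℝ := if b then 1 else -1

/-- Level one coefficients of the indicator. -/
noncomputable def gg (f : (Fin N → Bool) → ℝ) (θ : ℝ) (i j : Fin N) : ℝ :=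
  EE (fun x => JJ f θ i x * sg (x j))

/-- The restriction `x_j := b`. -/
def rs (j : Fin N) (b : Bool) (f : (Fin N → Bool) → ℝ) : (Fin N → Bool) → ℝ :=
  fun x => f (Function.update x j b)

/-- Expectation under the product measure with means `b`. -/
noncomputable def mu (b : Fin N → ℝ) (g : (Fin N → Bool) → ℝ) : ℝ :=
  EE (fun x => g x * ∏ j, (1 + b j * sg (x j)))

/-- Variance. -/
noncomputable def var (f : (Fin N → Bool) → ℝ) : ℝ := EE (fun x => f x ^ 2) - EE f ^ 2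

/-- `f` has values in `[0,1]`, `w` is a fractional certificate of mass `k` and error `ε`, and the
total sensitivity is at most `s₀` everywhere. -/
structure Hyp (f : (Fin N → Bool) → ℝ) (w : Fin N → (Fin N → Bool) → ℝ) (ε k s₀ : ℝ) : Prop where
  f0 : ∀ x, 0 ≤ f x
  f1 : ∀ x, f x ≤ 1
  w0 : ∀ i x, 0 ≤ w i x
  wk : ∀ x, ∑ i, w i x ≤ k
  cert : ∀ x y, |f x - f y| ≤ ε + ∑ i, (if x i = y i then 0 else w i x)
  infl : ∀ x, ∑ i, dd f i x ≤ s₀

/-- Degree at most `d` (Fourier coefficients above level `d` vanish). -/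
def DegLe (d : ℕ) (f : (Fin N → Bool) → ℝ) : Prop :=
  ∀ S : Finset (Fin N), d < S.card → ∑ x, f x * ∏ i ∈ S, (-1 : ℝ) ^ (x i).toNat = 0

/-- Flip of the coordinates in `S`. -/
def flS (S : Finset (Fin N)) (x : Fin N → Bool) : Fin N → Bool :=
  fun i => if i ∈ S then !(x i) else x i

/-- `|E f(x^R) - f(x)| ≤ C √η` for every random set `R` all of whose marginals are `≤ η`. -/
def Rb (f : (Fin N → Bool) → ℝ) (C : ℝ) : Prop :=
  ∀ (Ω : Type) [Fintype Ω] (ρ : Ω → ℝ) (R : Ω → Finset (Fin N)) (x : Fin N → Bool) (η : ℝ),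
    (∀ ω, 0 ≤ ρ ω) → ∑ ω, ρ ω = 1 → 0 ≤ η → η ≤ 1 →
    (∀ i, ∑ ω, (if i ∈ R ω then ρ ω else 0) ≤ η) →
    |∑ ω, ρ ω * (f (flS (R ω) x) - f x)| ≤ C * Real.sqrt η

/-- Block inequality with constant `D`. -/
def Bk (f : (Fin N → Bool) → ℝ) (D : ℝ) : Prop :=
  ∀ (m : ℕ) (A : Fin m → Finset (Fin N)), (∀ a b, a ≠ b → Disjoint (A a) (A b)) →
    ∀ x, |∑ a, (f (flS (A a) x) - f x)| ≤ D

/-- The kernel of the coupling between the uniform bit and the bit of mean `b`. -/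
noncomputable def ker (b : ℝ) (s t : Bool) : ℝ :=
  if s = t then (if 0 ≤ b * sg s then 1 else 1 - |b|) else (if 0 ≤ b * sg s then 0 else |b|)

/-- Thresholds. -/
noncomputable def th (γ ε : ℝ) (t : ℕ) : ℝ := γ + 8 * ε * t

/-- Weighted sum of the squared probabilities. -/
noncomputable def Yh (γ ε : ℝ) (T : ℕ) (f : (Fin N → Bool) → ℝ) (A : Finset (Fin N)) : ℝ :=
  ∑ t ∈ Finset.range T, (1 / 2 : ℝ) ^ (T - 1 - t) * ∑ i ∈ A, pp f (th γ ε (t + 1)) i ^ 2

/-- The potential. -/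
noncomputable def Phi (γ ε : ℝ) (T : ℕ) (ca m0 K S cr base : ℝ) (s : ℝ)
    (f : (Fin N → Bool) → ℝ) (w : Fin N → (Fin N → Bool) → ℝ) (A : Finset (Fin N)) : ℝ :=
  1 / (4 * ca * (m0 * Real.exp ((5 + 4 * Real.log K) * s))) * Yh γ ε T f A
    + Real.exp (s - S) * ∑ i ∈ A, pp f (th γ ε T) i
    + ca * ∑ i ∈ A, EE (w i) + (cr * (S + 1 - s) + base)

end Pool.Agent.H572R4.QA
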